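import Pool.Agent.W619.PQ.Alg

/-! Transcendence bases of generically finite covers of products of curves. -/

set_option autoImplicit false
set_option linter.overlappingInstances false

open FF IntermediateField

namespace Pool.Agent.W619.X

open Pool.Agent.W619.PQ

variable {k L : Type*} [Field k] [Field L] [Algebra k L]

theorem basis_of_alg {n : ℕ} (F : Fin n → IntermediateField k L) [∀ i, IsFF k (F i)]
    (halg : Algebra.IsAlgebraic ↥(⨆ i, F i) L) (hn : Algebra.trdeg k L = n) (x : ∀ i, F i)
    (hx : ∀ i, Transcendental k (x i)) : IsTranscendenceBasis k (fun i => (x i : L)) := by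
  have h1 : Algebra.IsAlgebraic (Algebra.adjoin k (Set.range fun i => (x i : L))) L := by
    refine alg_adjoin fun z => ?_
    let S : IntermediateField k L := adjoin k (Set.range fun i => (x i : L))
    let A : IntermediateField S L := algebraicClosure S L
    have hA : ∀ z ∈ ⨆ i, F i, z ∈ A := fun z hz => by
      rw [mem_algebraicClosure_iff]
      exact alg_iSup F x hx hz
    let f : ↥(⨆ i, F i) →+* A := ((⨆ i, F i).val : ↥(⨆ i, F i) →+* L).codRestrict A
      fun y => hA _ y.2
    have h2 : IsAlgebraic A z := by
      have h3 := halg.isAlgebraic z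
      refine h3.ringHom_of_comp_eq f (RingHom.id L) f.injective (by ext y; rfl)
    have h4 : Algebra.IsAlgebraic S A := algebraicClosure.isAlgebraic S L
    exact IsAlgebraic.restrictScalars S h2
  refine Algebra.IsAlgebraic.isTranscendenceBasis_of_lift_le_trdeg_of_finite k _ ?_
  rw [hn]
  simp

theorem alg_of_sup {n : ℕ} (F : Fin n → IntermediateField k L) (hsup : ⨆ i, F i = ⊤) :
    Algebra.IsAlgebraic ↥(⨆ i, F i) L :=
  ⟨fun z => by
    have hz : z ∈ ⨆ i, F i := by rw [hsup]; trivial
    exact isAlgebraic_algebraMap (⟨z, hz⟩ : ↥(⨆ i, F i))⟩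

end Pool.Agent.W619.X
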