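import Pool.Agent.W619.X.Lower
import Pool.Agent.W619.TW.NVFin

/-! Kodaira dimension equals numerical dimension: orbifold divisors. -/

set_option autoImplicit false
set_option linter.overlappingInstances false
set_option linter.unusedSectionVars false

universe u v

open Polynomial FF IntermediateField

namespace Pool.Agent.W619.X

open Pool.Agent.W603.LV Pool.Agent.W619.PQ Pool.Agent.W619.PL Pool.Agent.W619.TW

section

variable {k L : Type*} [Field k] [CharZero k] [IsAlgClosed k] [Field L] [Algebra k L]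

/-- The degree condition, abstract form. -/
def Adm (s : ℕ) {E0 : Type*} (E : Type*) [Field E0] [Field E] [Algebra k E0] [Algebra k E]
    [Algebra E0 E] (B0 : Place k E0 → Prop) (δ : Place k E0 → ℚ) : Prop :=
  (∃ (D : Derivation k E0 E0) (o : Place k E0 → ℤ), D ≠ 0 ∧
        (∀ q, ∀ t, q.ord t = 1 → q.ord (D t) = o q) ∧ 0 ≤ ∑ᶠ q, (δ q - o q) ∧
        (s = 1 → 0 < ∑ᶠ q, (δ q - o q))) ∨
      ∃ N, (∀ q, (B0 q → 1 ≤ δ q) ∧ (¬ B0 q → ∀ (w : Place k E) e, Over w q e →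
        1 - 1 / ((min e N : ℕ) : ℚ) ≤ δ q)) ∧ (6 + s ≤ N ∨
        (4 + s ≤ N ∧ ∀ (w : Place k E) (q : Place k E0), ¬ Over w q 3) ∨
        (3 + s ≤ N ∧ ∀ (w : Place k E) (q : Place k E0), ¬ Over w q 2) ∨
        (2 + s ≤ N ∧ ∃ q, B0 q))

theorem Adm.weak {s : ℕ} {E0 E : Type*} [Field E0] [Field E] [Algebra k E0] [Algebra k E]
    [Algebra E0 E] {B0 : Place k E0 → Prop} {δ : Place k E0 → ℚ}
    (h : Adm (k := k) s E B0 δ) : Adm (k := k) 0 E B0 δ := by
  rcases h with ⟨D, o, h1, h2, h3, h4⟩ | ⟨N, h1, h2⟩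
  · exact Or.inl ⟨D, o, h1, h2, h3, fun h => absurd h (by norm_num)⟩
  · refine Or.inr ⟨N, h1, ?_⟩
    rcases h2 with h | ⟨h, h'⟩ | ⟨h, h'⟩ | ⟨h, h'⟩
    · exact Or.inl (by omega)
    · exact Or.inr (Or.inl ⟨by omega, h'⟩)
    · exact Or.inr (Or.inr (Or.inl ⟨by omega, h'⟩))
    · exact Or.inr (Or.inr (Or.inr ⟨by omega, h'⟩))

open scoped Classical in
theorem kod_geX (n : ℕ) (hn : Algebra.trdeg k L = n)
    (F : Fin n → IntermediateField k L) [hF : ∀ i, IsFF k (F i)]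
    (halg : Algebra.IsAlgebraic ↥(⨆ i, F i) L)
    (G : Subgroup (L ≃ₐ[k] L)) [Finite G] {E0 : Fin n → Type*} [∀ i, Field (E0 i)]
    [∀ i, Algebra k (E0 i)] [∀ i, Algebra (E0 i) (F i)] [∀ i, Algebra (E0 i) (fixedField G)]
    [∀ i, Algebra (E0 i) L] [∀ i, IsScalarTower k (E0 i) (F i)] [∀ i, IsScalarTower k (E0 i) L]
    [∀ i, IsScalarTower k (E0 i) (fixedField G)] [∀ i, IsScalarTower (E0 i) (F i) L]
    [∀ i, IsScalarTower (E0 i) (fixedField G) L] [∀ i, IsFF k (E0 i)]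
    [∀ i, FiniteDimensional (E0 i) (F i)] (ρ : ∀ i, G →* (F i ≃ₐ[k] F i))
    (hcomp : ∀ i (g : G) z, ((ρ i g z : F i) : L) = (g : L ≃ₐ[k] L) (z : L))
    (hfix : ∀ i g (z : E0 i), ρ i g (algebraMap (E0 i) (F i) z) = algebraMap (E0 i) (F i) z)
    (hinv : ∀ i (z : F i), (∀ g, ρ i g z = z) → ∃ z0, algebraMap (E0 i) (F i) z0 = z)
    (B : ∀ i, Place k (E0 i) → Prop) (hBfin : ∀ i, {p | B i p}.Finite)
    (δ : ∀ i, Place k (E0 i) → ℚ) (hfin : ∀ i, {q | δ i q ≠ 0}.Finite)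
    (h01 : ∀ i q, 0 ≤ δ i q ∧ δ i q ≤ 1)
    (hle : ∀ i q, ¬ B i q → ∀ (w : Place k (F i)) (e : ℕ), Over w q e → δ i q ≤ 1 - 1 / (e : ℚ))
    (hadm : ∀ i, Adm (k := k) 1 (F i) (B i) (δ i) ∨
      (ld F B i = 0 ∧ Adm (k := k) 0 (F i) (B i) (δ i)))
    (hrot : ∀ g : G, g ≠ 1 → ∀ ζ : k, IsPrimitiveRoot ζ (orderOf (g : L ≃ₐ[k] L)) →
      ∀ y : Fin n → ℚ, (∀ i, (y i = 0 ∧ ρ i g = 1) ∨
        ∃ (q : Place k (F i)) (p : Place k (E0 i)) (a r : ℕ), 0 < a ∧
          a < orderOf (g : L ≃ₐ[k] L) ∧ (∀ z : F i, q.ord z = 1 →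
            Ge q 2 (ρ i g z - algebraMap k (F i) (ζ ^ a) * z)) ∧ Over q p r ∧ ¬ B i p ∧
          y i = (a / orderOf (g : L ≃ₐ[k] L)) * r * (1 - δ i p)) → (1 : ℚ) ≤ ∑ i, y i)
    (hneg : ∀ i, 0 ≤ ld F B i) :
    KodGe k (fixedField G) n (Bdry B) (Finset.univ.filter fun i => 0 < ld F B i).card := by
  have hUB : ∀ i, (UB F B i).Finite := fun i => UB1_finite (hBfin i)
  set H : Finset (Fin n) := Finset.univ.filter fun i => 0 < ld F B i with hH
  refine lower_abstractX n hn F halg G ρ hcomp B (fun i q => 1 - δ i q)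
    (fun i q => by linarith [(h01 i q).2]) (fun i q hq w e hw => ?_) hrot H fun i => ?_
  · have h1 : (0 : ℚ) < e := by exact_mod_cast hw.1
    have h2 := hle i q hq w e hw
    have h3 : 1 / (e : ℚ) ≤ 1 - δ i q := by linarith
    rw [div_le_iff₀ h1] at h3
    linarith
  by_cases hi : 0 < ld F B i
  · obtain ⟨m, D0, c, c', h1, h2, h3, h4, h5, h6, h7⟩ := exists_two_goodX (ρ i) (hfix i)
      (hinv i) (B i) (hUB i) hi (δ i) (hfin i) (h01 i) (by
        rcases (hadm i).resolve_right fun h => hi.ne' h.1 with ⟨D, o, h1, h2, h3, h4⟩ | h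
        · exact Or.inl ⟨D, o, h1, h2, h4 rfl⟩
        · exact Or.inr h)
    exact ⟨m, D0, c, c', h1, h2, h3, h4, h5, h6, fun _ => h7⟩
  · have h0 : ld F B i = 0 := le_antisymm (not_lt.1 hi) (hneg i)
    have hl : HasLog (F i) (B i) := hasLog_of_nonneg (E := F i) (B0 := B i) (hUB i) h0.ge
    have hw : Adm (k := k) 0 (F i) (B i) (δ i) := by
      rcases hadm i with h | ⟨-, h⟩
      · exact h.weak
      · exact h
    obtain ⟨m, D0, c, h1, h2, h3, h4⟩ := exists_goodX (ρ i) (hfix i) (hinv i) (B i) hl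
      (δ i) (hfin i) (h01 i) (by
        rcases hw with ⟨D, o, h1, h2, h3, -⟩ | h
        · exact Or.inl ⟨D, o, h1, h2, h3⟩
        · exact Or.inr h)
    exact ⟨m, D0, c, c, h1, h2, h3, h3, h4, h4, fun hiH =>
      absurd (Finset.mem_filter.1 hiH).2 hi⟩

end

variable {k : Type v} {L : Type u} [Field k] [Field L] [Algebra k L]

theorem adm_of_pos {Q F : IntermediateField k L} (h : Q ≤ F) {B : Set (Place k Q)}
    {δ : Place k Q → ℚ} [Algebra Q F] (hA : algebraMap Q F = (inclusion h : Q →+* F))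
    (hp : OrbPos h B δ) : Adm (k := k) 1 F (fun q => q ∈ B) δ := by
  have hov : ∀ (w : Place k F) (q : Place k Q) (e : ℕ), Over w q e ↔ LiesOver h w q e := by
    intro w q e
    unfold Over LiesOver
    rw [hA]
    rfl
  rcases hp with ⟨-, ⟨d, ⟨D, o, h1, h2, rfl⟩, h3⟩ | ⟨N, h1, h2⟩⟩
  · exact Or.inl ⟨D, o, h1, h2, h3.le, fun _ => h3⟩
  · refine Or.inr ⟨N, fun q => ⟨(h1 q).1, fun hq w e hw => (h1 q).2 hq w e ((hov w q e).1 hw)⟩, ?_⟩
    rcases h2 with h2 | ⟨h2, h3⟩ | ⟨h2, h3⟩ | h2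
    · exact Or.inl h2
    · exact Or.inr (Or.inl ⟨h2, fun w q hw => h3 w q ((hov w q 3).1 hw)⟩)
    · exact Or.inr (Or.inr (Or.inl ⟨h2, fun w q hw => h3 w q ((hov w q 2).1 hw)⟩))
    · exact Or.inr (Or.inr (Or.inr h2))

theorem adm_of_nonneg {Q F : IntermediateField k L} (h : Q ≤ F) {B : Set (Place k Q)}
    {δ : Place k Q → ℚ} [Algebra Q F] (hA : algebraMap Q F = (inclusion h : Q →+* F))
    (hp : OrbNonneg h B δ) : Adm (k := k) 0 F (fun q => q ∈ B) δ := by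
  have hov : ∀ (w : Place k F) (q : Place k Q) (e : ℕ), Over w q e ↔ LiesOver h w q e := by
    intro w q e
    unfold Over LiesOver
    rw [hA]
    rfl
  rcases hp with ⟨-, ⟨d, ⟨D, o, h1, h2, rfl⟩, h3⟩ | ⟨N, h1, h2⟩⟩
  · exact Or.inl ⟨D, o, h1, h2, h3, fun h => absurd h (by norm_num)⟩
  · refine Or.inr ⟨N, fun q => ⟨(h1 q).1, fun hq w e hw => (h1 q).2 hq w e ((hov w q e).1 hw)⟩, ?_⟩
    rcases h2 with h2 | ⟨h2, h3⟩ | ⟨h2, h3⟩ | h2
    · exact Or.inl h2
    · exact Or.inr (Or.inl ⟨h2, fun w q hw => h3 w q ((hov w q 3).1 hw)⟩)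
    · exact Or.inr (Or.inr (Or.inl ⟨h2, fun w q hw => h3 w q ((hov w q 2).1 hw)⟩))
    · exact Or.inr (Or.inr (Or.inr h2))

/-- Kodaira dimension and numerical dimension of the quotient. -/
theorem kn_xg [CharZero k] [IsAlgClosed k] (n : ℕ) (hn : Algebra.trdeg k L = n)
    (F : Fin n → IntermediateField k L) (hF : ∀ i, IsFF k (F i))
    (halg : Algebra.IsAlgebraic ↥(⨆ i, F i) L)
    (G : Subgroup (L ≃ₐ[k] L)) [Finite G] (hst : ∀ i, ∀ g ∈ G, ∀ z ∈ F i, g z ∈ F i)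
    (B : ∀ i, Set (Place k ↥(F i ⊓ fixedField G))) (hB : ∀ i, (B i).Finite)
    (δ : ∀ i, Place k ↥(F i ⊓ fixedField G) → ℚ)
    (hδ : ∀ i, OrbPos inf_le_left (B i) (δ i) ∨
      (IsFlat inf_le_left (B i) ∧ OrbNonneg inf_le_left (B i) (δ i)) ∨
      IsNegative inf_le_left (B i))
    (hrot : RTCond G F B δ) :
    ((⨆ i, F i = ⊤) → (∃ i, IsNegative inf_le_left (B i)) →
      NumNeg k (fixedField G) n (QBd F G B)) ∧
    ((∀ i, ¬ IsNegative inf_le_left (B i)) →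
      KodGe k (fixedField G) n (QBd F G B) {i | ¬ IsFlat inf_le_left (B i)}.ncard ∧
      ((⨆ i, F i = ⊤) →
        NumLe k (fixedField G) n (QBd F G B) {i | ¬ IsFlat inf_le_left (B i)}.ncard)) := by
  classical
  let E0 : Fin n → Type u := fun i => ↥(F i ⊓ fixedField G)
  let _ : ∀ i, Field (E0 i) := fun i => inferInstanceAs (Field ↥(F i ⊓ fixedField G))
  let _ : ∀ i, Algebra k (E0 i) := fun i => inferInstanceAs (Algebra k ↥(F i ⊓ fixedField G))
  let _ : ∀ i, Algebra (E0 i) (F i) := fun i =>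
    (inclusion (inf_le_left : F i ⊓ fixedField G ≤ F i)).toRingHom.toAlgebra
  let _ : ∀ i, Algebra (E0 i) (fixedField G) := fun i =>
    (inclusion (inf_le_right : F i ⊓ fixedField G ≤ fixedField G)).toRingHom.toAlgebra
  let _ : ∀ i, Algebra (E0 i) L := fun i => inferInstanceAs (Algebra ↥(F i ⊓ fixedField G) L)
  have t1 : ∀ i, IsScalarTower k (E0 i) (F i) := fun i =>
    IsScalarTower.of_algebraMap_eq fun c => rfl
  have t2 : ∀ i, IsScalarTower k (E0 i) L := fun i =>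
    IsScalarTower.of_algebraMap_eq fun c => rfl
  have t3 : ∀ i, IsScalarTower k (E0 i) (fixedField G) := fun i =>
    IsScalarTower.of_algebraMap_eq fun c => rfl
  have t4 : ∀ i, IsScalarTower (E0 i) (F i) L := fun i =>
    IsScalarTower.of_algebraMap_eq fun c => rfl
  have t5 : ∀ i, IsScalarTower (E0 i) (fixedField G) L := fun i =>
    IsScalarTower.of_algebraMap_eq fun c => rfl
  have f1 : ∀ i, FiniteDimensional (E0 i) (F i) := fun i => inf_finite G (F i) (hst i) fun z => rfl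
  have f2 : ∀ i, IsFF k (E0 i) := fun i => isFF_down (E := F i)
  have hBd : QBd F G B = Bdry (E0 := E0) (fun i q => q ∈ B i) := by
    funext v
    apply propext
    constructor
    · rintro ⟨i, p, hp, e, h⟩
      exact ⟨i, p, e, h, hp⟩
    · rintro ⟨i, p, e, h, hp⟩
      exact ⟨i, p, hp, e, h⟩
  rw [hBd]
  have hfinL : FiniteDimensional (fixedField G) L := by
    have hGal : IsGaloisGroup G (fixedField G) L := isGaloisGroup_fixed G
    exact IsGaloisGroup.finiteDimensional G (fixedField G) L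
  have hUB : ∀ i, (UB F (E0 := E0) (fun i q => q ∈ B i) i).Finite := fun i => UB1_finite (hB i)
  -- negative factors
  have hneg : ∀ i, IsNegative inf_le_left (B i) ↔ ld F (E0 := E0) (fun i q => q ∈ B i) i < 0 := by
    intro i
    refine Iff.trans ?_ (neg_iff (E0 := E0 i) (E := F i) (B0 := fun q => q ∈ B i) (hUB i)).symm
    refine and_congr_right fun _ => ⟨fun h w hw w' hw' => ?_, fun h w w' hw hw' => ?_⟩
    · obtain ⟨p, r, h1, h2⟩ := hw
      obtain ⟨p', r', h1', h2'⟩ := hw'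
      exact h w w' ⟨p, h2, r, h1⟩ ⟨p', h2', r', h1'⟩
    · obtain ⟨p, h2, r, h1⟩ := hw
      obtain ⟨p', h2', r', h1'⟩ := hw'
      exact h w ⟨p, r, h1, h2⟩ w' ⟨p', r', h1', h2'⟩
  -- flat factors
  have hflat1 : ∀ i, IsFlat inf_le_left (B i) → ld F (E0 := E0) (fun i q => q ∈ B i) i = 0 := by
    rintro i ⟨D, hD⟩
    refine flat_of_der (E := F i) (UB1_finite (hB i)) (D := D) fun w t ht => ?_
    obtain ⟨a1, a2⟩ := hD w t ht
    refine ⟨a1, fun hw => ?_, fun hw => ?_⟩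
    · obtain ⟨p, r, hp1, hp2⟩ := hw
      rw [a2, if_pos ⟨p, hp2, r, hp1⟩]
    · rw [a2, if_neg]
      rintro ⟨p, hp2, r, hp1⟩
      exact hw ⟨p, r, hp1, hp2⟩
  have hflat2 : ∀ i, ld F (E0 := E0) (fun i q => q ∈ B i) i = 0 → IsFlat inf_le_left (B i) := by
    intro i h0
    have hlog := hasLog_of_nonneg (E := F i) (hUB i) h0.ge
    obtain ⟨D, hD⟩ := der_of_flat (E := F i) (hUB i) hlog h0
    refine ⟨D, fun w t ht => ?_⟩
    obtain ⟨a1, a2, a3⟩ := hD w t ht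
    refine ⟨a1, ?_⟩
    split_ifs with hw
    · obtain ⟨p, hp2, r, hp1⟩ := hw
      exact a2 ⟨p, r, hp1, hp2⟩
    · refine a3 fun h => hw ?_
      obtain ⟨p, r, hp1, hp2⟩ := h
      exact ⟨p, hp2, r, hp1⟩
  constructor
  · rintro hsup ⟨i, hi⟩
    exact num_neg (K := fixedField G) n hn F hsup (fun i q => q ∈ B i) _ (fun v => Iff.rfl) hUB i
      ((hneg i).1 hi)
  · intro hall
    have hall' : ∀ i, 0 ≤ ld F (E0 := E0) (fun i q => q ∈ B i) i := fun i => by
      have := hall i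
      rw [hneg i] at this
      omega
    have hcard : {i | ¬ IsFlat inf_le_left (B i)}.ncard =
        (Finset.univ.filter fun i => 0 < ld F (E0 := E0) (fun i q => q ∈ B i) i).card := by
      rw [← Set.ncard_coe_finset]
      congr 1
      ext i
      simp only [Set.mem_ofPred_eq, Finset.coe_filter, Finset.mem_univ, true_and]
      constructor
      · intro h
        have h1 := hall' i
        have h2 : ld F (E0 := E0) (fun i q => q ∈ B i) i ≠ 0 := fun h' => h (hflat2 i h')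
        omega
      · intro h h'
        have := hflat1 i h'
        omega
    rw [hcard]
    refine ⟨?_, fun hsup => num_le (K := fixedField G) n hn F hsup (fun i q => q ∈ B i) _
      (fun v => Iff.rfl) hUB hall'⟩
    have horb : ∀ i, IsOrb inf_le_left (B i) (δ i) := by
      intro i
      rcases hδ i with h | ⟨-, h⟩ | h
      · exact h.1
      · exact h.1
      · exact absurd h (hall i)
    refine kod_geX n hn F halg G (E0 := E0) (fun i => rho G (F i) (hst i))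
      (fun i g z => rfl) (fun i g z => ?_) (fun i z hz => ?_) (fun i q => q ∈ B i) hB δ
      (fun i => (horb i).1) (fun i q => ⟨((horb i).2 q).1, ((horb i).2 q).2.1⟩)
      (fun i q hq w e hw => ((horb i).2 q).2.2 hq w e hw)
      (fun i => ?_) ?_ hall'
    · apply Subtype.ext
      exact z.2.2 g
    · refine ⟨⟨(z : L), z.2, fun g => ?_⟩, rfl⟩
      exact congrArg (Subtype.val : F i → L) (hz g)
    · rcases hδ i with h | ⟨h1, h2⟩ | h
      · exact Or.inl (adm_of_pos (inf_le_left : F i ⊓ fixedField G ≤ F i) rfl h)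
      · exact Or.inr ⟨hflat1 i h1, adm_of_nonneg (inf_le_left : F i ⊓ fixedField G ≤ F i) rfl h2⟩
      · exact absurd h (hall i)
    · intro g hg ζ hζ y hy
      refine hrot (g : L ≃ₐ[k] L) g.2 (fun h => hg (Subtype.ext h)) ζ hζ y fun i => ?_
      rcases hy i with ⟨h1, h2⟩ | ⟨q, p, a, r, h1, h2, h3, h4, h5, h6⟩
      · left
        refine ⟨h1, fun z hz => ?_⟩
        have h5 := congrArg (fun φ : F i ≃ₐ[k] F i => ((φ ⟨z, hz⟩ : F i) : L)) h2
        exact h5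
      · right
        refine ⟨q, p, a, r, h1, h2, fun z z' hz' hz => ?_, h4, h5, h6⟩
        have h7 : z' = rho G (F i) (hst i) g z := Subtype.ext hz'.symm
        rw [h7, Algebra.smul_def]
        exact (h3 z hz).imp (fun h => sub_eq_zero.1 h) id

/-- Kodaira dimension and numerical dimension of the quotient of a product. -/
theorem kn_x [CharZero k] [IsAlgClosed k] (n : ℕ) (hn : Algebra.trdeg k L = n)
    (F : Fin n → IntermediateField k L) (hF : ∀ i, IsFF k (F i)) (hsup : ⨆ i, F i = ⊤)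
    (G : Subgroup (L ≃ₐ[k] L)) [Finite G] (hst : ∀ i, ∀ g ∈ G, ∀ z ∈ F i, g z ∈ F i)
    (B : ∀ i, Set (Place k ↥(F i ⊓ fixedField G))) (hB : ∀ i, (B i).Finite)
    (δ : ∀ i, Place k ↥(F i ⊓ fixedField G) → ℚ)
    (hδ : ∀ i, OrbPos inf_le_left (B i) (δ i) ∨
      (IsFlat inf_le_left (B i) ∧ OrbNonneg inf_le_left (B i) (δ i)) ∨
      IsNegative inf_le_left (B i))
    (hrot : RTCond G F B δ) :
    ((∃ i, IsNegative inf_le_left (B i)) → NumNeg k (fixedField G) n (QBd F G B)) ∧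
    ((∀ i, ¬ IsNegative inf_le_left (B i)) →
      KodGe k (fixedField G) n (QBd F G B) {i | ¬ IsFlat inf_le_left (B i)}.ncard ∧
      NumLe k (fixedField G) n (QBd F G B) {i | ¬ IsFlat inf_le_left (B i)}.ncard) := by
  obtain ⟨h1, h2⟩ := kn_xg n hn F hF (alg_of_sup F hsup) G hst B hB δ hδ hrot
  exact ⟨h1 hsup, fun h => ⟨(h2 h).1, (h2 h).2 hsup⟩⟩

/-- The case without boundary. -/
theorem kn_xg_compact [CharZero k] [IsAlgClosed k] (n : ℕ) (hn : Algebra.trdeg k L = n)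
    (F : Fin n → IntermediateField k L) (hF : ∀ i, IsFF k (F i))
    (halg : Algebra.IsAlgebraic ↥(⨆ i, F i) L)
    (G : Subgroup (L ≃ₐ[k] L)) [Finite G] (hst : ∀ i, ∀ g ∈ G, ∀ z ∈ F i, g z ∈ F i)
    (δ : ∀ i, Place k ↥(F i ⊓ fixedField G) → ℚ)
    (hδ : ∀ i, OrbPos (inf_le_left : F i ⊓ fixedField G ≤ F i) ∅ (δ i) ∨
      (IsElliptic (F i) ∧ OrbNonneg (inf_le_left : F i ⊓ fixedField G ≤ F i) ∅ (δ i)) ∨
      ∃ t : F i, k⟮t⟯ = ⊤)
    (hrot : RTCond G F (fun _ => ∅) δ) :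
    ((⨆ i, F i = ⊤) → (∃ i, ∃ t : F i, k⟮t⟯ = ⊤) → NumNeg k (fixedField G) n fun _ => False) ∧
    ((∀ i, ¬ ∃ t : F i, k⟮t⟯ = ⊤) →
      KodGe k (fixedField G) n (fun _ => False) {i | ¬ IsElliptic (F i)}.ncard ∧
      ((⨆ i, F i = ⊤) →
        NumLe k (fixedField G) n (fun _ => False) {i | ¬ IsElliptic (F i)}.ncard)) := by
  have h := kn_xg n hn F hF halg G hst (fun _ => ∅) (fun _ => Set.finite_empty) δ
    (fun i => by rw [isFlat_iff, isNegative_iff]; exact hδ i) hrot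
  simp only [isFlat_iff, isNegative_iff, qbd_empty] at h
  exact h

theorem kn_x_compact [CharZero k] [IsAlgClosed k] (n : ℕ) (hn : Algebra.trdeg k L = n)
    (F : Fin n → IntermediateField k L) (hF : ∀ i, IsFF k (F i)) (hsup : ⨆ i, F i = ⊤)
    (G : Subgroup (L ≃ₐ[k] L)) [Finite G] (hst : ∀ i, ∀ g ∈ G, ∀ z ∈ F i, g z ∈ F i)
    (δ : ∀ i, Place k ↥(F i ⊓ fixedField G) → ℚ)
    (hδ : ∀ i, OrbPos (inf_le_left : F i ⊓ fixedField G ≤ F i) ∅ (δ i) ∨
      (IsElliptic (F i) ∧ OrbNonneg (inf_le_left : F i ⊓ fixedField G ≤ F i) ∅ (δ i)) ∨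
      ∃ t : F i, k⟮t⟯ = ⊤)
    (hrot : RTCond G F (fun _ => ∅) δ) :
    ((∃ i, ∃ t : F i, k⟮t⟯ = ⊤) → NumNeg k (fixedField G) n fun _ => False) ∧
    ((∀ i, ¬ ∃ t : F i, k⟮t⟯ = ⊤) →
      KodGe k (fixedField G) n (fun _ => False) {i | ¬ IsElliptic (F i)}.ncard ∧
      NumLe k (fixedField G) n (fun _ => False) {i | ¬ IsElliptic (F i)}.ncard) := by
  have h := kn_x n hn F hF hsup G hst (fun _ => ∅) (fun _ => Set.finite_empty) δ
    (fun i => by rw [isFlat_iff, isNegative_iff]; exact hδ i) hrot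
  simp only [isFlat_iff, isNegative_iff, qbd_empty] at h
  exact h

end Pool.Agent.W619.X
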