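import Pool.Agent.W619.X.KN

/-! Pseudo-effective log canonical divisors on quotients of products of curves are effective:
orbifold divisors. -/

set_option autoImplicit false
set_option linter.overlappingInstances false
set_option linter.unusedSectionVars false

universe u v

open Polynomial FF IntermediateField IsDedekindDomain

namespace Pool.Agent.W619.X

open Pool.Agent.W603.LV Pool.Agent.W619.PQ Pool.Agent.W619.PL Pool.Agent.W619.TW

section

variable {k L : Type*} [Field k] [CharZero k] [IsAlgClosed k] [Field L] [Algebra k L]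

open scoped Classical in
/-- Existence of a logarithmic pluricanonical form. -/
theorem effX (n : ℕ) (hn : Algebra.trdeg k L = n)
    (F : Fin n → IntermediateField k L) [hF : ∀ i, IsFF k (F i)]
    (halg : Algebra.IsAlgebraic ↥(⨆ i, F i) L)
    (G : Subgroup (L ≃ₐ[k] L)) [Finite G] {E0 : Fin n → Type*} [∀ i, Field (E0 i)]
    [∀ i, Algebra k (E0 i)] [∀ i, Algebra (E0 i) (F i)] [∀ i, Algebra (E0 i) (fixedField G)]
    [∀ i, Algebra (E0 i) L] [∀ i, IsScalarTower k (E0 i) (F i)] [∀ i, IsScalarTower k (E0 i) L]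
    [∀ i, IsScalarTower k (E0 i) (fixedField G)] [∀ i, IsScalarTower (E0 i) (F i) L]
    [∀ i, IsScalarTower (E0 i) (fixedField G) L] [∀ i, IsFF k (E0 i)]
    [∀ i, FiniteDimensional (E0 i) (F i)] (ρ : ∀ i, G →* (F i ≃ₐ[k] F i))
    (hcomp : ∀ i (g : G) z, ((ρ i g z : F i) : L) = (g : L ≃ₐ[k] L) (z : L))
    (hfix : ∀ i g (z : E0 i), ρ i g (algebraMap (E0 i) (F i) z) = algebraMap (E0 i) (F i) z)
    (hinv : ∀ i (z : F i), (∀ g, ρ i g z = z) → ∃ z0, algebraMap (E0 i) (F i) z0 = z)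
    (B : ∀ i, Place k (E0 i) → Prop)
    (δ : ∀ i, Place k (E0 i) → ℚ) (hfin : ∀ i, {q | δ i q ≠ 0}.Finite)
    (h01 : ∀ i q, 0 ≤ δ i q ∧ δ i q ≤ 1)
    (hle : ∀ i q, ¬ B i q → ∀ (w : Place k (F i)) (e : ℕ), Over w q e → δ i q ≤ 1 - 1 / (e : ℚ))
    (hadm : ∀ i, Adm (k := k) 0 (F i) (B i) (δ i))
    (hrot : ∀ g : G, g ≠ 1 → ∀ ζ : k, IsPrimitiveRoot ζ (orderOf (g : L ≃ₐ[k] L)) →
      ∀ y : Fin n → ℚ, (∀ i, (y i = 0 ∧ ρ i g = 1) ∨
        ∃ (q : Place k (F i)) (p : Place k (E0 i)) (a r : ℕ), 0 < a ∧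
          a < orderOf (g : L ≃ₐ[k] L) ∧ (∀ z : F i, q.ord z = 1 →
            Ge q 2 (ρ i g z - algebraMap k (F i) (ζ ^ a) * z)) ∧ Over q p r ∧ ¬ B i p ∧
          y i = (a / orderOf (g : L ≃ₐ[k] L)) * r * (1 - δ i p)) → (1 : ℚ) ≤ ∑ i, y i)
    (hlog : ∀ i, (¬ ∃ t : F i, k⟮t⟯ = ⊤) ∨
      ∃ (w1 w2 : Place k (F i)) (q1 q2 : Place k (E0 i)) (e1 e2 : ℕ), w1 ≠ w2 ∧
        Over w1 q1 e1 ∧ Over w2 q2 e2 ∧ B i q1 ∧ B i q2) :
    IsEff k (fixedField G) n (Bdry B) := by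
  have hgood : ∀ i, ∃ (m : ℕ) (D0 : Derivation k (E0 i) (E0 i))
      (c : E0 i), 1 ≤ m ∧ D0 ≠ 0 ∧ c ≠ 0 ∧ GoodX (B i) (fun q => 1 - δ i q) m D0 c := by
    intro i
    have hl : HasLog (F i) (B i) := by
      rcases hlog i with h | ⟨w1, w2, q1, q2, e1, e2, h0, h1, h2, h3, h4⟩
      · exact hasLog_of_nonrational _ h
      · exact hasLog_of_two _ h0 h1 h2 h3 h4
    refine exists_goodX (ρ i) (hfix i) (hinv i) (B i) hl (δ i) (hfin i) (h01 i) ?_
    rcases hadm i with ⟨D, o, h1, h2, h3, -⟩ | h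
    · exact Or.inl ⟨D, o, h1, h2, h3⟩
    · exact Or.inr h
  choose m0 D0 c0 hm0 hD0 hc0 hg0 using hgood
  -- a common weight
  let m : ℕ := ∏ i, m0 i
  let a : Fin n → ℕ := fun i => ∏ j ∈ Finset.univ.erase i, m0 j
  have ham : ∀ i, a i * m0 i = m := fun i => Finset.prod_erase_mul _ _ (Finset.mem_univ i)
  have hm1 : 1 ≤ m := Finset.one_le_prod' fun i _ => hm0 i
  let c : ∀ i, E0 i := fun i => c0 i ^ a i
  have hc : ∀ i, c i ≠ 0 := fun i => pow_ne_zero _ (hc0 i)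
  have hg : ∀ i, GoodX (B i) (fun q => 1 - δ i q) m (D0 i) (c i) := fun i => by
    have := (hg0 i).pow (a i)
    rwa [ham i] at this
  choose x hx using fun i => IsFF.exists_transcendental (k := k) (K := E0 i)
  have hb : IsTranscendenceBasis k fun i => algebraMap (E0 i) (fixedField G) (x i) := by
    apply basis_down (L := L) hn
    have h1 := basis_of_alg F halg hn (fun i => algebraMap (E0 i) (F i) (x i)) fun i =>
      transcendental_map (E := F i) (hx i)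
    convert h1 using 2 with i
    change algebraMap (fixedField G) L (algebraMap (E0 i) (fixedField G) (x i)) =
      algebraMap (F i) L (algebraMap (E0 i) (F i) (x i))
    rw [← IsScalarTower.algebraMap_apply, ← IsScalarTower.algebraMap_apply]
  obtain ⟨D, hD⟩ := extForm_ne m D0 x c hc (fun i => der_ne_zero (hD0 i) (hx i)) hb
  refine ⟨m, hm1, extForm m D0 x c, ⟨extForm_pluri m D0 x c, ?_, ?_⟩, D, hD⟩
  · intro v _ hv D hD
    refine dom_of_reg (regular_of_goodX (G := G) (E0 := E0) (E := fun i => F i)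
      ρ hcomp B (fun i q => 1 - δ i q) (fun i q => by linarith [(h01 i q).2])
      (fun i q hq w e hw => ?_) hrot hD0 hc hg x hx v hv D hD)
    have h1 : (0 : ℚ) < e := by exact_mod_cast hw.1
    have h2 := hle i q hq w e hw
    have h3 : 1 / (e : ℚ) ≤ 1 - δ i q := by linarith
    rw [div_le_iff₀ h1] at h3
    linarith
  · intro v _ _ D hD
    exact dom_of_reg (logregular_of_goodX (G := G) (E0 := E0)
      B (fun i q => 1 - δ i q) hD0 hc hg x hx v D hD)

end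

section

variable {k : Type v} {L : Type u} [Field k] [Field L] [Algebra k L]

theorem nv_xg [CharZero k] [IsAlgClosed k] (n : ℕ) (hn : Algebra.trdeg k L = n)
    (F : Fin n → IntermediateField k L) (hF : ∀ i, IsFF k (F i))
    (halg : Algebra.IsAlgebraic ↥(⨆ i, F i) L)
    (G : Subgroup (L ≃ₐ[k] L)) [Finite G] (hst : ∀ i, ∀ g ∈ G, ∀ z ∈ F i, g z ∈ F i)
    (B : ∀ i, Set (Place k ↥(F i ⊓ fixedField G)))
    (δ : ∀ i, Place k ↥(F i ⊓ fixedField G) → ℚ)
    (hδ : ∀ i, OrbNonneg inf_le_left (B i) (δ i) ∨ IsNegative inf_le_left (B i))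
    (hrot : RTCond G F B δ) :
    ((∀ i, ¬ IsNegative inf_le_left (B i)) → IsEff k (fixedField G) n (QBd F G B)) ∧
    ((⨆ i, F i = ⊤) → (∃ i, IsNegative inf_le_left (B i)) →
      ¬ IsPsef k (fixedField G) n (QBd F G B)) := by
  let E0 : Fin n → Type u := fun i => ↥(F i ⊓ fixedField G)
  let _ : ∀ i, Field (E0 i) := fun i => inferInstanceAs (Field ↥(F i ⊓ fixedField G))
  let _ : ∀ i, Algebra k (E0 i) := fun i => inferInstanceAs (Algebra k ↥(F i ⊓ fixedField G))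
  let _ : ∀ i, Algebra (E0 i) (F i) := fun i =>
    (inclusion (inf_le_left : F i ⊓ fixedField G ≤ F i)).toRingHom.toAlgebra
  let _ : ∀ i, Algebra (E0 i) (fixedField G) := fun i =>
    (inclusion (inf_le_right : F i ⊓ fixedField G ≤ fixedField G)).toRingHom.toAlgebra
  let _ : ∀ i, Algebra (E0 i) L := fun i => inferInstanceAs (Algebra ↥(F i ⊓ fixedField G) L)
  have t1 : ∀ i, IsScalarTower k (E0 i) (F i) := fun i =>
    IsScalarTower.of_algebraMap_eq fun c => rfl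
  have t2 : ∀ i, IsScalarTower k (E0 i) L := fun i =>
    IsScalarTower.of_algebraMap_eq fun c => rfl
  have t3 : ∀ i, IsScalarTower k (E0 i) (fixedField G) := fun i =>
    IsScalarTower.of_algebraMap_eq fun c => rfl
  have t4 : ∀ i, IsScalarTower (E0 i) (F i) L := fun i =>
    IsScalarTower.of_algebraMap_eq fun c => rfl
  have t5 : ∀ i, IsScalarTower (E0 i) (fixedField G) L := fun i =>
    IsScalarTower.of_algebraMap_eq fun c => rfl
  have f1 : ∀ i, FiniteDimensional (E0 i) (F i) := fun i => inf_finite G (F i) (hst i) fun z => rfl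
  have f2 : ∀ i, IsFF k (E0 i) := fun i => isFF_down (E := F i)
  have hBd : QBd F G B = Bdry (E0 := E0) (fun i q => q ∈ B i) := by
    funext v
    apply propext
    constructor
    · rintro ⟨i, p, hp, e, h⟩
      exact ⟨i, p, e, h, hp⟩
    · rintro ⟨i, p, e, h, hp⟩
      exact ⟨i, p, hp, e, h⟩
  rw [hBd]
  have hfinL : FiniteDimensional (fixedField G) L := by
    have hGal : IsGaloisGroup G (fixedField G) L := isGaloisGroup_fixed G
    exact IsGaloisGroup.finiteDimensional G (fixedField G) L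
  constructor
  · intro hnn
    have hδ' : ∀ i, OrbNonneg inf_le_left (B i) (δ i) := fun i => (hδ i).resolve_right (hnn i)
    refine effX n hn F halg G (E0 := E0) (fun i => rho G (F i) (hst i))
      (fun i g z => rfl) (fun i g z => ?_) (fun i z hz => ?_) (fun i q => q ∈ B i) δ
      (fun i => (hδ' i).1.1) (fun i q => ⟨((hδ' i).1.2 q).1, ((hδ' i).1.2 q).2.1⟩)
      (fun i q hq w e hw => ((hδ' i).1.2 q).2.2 hq w e hw)
      (fun i => adm_of_nonneg (inf_le_left : F i ⊓ fixedField G ≤ F i) rfl (hδ' i)) ?_ ?_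
    · apply Subtype.ext
      exact z.2.2 g
    · refine ⟨⟨(z : L), z.2, fun g => ?_⟩, rfl⟩
      exact congrArg (Subtype.val : F i → L) (hz g)
    · intro g hg ζ hζ y hy
      refine hrot (g : L ≃ₐ[k] L) g.2 (fun h => hg (Subtype.ext h)) ζ hζ y fun i => ?_
      rcases hy i with ⟨h1, h2⟩ | ⟨q, p, a, r, h1, h2, h3, h4, h5, h6⟩
      · left
        refine ⟨h1, fun z hz => ?_⟩
        have h5 := congrArg (fun φ : F i ≃ₐ[k] F i => ((φ ⟨z, hz⟩ : F i) : L)) h2
        exact h5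
      · right
        refine ⟨q, p, a, r, h1, h2, fun z z' hz' hz => ?_, h4, h5, h6⟩
        have h7 : z' = rho G (F i) (hst i) g z := Subtype.ext hz'.symm
        rw [h7, Algebra.smul_def]
        exact (h3 z hz).imp (fun h => sub_eq_zero.1 h) id
    · intro i
      by_cases hrat : ∃ t : F i, k⟮t⟯ = ⊤
      · right
        have h1 := hnn i
        unfold IsNegative at h1
        rw [not_and_or] at h1
        have h2 := h1.resolve_left (not_not.2 hrat)
        push Not at h2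
        obtain ⟨w, w', ⟨p, hp, e, h3⟩, ⟨p', hp', e', h3'⟩, hne⟩ := h2
        exact ⟨w, w', p, p', e, e', hne, h3, h3', hp, hp'⟩
      · exact Or.inl hrat
  · rintro hsup ⟨i, ⟨t, ht⟩, hss⟩
    have hss' : {q : Place k (F i) |
        ∃ (p : Place k (E0 i)) (r : ℕ), Over q p r ∧ p ∈ B i}.Subsingleton := by
      rintro q ⟨p, r, h1, h2⟩ q' ⟨p', r', h1', h2'⟩
      exact hss q q' ⟨p, h2, r, h1⟩ ⟨p', h2', r', h1'⟩
    refine not_psef (K := fixedField G) n hn F hsup (fun i q => q ∈ B i) (Bdry _) (fun v => ?_) i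
      hss'.finite ?_
    · exact Iff.rfl
    · rw [canDeg_rational ht]
      have h2 : Set.ncard {q : Place k (F i) |
          ∃ (p : Place k (E0 i)) (r : ℕ), Over q p r ∧ p ∈ B i} ≤ 1 :=
        (Set.ncard_le_one hss'.finite).2 fun a ha b hb => hss' ha hb
      have h3 : (-2 : ℤ) + (Set.ncard {q : Place k (F i) |
          ∃ (p : Place k (E0 i)) (r : ℕ), Over q p r ∧ p ∈ B i} : ℕ) < 0 := by omega
      exact h3

theorem nv_x [CharZero k] [IsAlgClosed k] (n : ℕ) (hn : Algebra.trdeg k L = n)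
    (F : Fin n → IntermediateField k L) (hF : ∀ i, IsFF k (F i)) (hsup : ⨆ i, F i = ⊤)
    (G : Subgroup (L ≃ₐ[k] L)) [Finite G] (hst : ∀ i, ∀ g ∈ G, ∀ z ∈ F i, g z ∈ F i)
    (B : ∀ i, Set (Place k ↥(F i ⊓ fixedField G)))
    (δ : ∀ i, Place k ↥(F i ⊓ fixedField G) → ℚ)
    (hδ : ∀ i, OrbNonneg inf_le_left (B i) (δ i) ∨ IsNegative inf_le_left (B i))
    (hrot : RTCond G F B δ) :
    ((∀ i, ¬ IsNegative inf_le_left (B i)) → IsEff k (fixedField G) n (QBd F G B)) ∧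
    ((∃ i, IsNegative inf_le_left (B i)) → ¬ IsPsef k (fixedField G) n (QBd F G B)) := by
  obtain ⟨h1, h2⟩ := nv_xg n hn F hF (alg_of_sup F hsup) G hst B δ hδ hrot
  exact ⟨h1, h2 hsup⟩

/-- Pseudo-effective, effective, not negative. -/
theorem nv_x_log [CharZero k] [IsAlgClosed k] (n : ℕ) (hn : Algebra.trdeg k L = n)
    (F : Fin n → IntermediateField k L) (hF : ∀ i, IsFF k (F i)) (hsup : ⨆ i, F i = ⊤)
    (G : Subgroup (L ≃ₐ[k] L)) [Finite G] (hst : ∀ i, ∀ g ∈ G, ∀ z ∈ F i, g z ∈ F i)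
    (B : ∀ i, Set (Place k ↥(F i ⊓ fixedField G)))
    (δ : ∀ i, Place k ↥(F i ⊓ fixedField G) → ℚ)
    (hδ : ∀ i, OrbNonneg inf_le_left (B i) (δ i) ∨ IsNegative inf_le_left (B i))
    (hrot : RTCond G F B δ) :
    (IsPsef k (fixedField G) n (QBd F G B) ↔ IsEff k (fixedField G) n (QBd F G B)) ∧
    (IsEff k (fixedField G) n (QBd F G B) ↔ ∀ i, ¬ IsNegative inf_le_left (B i)) := by
  obtain ⟨h2, h1⟩ := nv_x n hn F hF hsup G hst B δ hδ hrot
  have h5 : IsPsef k (fixedField G) n (QBd F G B) → ∀ i, ¬ IsNegative inf_le_left (B i) :=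
    fun hp i hi => h1 ⟨i, hi⟩ hp
  exact ⟨⟨fun hp => h2 (h5 hp), psef_of_eff⟩, ⟨fun he => h5 (psef_of_eff he), h2⟩⟩

/-- A rational factor makes the quotient uniruled. -/
theorem uniruled_of_rational [CharZero k] [IsAlgClosed k] (n : ℕ) (hn : Algebra.trdeg k L = n)
    (F : Fin n → IntermediateField k L) (hF : ∀ i, IsFF k (F i)) (hsup : ⨆ i, F i = ⊤)
    (G : Subgroup (L ≃ₐ[k] L)) (h : ∃ i, ∃ t : F i, k⟮t⟯ = ⊤) :
    IsUniruled k (fixedField G) n := by
  obtain ⟨i0, t, ht⟩ := h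
  obtain ⟨M, h1, h2, h3, h4⟩ := rational_factor F hsup hn i0 t ht
  refine ⟨M, inferInstance, inferInstance, h1, h2, ⟨?_⟩⟩
  let e1 : RatFunc M ≃ₐ[M] M⟮(t : L)⟯ := RatFunc.algEquivOfTranscendental (t : L) h3
  let e2 : M⟮(t : L)⟯ ≃ₐ[M] L := (equivOfEq h4).trans topEquiv
  exact (((e1.trans e2).symm.restrictScalars k : L ≃ₐ[k] RatFunc M) : L →ₐ[k] RatFunc M).comp
    (fixedField G).val

theorem nv_x_compact [CharZero k] [IsAlgClosed k] (n : ℕ) (hn : Algebra.trdeg k L = n)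
    (F : Fin n → IntermediateField k L) (hF : ∀ i, IsFF k (F i)) (hsup : ⨆ i, F i = ⊤)
    (G : Subgroup (L ≃ₐ[k] L)) [Finite G] (hst : ∀ i, ∀ g ∈ G, ∀ z ∈ F i, g z ∈ F i)
    (δ : ∀ i, Place k ↥(F i ⊓ fixedField G) → ℚ)
    (hδ : ∀ i, OrbNonneg (inf_le_left : F i ⊓ fixedField G ≤ F i) ∅ (δ i) ∨
      ∃ t : F i, k⟮t⟯ = ⊤)
    (hrot : RTCond G F (fun _ => ∅) δ) :
    (IsPsef k (fixedField G) n (fun _ => False) ↔ IsEff k (fixedField G) n (fun _ => False)) ∧
    (IsEff k (fixedField G) n (fun _ => False) ↔ ∀ i, ¬ ∃ t : F i, k⟮t⟯ = ⊤) ∧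
    (IsUniruled k (fixedField G) n ∨ IsEff k (fixedField G) n (fun _ => False)) := by
  obtain ⟨h2, h1⟩ := nv_x n hn F hF hsup G hst (fun _ => ∅) δ
    (fun i => by rw [isNegative_iff]; exact hδ i) hrot
  rw [qbd_empty] at h1 h2
  have h3 : (∀ i, ¬ ∃ t : F i, k⟮t⟯ = ⊤) → IsEff k (fixedField G) n (fun _ => False) :=
    fun h => h2 fun i hi => h i ((isNegative_iff _).1 hi)
  have h5 : IsPsef k (fixedField G) n (fun _ => False) → ∀ i, ¬ ∃ t : F i, k⟮t⟯ = ⊤ :=
    fun hp i hi => h1 ⟨i, (isNegative_iff _).2 hi⟩ hp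
  refine ⟨⟨fun hp => h3 (h5 hp), psef_of_eff⟩, ⟨fun he => h5 (psef_of_eff he), h3⟩, ?_⟩
  by_cases hall : ∀ i, ¬ ∃ t : F i, k⟮t⟯ = ⊤
  · exact Or.inr (h3 hall)
  · push Not at hall
    exact Or.inl (uniruled_of_rational n hn F hF hsup G hall)

end

end Pool.Agent.W619.X
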