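import Pool.Agent.W619.X.KN
import Pool.Agent.W619.X.NV
import Pool.Agent.W619.PL.LStm
import Pool.Agent.W619.TW.MinMod
import Pool.Agent.W619.TW.GTCompact
import Pool.Agent.W619.TW.CP

/-! Final forms of the theorems on quotients of products of curves. -/

set_option autoImplicit false
set_option linter.overlappingInstances false
set_option linter.unusedSectionVars false

universe u v

open Polynomial FF IntermediateField Pool.Agent.W619.PQ Pool.Agent.W619.PL Pool.Agent.W619.TW

namespace Pool.Agent.W619.X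

section

variable {k : Type*} {L : Type u} [Field k] [CharZero k] [IsAlgClosed k] [Field L] [Algebra k L]

theorem a1_abstract (n : ℕ) (hn : Algebra.trdeg k L = n)
    (F : Fin n → IntermediateField k L) [hF : ∀ i, IsFF k (F i)] (hsup : ⨆ i, F i = ⊤)
    (G : Subgroup (L ≃ₐ[k] L)) [Finite G] {E0 : Fin n → Type*} [∀ i, Field (E0 i)]
    [∀ i, Algebra k (E0 i)] [∀ i, Algebra (E0 i) (F i)] [∀ i, Algebra (E0 i) (fixedField G)]
    [∀ i, Algebra (E0 i) L] [∀ i, IsScalarTower k (E0 i) (F i)] [∀ i, IsScalarTower k (E0 i) L]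
    [∀ i, IsScalarTower k (E0 i) (fixedField G)] [∀ i, IsScalarTower (E0 i) (F i) L]
    [∀ i, IsScalarTower (E0 i) (fixedField G) L] [∀ i, IsFF k (E0 i)]
    [∀ i, FiniteDimensional (E0 i) (F i)] 
    (B : ∀ i, Place k (E0 i) → Prop) (i0 : Fin n) (t0 : F i0) (ht0 : k⟮t0⟯ = ⊤)
    (huniq : ∀ (w1 w2 : Place k (F i0)) (q1 q2 : Place k (E0 i0)) (e1 e2 : ℕ), w1 ≠ w2 →
        Over w1 q1 e1 → Over w2 q2 e2 → B i0 q1 → ¬ B i0 q2) :
    IsA1Uniruled k (fixedField G) n (Bdry B) := by
  -- a generator with poles at the boundary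
  obtain ⟨t, ht, htB⟩ : ∃ t : F i0, k⟮t⟯ = ⊤ ∧ ∀ (w : Place k (F i0))
      (q : Place k (E0 i0)) (e : ℕ), Over w q e → B i0 q → w.ord t < 0 := by
    by_cases hex : ∃ (w : Place k (F i0)) (q : Place k (E0 i0)) (e : ℕ),
        Over w q e ∧ B i0 q
    · obtain ⟨w, q, e, h1, h2⟩ := hex
      obtain ⟨t, ht, htw⟩ := exists_generator_pole ht0 w
      refine ⟨t, ht, fun w' q' e' h1' h2' => ?_⟩
      by_cases hww : w = w'
      · rw [← hww]; exact htw
      · exact absurd h2' (huniq w w' q q' e e' hww h1 h1' h2)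
    · push Not at hex
      exact ⟨t0, ht0, fun w q e h1 h2 => absurd h2 (hex w q e h1)⟩
  obtain ⟨M, h1, h2, h3, h4, h5⟩ := rational_factor' F hsup hn i0 t ht
  let e1 : RatFunc M ≃ₐ[M] M⟮(t : L)⟯ := RatFunc.algEquivOfTranscendental (t : L) h3
  let e2 : M⟮(t : L)⟯ ≃ₐ[M] L := (equivOfEq h4).trans topEquiv
  let e3 : RatFunc M ≃ₐ[M] L := e1.trans e2
  have he3 : e3 RatFunc.X = (t : L) := by
    change e2 (e1 RatFunc.X) = (t : L)
    have : e1 RatFunc.X = AdjoinSimple.gen M (t : L) := by
      rw [← RatFunc.algebraMap_X]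
      change RatFunc.algEquivOfTranscendental (t : L) h3 (algebraMap M[X] (RatFunc M) X) = _
      rw [RatFunc.algEquivOfTranscendental_algebraMap]
      apply Subtype.ext
      simp
    rw [this]
    rfl
  refine ⟨M, inferInstance, inferInstance,
    ((e3.symm.restrictScalars k : L ≃ₐ[k] RatFunc M) : L →ₐ[k] RatFunc M).comp
      (fixedField G).val, h1, h2, ?_⟩
  rintro w hw v e he hwv ⟨i, p, e', hvp, hpB⟩
  -- the place of `L`
  let wL : Place k L :=
    { ord := fun z => w.ord (e3.symm z)
      ord_zero := by rw [map_zero, w.ord_zero]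
      ord_mul := fun {f g} hf hg => by
        rw [map_mul, w.ord_mul (by simpa using hf) (by simpa using hg)]
      ord_add := fun {f g} hf hg hfg => by
        rw [map_add]
        exact w.ord_add (by simpa using hf) (by simpa using hg)
          (by rw [← map_add]; exact (map_ne_zero_iff _ e3.symm.injective).2 hfg)
      ord_const := fun {c} hc => by
        have : e3.symm (algebraMap k L c) = algebraMap M (RatFunc M) (algebraMap k M c) := by
          rw [IsScalarTower.algebraMap_apply k M L, AlgEquiv.commutes]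
        rw [this]
        exact w.ord_const (by simpa using hc)
      surj := by
        obtain ⟨s, hs0, hs⟩ := w.surj
        exact ⟨e3 s, by simpa using hs0, by rw [AlgEquiv.symm_apply_apply]; exact hs⟩ }
  have hwLK : ∀ f : fixedField G, wL.ord (f : L) = e * v.ord f := fun f => hwv f
  have hover : Over wL p (e * e') := by
    refine ⟨Nat.mul_pos he hvp.1, fun f => ?_⟩
    rw [IsScalarTower.algebraMap_apply (E0 i) (fixedField G) L]
    have h6 := hwLK (algebraMap (E0 i) (fixedField G) f)
    rw [hvp.2] at h6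
    push_cast
    rw [mul_assoc]
    exact h6
  obtain ⟨s, hs0, hs⟩ := p.surj
  have hs1 : wL.ord (algebraMap (F i) L (algebraMap (E0 i) (F i) s)) ≠ 0 := by
    rw [← IsScalarTower.algebraMap_apply, hover.2, hs, mul_one]
    have : 0 < e * e' := hover.1
    exact_mod_cast this.ne'
  by_cases hi : i = i0
  · subst hi
    obtain ⟨b, q, hq⟩ := exists_over (K := F i) wL ⟨algebraMap (E0 i) (F i) s, hs1⟩
    have hq2 : q.ord (algebraMap (E0 i) (F i) s) ≠ 0 := by
      intro h
      apply hs1
      have := hq.2 (algebraMap (E0 i) (F i) s)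
      rw [h, mul_zero] at this
      exact this
    obtain ⟨r, p', hp'⟩ := exists_over (K := E0 i) q ⟨s, hq2⟩
    obtain ⟨rfl, -⟩ := over_unique' hover (over_trans hq hp')
    have h7 := htB q p r hp' hpB
    have h8 := hq.2 t
    have h9 : wL.ord (t : L) < 0 := by
      change wL.ord (algebraMap (F i) L t) < 0
      rw [h8]
      have : (0 : ℤ) < b := by exact_mod_cast hq.1
      exact mul_neg_of_pos_of_neg this h7
    have h10 : wL.ord (t : L) = w.ord RatFunc.X := by
      change w.ord (e3.symm (t : L)) = _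
      rw [← he3, AlgEquiv.symm_apply_apply]
    rcases hw with h | h
    · exact RatFunc.X_ne_zero h
    · omega
  · apply hs1
    set s' : F i := algebraMap (E0 i) (F i) s with hs'
    have hs'0 : s' ≠ 0 := by rw [hs']; simpa using hs0
    have hsM : (s' : L) ∈ M := h5 i hi s'.2
    change w.ord (e3.symm (s' : L)) = 0
    have : e3.symm (s' : L) = algebraMap M (RatFunc M) ⟨_, hsM⟩ := by
      have := e3.symm.commutes (⟨_, hsM⟩ : M)
      exact this
    rw [this]
    exact w.ord_const (fun h => hs'0 (by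
      have h' := congrArg Subtype.val h
      exact Subtype.ext h'))

end

end Pool.Agent.W619.X
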