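import Pool.Agent.W619.TW.Arith
import Pool.Agent.W619.PQ.Rat

/-! The arithmetic of signatures without 2 or without 3. -/

set_option autoImplicit false

namespace Pool.Agent.W619.X

open Pool.Agent.W619.TW

theorem frac_le (s r N : ℕ) (hs : 1 ≤ s) (hr : s ≤ r) (hN : s ≤ N) :
    1 - 1 / (s : ℚ) ≤ 1 - 1 / ((min r N : ℕ) : ℚ) := by
  have h1 : (1 : ℚ) ≤ s := by exact_mod_cast hs
  have h2 : (s : ℚ) ≤ ((min r N : ℕ) : ℚ) := by exact_mod_cast le_min hr hN
  have h3 : 1 / ((min r N : ℕ) : ℚ) ≤ 1 / s := one_div_le_one_div_of_le (by linarith) h2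
  linarith

/-- The number of ramified points is at least three. -/
theorem card_ge {ι : Type*} (S : Finset ι) (r : ι → ℕ) (hr : ∀ i ∈ S, 2 ≤ r i)
    (h : (2 : ℚ) ≤ ∑ i ∈ S, (1 - 1 / (r i : ℚ))) : 3 ≤ S.card := by
  by_contra hc
  have hlt : ∀ i ∈ S, 1 - 1 / (r i : ℚ) < 1 := fun i hi => lt_one (r i) (by have := hr i hi; omega)
  have hne : S.Nonempty := by
    rw [Finset.nonempty_iff_ne_empty]
    rintro rfl
    rw [Finset.sum_empty] at h
    norm_num at h
  have h3 := Finset.sum_lt_sum_of_nonempty hne hlt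
  rw [Finset.sum_const, nsmul_eq_mul, mul_one] at h3
  have h4 : (S.card : ℚ) ≤ 2 := by exact_mod_cast (by omega : S.card ≤ 2)
  linarith

theorem sum_three {ι : Type*} [DecidableEq ι] {a b c : ι} (hab : a ≠ b) (hac : a ≠ c)
    (hbc : b ≠ c) (f : ι → ℚ) :
    ∑ i ∈ ({a, b, c} : Finset ι), f i = f a + f b + f c := by
  rw [Finset.sum_insert (by simp [hab, hac]), Finset.sum_insert (by simp [hbc]),
    Finset.sum_singleton]
  ring

/-- No ramification index two: truncation at three. -/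
theorem no_two {ι : Type*} [DecidableEq ι] (S : Finset ι) (r : ι → ℕ) (N : ℕ) (hN : 3 ≤ N)
    (hr : ∀ i ∈ S, 2 ≤ r i) (h2 : ∀ i ∈ S, r i ≠ 2)
    (h : (2 : ℚ) ≤ ∑ i ∈ S, (1 - 1 / (r i : ℚ))) :
    (2 : ℚ) ≤ ∑ i ∈ S, (1 - 1 / ((min (r i) N : ℕ) : ℚ)) := by
  have hc := card_ge S r hr h
  have h1 := Finset.card_nsmul_le_sum S (fun i => 1 - 1 / ((min (r i) N : ℕ) : ℚ))
    (2 / 3 : ℚ) fun j hj => twothird_le (r j) N (by have := hr j hj; have := h2 j hj; omega) hN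
  rw [nsmul_eq_mul] at h1
  have h3 : (3 : ℚ) ≤ S.card := by exact_mod_cast hc
  linarith

/-- No ramification index two: truncation at four. -/
theorem no_two_strict {ι : Type*} [DecidableEq ι] (S : Finset ι) (r : ι → ℕ) (N : ℕ) (hN : 4 ≤ N)
    (hr : ∀ i ∈ S, 2 ≤ r i) (h2 : ∀ i ∈ S, r i ≠ 2)
    (h : (2 : ℚ) < ∑ i ∈ S, (1 - 1 / (r i : ℚ))) :
    (2 : ℚ) < ∑ i ∈ S, (1 - 1 / ((min (r i) N : ℕ) : ℚ)) := by
  have hc := card_ge S r hr h.le
  rcases Nat.lt_or_ge 3 S.card with hc4 | hc4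
  · have h1 := Finset.card_nsmul_le_sum S (fun i => 1 - 1 / ((min (r i) N : ℕ) : ℚ))
      (2 / 3 : ℚ) fun j hj => twothird_le (r j) N (by have := hr j hj; have := h2 j hj; omega)
        (by omega)
    rw [nsmul_eq_mul] at h1
    have h3 : (4 : ℚ) ≤ S.card := by exact_mod_cast hc4
    linarith
  obtain ⟨a, b, c, hab, hac, hbc, rfl⟩ := Finset.card_eq_three.1 (by omega : S.card = 3)
  rw [sum_three hab hac hbc] at h ⊢
  have ha := hr a (by simp)
  have hb := hr b (by simp)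
  have hc := hr c (by simp)
  have ha2 := h2 a (by simp)
  have hb2 := h2 b (by simp)
  have hc2 := h2 c (by simp)
  generalize r a = A at *
  generalize r b = B at *
  generalize r c = C at *
  have h1 := twothird_le A N (by omega) (by omega)
  have h3 := twothird_le B N (by omega) (by omega)
  have h4 := twothird_le C N (by omega) (by omega)
  rcases Nat.lt_or_ge 3 A with hA | hA
  · have := frac_le 4 A N (by norm_num) hA hN
    norm_num at this h1 h3 h4 ⊢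
    linarith
  rcases Nat.lt_or_ge 3 B with hB | hB
  · have := frac_le 4 B N (by norm_num) hB hN
    norm_num at this h1 h3 h4 ⊢
    linarith
  rcases Nat.lt_or_ge 3 C with hC | hC
  · have := frac_le 4 C N (by norm_num) hC hN
    norm_num at this h1 h3 h4 ⊢
    linarith
  exfalso
  have e1 : A = 3 := by omega
  have e2 : B = 3 := by omega
  have e3 : C = 3 := by omega
  subst e1 e2 e3
  norm_num at h

/-- In a triangle signature without 3 there is at most one 2, so the others are at least 4. -/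
theorem no_three_aux (A B C N : ℕ) (hA : 2 ≤ A) (hB : 2 ≤ B) (hC : 2 ≤ C) (hA3 : A ≠ 3)
    (hB3 : B ≠ 3) (hC3 : C ≠ 3) (hN : 4 ≤ N)
    (h : (2 : ℚ) ≤ (1 - 1 / (A : ℚ)) + (1 - 1 / (B : ℚ)) + (1 - 1 / (C : ℚ))) :
    (2 : ℚ) ≤ (1 - 1 / ((min A N : ℕ) : ℚ)) + (1 - 1 / ((min B N : ℕ) : ℚ)) +
      (1 - 1 / ((min C N : ℕ) : ℚ)) ∧
    (5 ≤ N → (2 : ℚ) < (1 - 1 / (A : ℚ)) + (1 - 1 / (B : ℚ)) + (1 - 1 / (C : ℚ)) →
    (2 : ℚ) < (1 - 1 / ((min A N : ℕ) : ℚ)) + (1 - 1 / ((min B N : ℕ) : ℚ)) +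
      (1 - 1 / ((min C N : ℕ) : ℚ))) := by
  have two : ∀ X Y Z : ℕ, 2 ≤ Z → X = 2 → Y = 2 →
      (2 : ℚ) ≤ (1 - 1 / (X : ℚ)) + (1 - 1 / (Y : ℚ)) + (1 - 1 / (Z : ℚ)) → False := by
    intro X Y Z hZ hX hY h
    subst hX hY
    have h7 := lt_one Z (by omega)
    have h8 : (1 : ℚ) - 1 / ((2 : ℕ) : ℚ) = 1 / 2 := by norm_num
    rw [h8] at h
    linarith
  -- the case where one of them is two
  have one : ∀ X Y Z : ℕ, X = 2 → 4 ≤ Y → 4 ≤ Z →
      (2 : ℚ) ≤ (1 - 1 / ((min X N : ℕ) : ℚ)) + (1 - 1 / ((min Y N : ℕ) : ℚ)) +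
        (1 - 1 / ((min Z N : ℕ) : ℚ)) ∧
      (5 ≤ N → (2 : ℚ) < (1 - 1 / (X : ℚ)) + (1 - 1 / (Y : ℚ)) + (1 - 1 / (Z : ℚ)) →
      (2 : ℚ) < (1 - 1 / ((min X N : ℕ) : ℚ)) + (1 - 1 / ((min Y N : ℕ) : ℚ)) +
        (1 - 1 / ((min Z N : ℕ) : ℚ))) := by
    intro X Y Z hX hY hZ
    have h1 := half_le X N (by omega) (by omega)
    have h2 := frac_le 4 Y N (by norm_num) hY hN
    have h3 := frac_le 4 Z N (by norm_num) hZ hN
    norm_num at h1 h2 h3 ⊢
    refine ⟨by linarith, fun hN5 hlt => ?_⟩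
    rcases Nat.lt_or_ge 4 Y with hY5 | hY5
    · have h4 := frac_le 5 Y N (by norm_num) hY5 hN5
      norm_num at h4
      linarith
    rcases Nat.lt_or_ge 4 Z with hZ5 | hZ5
    · have h4 := frac_le 5 Z N (by norm_num) hZ5 hN5
      norm_num at h4
      linarith
    exfalso
    have e1 : Y = 4 := by omega
    have e2 : Z = 4 := by omega
    subst hX e1 e2
    norm_num at hlt
  by_cases a : A = 2
  · by_cases b : B = 2
    · exact (two A B C hC a b h).elim
    by_cases c : C = 2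
    · exact (two A C B hB a c (by linarith)).elim
    exact one A B C a (by omega) (by omega)
  by_cases b : B = 2
  · by_cases c : C = 2
    · exact (two B C A hA b c (by linarith)).elim
    have := one B A C b (by omega) (by omega)
    refine ⟨by linarith [this.1], fun h5 h6 => ?_⟩
    have := this.2 h5 (by linarith)
    linarith
  by_cases c : C = 2
  · have := one C A B c (by omega) (by omega)
    refine ⟨by linarith [this.1], fun h5 h6 => ?_⟩
    have := this.2 h5 (by linarith)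
    linarith
  have h1 := frac_le 4 A N (by norm_num) (by omega) hN
  have h2 := frac_le 4 B N (by norm_num) (by omega) hN
  have h3 := frac_le 4 C N (by norm_num) (by omega) hN
  norm_num at h1 h2 h3 ⊢
  exact ⟨by linarith, fun _ _ => by linarith⟩

/-- No ramification index three: truncation at four. -/
theorem no_three {ι : Type*} [DecidableEq ι] (S : Finset ι) (r : ι → ℕ) (N : ℕ) (hN : 4 ≤ N)
    (hr : ∀ i ∈ S, 2 ≤ r i) (h3 : ∀ i ∈ S, r i ≠ 3)
    (h : (2 : ℚ) ≤ ∑ i ∈ S, (1 - 1 / (r i : ℚ))) :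
    (2 : ℚ) ≤ ∑ i ∈ S, (1 - 1 / ((min (r i) N : ℕ) : ℚ)) := by
  have hc := card_ge S r hr h
  rcases Nat.lt_or_ge 3 S.card with hc4 | hc4
  · have h1 := Finset.card_nsmul_le_sum S (fun i => 1 - 1 / ((min (r i) N : ℕ) : ℚ))
      (1 / 2 : ℚ) fun j hj => half_le (r j) N (hr j hj) (by omega)
    rw [nsmul_eq_mul] at h1
    have h3 : (4 : ℚ) ≤ S.card := by exact_mod_cast hc4
    linarith
  obtain ⟨a, b, c, hab, hac, hbc, rfl⟩ := Finset.card_eq_three.1 (by omega : S.card = 3)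
  rw [sum_three hab hac hbc] at h ⊢
  exact (no_three_aux (r a) (r b) (r c) N (hr a (by simp)) (hr b (by simp)) (hr c (by simp))
    (h3 a (by simp)) (h3 b (by simp)) (h3 c (by simp)) hN h).1

/-- No ramification index three: truncation at five. -/
theorem no_three_strict {ι : Type*} [DecidableEq ι] (S : Finset ι) (r : ι → ℕ) (N : ℕ)
    (hN : 5 ≤ N) (hr : ∀ i ∈ S, 2 ≤ r i) (h3 : ∀ i ∈ S, r i ≠ 3)
    (h : (2 : ℚ) < ∑ i ∈ S, (1 - 1 / (r i : ℚ))) :
    (2 : ℚ) < ∑ i ∈ S, (1 - 1 / ((min (r i) N : ℕ) : ℚ)) := by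
  have hc := card_ge S r hr h.le
  rcases Nat.lt_or_ge 3 S.card with hc4 | hc4
  · rcases Nat.lt_or_ge 4 S.card with hc5 | hc5
    · have h1 := Finset.card_nsmul_le_sum S (fun i => 1 - 1 / ((min (r i) N : ℕ) : ℚ))
        (1 / 2 : ℚ) fun j hj => half_le (r j) N (hr j hj) (by omega)
      rw [nsmul_eq_mul] at h1
      have h3 : (5 : ℚ) ≤ S.card := by exact_mod_cast hc5
      linarith
    · have h1 := trunc_lower S r N (by omega) hr (by
        have : (S.card : ℚ) ≤ 4 := by exact_mod_cast hc5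
        linarith)
      have h3 : (4 : ℚ) ≤ S.card := by exact_mod_cast hc4
      linarith
  obtain ⟨a, b, c, hab, hac, hbc, rfl⟩ := Finset.card_eq_three.1 (by omega : S.card = 3)
  rw [sum_three hab hac hbc] at h ⊢
  exact (no_three_aux (r a) (r b) (r c) N (hr a (by simp)) (hr b (by simp)) (hr c (by simp))
    (h3 a (by simp)) (h3 b (by simp)) (h3 c (by simp)) (by omega) h.le).2 hN h

theorem six_trunc {ι : Type*} [DecidableEq ι] (S : Finset ι) (r : ι → ℕ) (N : ℕ) (hN : 6 ≤ N)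
    (hr : ∀ i ∈ S, 2 ≤ r i) (h : (2 : ℚ) ≤ ∑ i ∈ S, (1 - 1 / (r i : ℚ))) :
    (2 : ℚ) ≤ ∑ i ∈ S, (1 - 1 / ((min (r i) N : ℕ) : ℚ)) := by
  refine (Pool.Agent.W619.PQ.six S r hr h).trans (Finset.sum_le_sum fun i hi => ?_)
  have h2 : 2 ≤ min (r i) 6 := le_min (hr i hi) (by norm_num)
  have h1 : (0 : ℚ) < ((min (r i) 6 : ℕ) : ℚ) := by exact_mod_cast (by omega : 0 < min (r i) 6)
  have h3 : ((min (r i) 6 : ℕ) : ℚ) ≤ ((min (r i) N : ℕ) : ℚ) := by
    exact_mod_cast min_le_min le_rfl hN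
  have := one_div_le_one_div_of_le h1 h3
  linarith

end Pool.Agent.W619.X
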