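import Pool.Agent.W619.X.NV
import Pool.Agent.W619.TW.PMain

/-! Pairs on quotients of products of curves: orbifold divisors. -/

set_option autoImplicit false
set_option linter.overlappingInstances false
set_option linter.unusedSectionVars false

universe u v

open Polynomial FF IntermediateField IsDedekindDomain

namespace Pool.Agent.W619.X

open Pool.Agent.W603.LV Pool.Agent.W619.PQ Pool.Agent.W619.PL Pool.Agent.W619.TW

section

variable {k L : Type*} [Field k] [CharZero k] [IsAlgClosed k] [Field L] [Algebra k L]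

open scoped Classical in
theorem pair_lowerX (n : ℕ) (hn : Algebra.trdeg k L = n)
    (F : Fin n → IntermediateField k L) [hF : ∀ i, IsFF k (F i)]
    (halg : Algebra.IsAlgebraic ↥(⨆ i, F i) L)
    (G : Subgroup (L ≃ₐ[k] L)) [Finite G] {E0 : Fin n → Type*} [∀ i, Field (E0 i)]
    [∀ i, Algebra k (E0 i)] [∀ i, Algebra (E0 i) (F i)] [∀ i, Algebra (E0 i) (fixedField G)]
    [∀ i, Algebra (E0 i) L] [∀ i, IsScalarTower k (E0 i) (F i)] [∀ i, IsScalarTower k (E0 i) L]
    [∀ i, IsScalarTower k (E0 i) (fixedField G)] [∀ i, IsScalarTower (E0 i) (F i) L]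
    [∀ i, IsScalarTower (E0 i) (fixedField G) L] [∀ i, IsFF k (E0 i)]
    [∀ i, FiniteDimensional (E0 i) (F i)] (ρ : ∀ i, G →* (F i ≃ₐ[k] F i))
    (hcomp : ∀ i (g : G) z, ((ρ i g z : F i) : L) = (g : L ≃ₐ[k] L) (z : L))
    (X : ∀ i, Place k (E0 i) → ℚ)
    (hX0 : ∀ i q, 0 ≤ X i q)
    (hXe : ∀ i q, ∀ (w : Place k (F i)) (e : ℕ), Over w q e → 1 ≤ e * X i q)
    (hrot : ∀ g : G, g ≠ 1 → ∀ ζ : k, IsPrimitiveRoot ζ (orderOf (g : L ≃ₐ[k] L)) →
      ∀ y : Fin n → ℚ, (∀ i, (y i = 0 ∧ ρ i g = 1) ∨
        ∃ (q : Place k (F i)) (p : Place k (E0 i)) (a r : ℕ), 0 < a ∧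
          a < orderOf (g : L ≃ₐ[k] L) ∧ (∀ z : F i, q.ord z = 1 →
            Ge q 2 (ρ i g z - algebraMap k (F i) (ζ ^ a) * z)) ∧ Over q p r ∧ ¬ False ∧
          y i = (a / orderOf (g : L ≃ₐ[k] L)) * r * X i p) → (1 : ℚ) ≤ ∑ i, y i)
    (H : Finset (Fin n)) (δ : Place k (fixedField G) → ℚ) (hδ0 : ∀ v, 0 ≤ δ v)
    (β : ∀ i, Place k (E0 i) → ℚ)
    (hβ : ∀ i (v : Place k (fixedField G)) (p : Place k (E0 i)) (α : ℕ), Over v p α →
      n * (α * β i p) ≤ δ v)
    (hdata : ∀ i, ∃ (m : ℕ) (D0 : Derivation k (E0 i) (E0 i)) (c c' u : E0 i), 1 ≤ m ∧ D0 ≠ 0 ∧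
      c ≠ 0 ∧ c' ≠ 0 ∧ u ≠ 0 ∧ GoodX (fun _ => False) (X i) m D0 c ∧
      GoodX (fun _ => False) (X i) m D0 c' ∧ (∀ p, -(m * β i p) ≤ p.ord u) ∧
      (i ∈ H → Transcendental k (c' * u / c))) :
    PairKodGe k (fixedField G) n δ H.card := by
  choose m0 D0 c0 c0' u0 hm0 hD0 hc0 hc0' hu0 hg0 hg0' hβu0 htr0 using hdata
  -- a common weight
  let m : ℕ := ∏ i, m0 i
  let a : Fin n → ℕ := fun i => ∏ j ∈ Finset.univ.erase i, m0 j
  have ham : ∀ i, a i * m0 i = m := fun i => Finset.prod_erase_mul _ _ (Finset.mem_univ i)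
  have ha1 : ∀ i, 1 ≤ a i := fun i => Finset.one_le_prod' fun j _ => hm0 j
  have hm1 : 1 ≤ m := Finset.one_le_prod' fun i _ => hm0 i
  let c : ∀ i, E0 i := fun i => c0 i ^ a i
  let c' : ∀ i, E0 i := fun i => c0' i ^ a i
  let u : ∀ i, E0 i := fun i => u0 i ^ a i
  have hc : ∀ i, c i ≠ 0 := fun i => pow_ne_zero _ (hc0 i)
  have hc' : ∀ i, c' i ≠ 0 := fun i => pow_ne_zero _ (hc0' i)
  have hu : ∀ i, u i ≠ 0 := fun i => pow_ne_zero _ (hu0 i)
  have hg : ∀ i, GoodX (fun _ => False) (X i) m (D0 i) (c i) := fun i => by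
    have := (hg0 i).pow (a i)
    rwa [ham i] at this
  have hg' : ∀ i, GoodX (fun _ => False) (X i) m (D0 i) (c' i) := fun i => by
    have := (hg0' i).pow (a i)
    rwa [ham i] at this
  have hβu : ∀ i p, -(m * β i p) ≤ p.ord (u i) := by
    intro i p
    change -((m : ℚ) * β i p) ≤ ((p.ord (u0 i ^ a i) : ℤ) : ℚ)
    rw [p.ord_pow, ← ham i]
    push_cast
    have h1 := mul_le_mul_of_nonneg_left (hβu0 i p) (by positivity : (0 : ℚ) ≤ a i)
    linarith
  have htr : ∀ i ∈ H, Transcendental k (c' i * u i / c i) := by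
    intro i hi
    have h1 : c' i * u i / c i = (c0' i * u0 i / c0 i) ^ a i := by
      simp only [c, c', u]
      rw [div_pow, mul_pow]
    rw [h1]
    intro halg
    exact htr0 i hi (halg.of_pow (ha1 i))
  choose x hx using fun i => IsFF.exists_transcendental (k := k) (K := E0 i)
  have hbasis : ∀ y : ∀ i, E0 i, (∀ i, Transcendental k (y i)) →
      IsTranscendenceBasis k fun i => algebraMap (E0 i) (fixedField G) (y i) := by
    intro y hy
    apply basis_down (L := L) hn
    have h1 := basis_of_alg F halg hn (fun i => algebraMap (E0 i) (F i) (y i)) fun i =>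
      transcendental_map (E := F i) (hy i)
    convert h1 using 2 with i
    change algebraMap (fixedField G) L (algebraMap (E0 i) (fixedField G) (y i)) =
      algebraMap (F i) L (algebraMap (E0 i) (F i) (y i))
    rw [← IsScalarTower.algebraMap_apply, ← IsScalarTower.algebraMap_apply]
  -- the functions
  let f : ∀ i, E0 i := fun i => if i ∈ H then c' i * u i / c i else x i
  have hf : ∀ i, Transcendental k (f i) := by
    intro i
    by_cases hi : i ∈ H
    · simp only [f, if_pos hi]; exact htr i hi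
    · simp only [f, if_neg hi]; exact hx i
  refine ⟨m, hm1, fun j hj => ?_⟩
  obtain ⟨D, hD⟩ := extForm_ne (j * m) D0 x (fun i => c i ^ j) (fun i => pow_ne_zero _ (hc i))
    (fun i => der_ne_zero (hD0 i) (hx i)) (hbasis x hx)
  let cr : (H → Fin j) → ∀ i, E0 i := fun r i =>
    c i ^ (j - expo H r i) * c' i ^ expo H r i
  let ur : (H → Fin j) → ∀ i, E0 i := fun r i => u i ^ expo H r i
  have hcr0 : ∀ r i, cr r i ≠ 0 := fun r i => mul_ne_zero (pow_ne_zero _ (hc i))
    (pow_ne_zero _ (hc' i))
  have hur0 : ∀ r i, ur r i ≠ 0 := fun r i => pow_ne_zero _ (hu i)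
  have hgr : ∀ r i, GoodX (fun _ => False) (X i) (j * m) (D0 i) (cr r i) := by
    intro r i
    have h1 := GoodX.mul (pow_ne_zero _ (hc i)) (pow_ne_zero _ (hc' i))
      ((hg i).pow (j - expo H r i)) ((hg' i).pow (expo H r i))
    rw [← add_mul, Nat.sub_add_cancel (expo_le H r i)] at h1
    exact h1
  have hval : ∀ r, extForm (j * m) D0 x (fun i => cr r i * ur r i) D =
      extForm (j * m) D0 x (fun i => c i ^ j) D *
      ∏ i, algebraMap (E0 i) (fixedField G) (f i) ^ expo H r i := by
    intro r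
    unfold extForm
    rw [mul_right_comm, ← Finset.prod_mul_distrib]
    congr 1
    refine Finset.prod_congr rfl fun i _ => ?_
    rw [← map_pow (algebraMap (E0 i) (fixedField G)), ← map_mul (algebraMap (E0 i) (fixedField G))]
    congr 1
    by_cases hi : i ∈ H
    · have h1 : c i ^ j = c i ^ (j - expo H r i) * c i ^ expo H r i := by
        rw [← pow_add, Nat.sub_add_cancel (expo_le H r i)]
      have h2 : c i ^ expo H r i ≠ 0 := pow_ne_zero _ (hc i)
      simp only [f, if_pos hi, cr, ur]
      rw [h1, div_pow, mul_pow]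
      field_simp
    · simp only [cr, ur, expo_of_notMem H r hi, pow_zero, mul_one, Nat.sub_zero]
  have hli : LinearIndependent k fun r : (H → Fin j) => extForm (K := fixedField G) (j * m) D0 x
      (fun i => cr r i * ur r i) := by
    refine LinearIndependent.of_comp
      (LinearMap.proj D : ((Fin n → Derivation k (fixedField G) (fixedField G)) →
        fixedField G) →ₗ[k] fixedField G) ?_
    have h1 := (monomials_indep (fun i => algebraMap (E0 i) (fixedField G) (f i))
      (hbasis f hf).1 H j).map' (LinearMap.mulLeft k (extForm (j * m) D0 x (fun i => c i ^ j) D))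
      (LinearMap.ker_eq_bot.2 (mul_right_injective₀ hD))
    have h3 : (⇑(LinearMap.proj D : ((Fin n → Derivation k (fixedField G) (fixedField G)) →
        fixedField G) →ₗ[k] fixedField G) ∘ fun r : (H → Fin j) =>
          extForm (K := fixedField G) (j * m) D0 x (fun i => cr r i * ur r i)) =
        ⇑(LinearMap.mulLeft k (extForm (j * m) D0 x (fun i => c i ^ j) D)) ∘
          fun r : (H → Fin j) => ∏ i, algebraMap (E0 i) (fixedField G) (f i) ^ expo H r i :=
      funext hval
    rw [h3]
    exact h1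
  have hcard : Fintype.card (H → Fin j) = j ^ H.card := by simp
  let e : Fin (j ^ H.card) ≃ (H → Fin j) := (Fintype.equivFinOfCardEq hcard).symm
  refine ⟨fun l => extForm (j * m) D0 x (fun i => cr (e l) i * ur (e l) i),
    hli.comp e e.injective, fun l => ?_⟩
  refine ⟨extForm_pluri _ D0 x _, ?_⟩
  intro v hv D hD
  have hreg := regular_of_goodX (G := G) (E0 := E0) (E := fun i => F i)
      ρ hcomp (fun _ _ => False) X hX0 (fun i q _ => hXe i q) hrot hD0 (hcr0 (e l))
      (hgr (e l)) x hx v (by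
        rintro ⟨i, p, a, -, h⟩
        exact h) D hD
  have hmul : (fun l => extForm (j * m) D0 x fun i => cr (e l) i * ur (e l) i) l D =
      extForm (j * m) D0 x (cr (e l)) D * ∏ i, algebraMap (E0 i) (fixedField G) (ur (e l) i) :=
    extForm_mul (j * m) D0 x (cr (e l)) (ur (e l)) D
  rw [hmul]
  rcases hreg with h | h
  · left; rw [h, zero_mul]
  by_cases h0 : extForm (j * m) D0 x (cr (e l)) D = 0
  · left; rw [h0, zero_mul]
  right
  refine ⟨1, by simp, one_ne_zero, ?_⟩
  have hune : ∀ i, algebraMap (E0 i) (fixedField G) (ur (e l) i) ≠ 0 := fun i => by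
    rw [Ne, _root_.map_eq_zero]; exact hur0 _ i
  rw [v.ord_mul h0 (Finset.prod_ne_zero_iff.2 fun i _ => hune i), ord_prod _ _ _ fun i _ => hune i]
  have h1 : ∀ i, -((m : ℚ) * δ v) ≤ n * v.ord (algebraMap (E0 i) (fixedField G) (u i)) := by
    intro i
    by_cases htriv : ∀ f : E0 i, v.ord (algebraMap (E0 i) (fixedField G) f) = 0
    · rw [htriv]
      have := hδ0 v
      simp only [Int.cast_zero, mul_zero, Left.neg_nonpos_iff]
      positivity
    · push Not at htriv
      obtain ⟨α, p, hp⟩ := exists_over (K := E0 i) v htriv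
      have h2 := hβ i v p α hp
      rw [hp.2]
      push_cast
      have h3 := mul_le_mul_of_nonneg_left (hβu i p) (by positivity : (0 : ℚ) ≤ n * α)
      have h4 := mul_le_mul_of_nonneg_left h2 (by positivity : (0 : ℚ) ≤ m)
      linarith
  have h2 : -((j * m : ℕ) * δ v : ℚ) ≤ ∑ i, (expo H (e l) i : ℚ) *
      v.ord (algebraMap (E0 i) (fixedField G) (u i)) := by
    rcases Nat.eq_zero_or_pos n with hn0 | hn0
    · subst hn0
      have := hδ0 v
      simp only [Finset.univ_eq_empty, Finset.sum_empty, Left.neg_nonpos_iff]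
      positivity
    · have hnq : (0 : ℚ) < n := by exact_mod_cast hn0
      have h3 : ∀ i ∈ (Finset.univ : Finset (Fin n)), -((j * m : ℕ) * δ v : ℚ) / n ≤
          (expo H (e l) i : ℚ) * v.ord (algebraMap (E0 i) (fixedField G) (u i)) := by
        intro i _
        rw [div_le_iff₀ hnq]
        have h4 := mul_le_mul_of_nonneg_left (h1 i)
          (by positivity : (0 : ℚ) ≤ (expo H (e l) i : ℚ))
        have h5 : ((expo H (e l) i : ℕ) : ℚ) ≤ j := by exact_mod_cast expo_le H (e l) i
        have h6 : (0 : ℚ) ≤ m * δ v := by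
          have := hδ0 v
          positivity
        have h7 := mul_le_mul_of_nonneg_right h5 h6
        push_cast
        linarith
      have h4 := Finset.sum_le_sum h3
      rw [Finset.sum_const, Finset.card_univ, Fintype.card_fin, nsmul_eq_mul,
        mul_div_cancel₀ _ hnq.ne'] at h4
      exact h4
  have h3 : ∀ i, (v.ord (algebraMap (E0 i) (fixedField G) (ur (e l) i)) : ℚ) =
      (expo H (e l) i : ℚ) * v.ord (algebraMap (E0 i) (fixedField G) (u i)) := by
    intro i
    simp only [ur]
    rw [map_pow, v.ord_pow]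
    push_cast
    ring
  push_cast
  rw [Finset.sum_congr rfl fun i _ => h3 i]
  have h4 : (0 : ℚ) ≤ v.ord (extForm (j * m) D0 x (cr (e l)) D) := by exact_mod_cast h
  push_cast at h2
  simp only [Nat.cast_zero, zero_mul, zero_sub]
  linarith

end


section

variable {k : Type v} {L : Type u} [Field k] [Field L] [Algebra k L]

theorem pair_xg [CharZero k] [IsAlgClosed k] (n : ℕ) (hn : Algebra.trdeg k L = n)
    (F : Fin n → IntermediateField k L) (hF : ∀ i, IsFF k (F i))
    (halg : Algebra.IsAlgebraic ↥(⨆ i, F i) L)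
    (G : Subgroup (L ≃ₐ[k] L)) [Finite G] (hst : ∀ i, ∀ g ∈ G, ∀ z ∈ F i, g z ∈ F i)
    (δ : Place k (fixedField G) → ℚ) (hδ : ∀ v, 0 ≤ δ v) (P : Set (Fin n))
    (η : ∀ i, Place k ↥(F i ⊓ fixedField G) → ℚ)
    (hP : ∀ i ∈ P, (¬ ∃ t : F i, k⟮t⟯ = ⊤) ∧ ((¬ IsElliptic (F i) ∧
        OrbPos (inf_le_left : F i ⊓ fixedField G ≤ F i) ∅ (η i)) ∨
      (ContainsFibre (inf_le_right : F i ⊓ fixedField G ≤ fixedField G) δ ∧
        OrbNonneg (inf_le_left : F i ⊓ fixedField G ≤ F i) ∅ (η i))))
    (hQ : ∀ i ∉ P, (∃ t : F i, k⟮t⟯ = ⊤) ∨ (IsElliptic (F i) ∧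
      OrbNonneg (inf_le_left : F i ⊓ fixedField G ≤ F i) ∅ (η i)))
    (hrot : RTCond G F (fun _ => ∅) η) :
    ((⨆ i, F i = ⊤) → (∃ i, ∃ t : F i, k⟮t⟯ = ⊤) → BoundedBy (⨆ i : P, F i) n δ →
      ¬ PairPsef k (fixedField G) n δ) ∧
    ((∀ i, ¬ ∃ t : F i, k⟮t⟯ = ⊤) →
      PairKodGe k (fixedField G) n δ P.ncard ∧
      ((⨆ i, F i = ⊤) → BoundedBy (⨆ i : P, F i) n δ →
        PairNumLe k (fixedField G) n δ P.ncard)) := by
  classical
  let E0 : Fin n → Type u := fun i => ↥(F i ⊓ fixedField G)
  let _ : ∀ i, Field (E0 i) := fun i => inferInstanceAs (Field ↥(F i ⊓ fixedField G))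
  let _ : ∀ i, Algebra k (E0 i) := fun i => inferInstanceAs (Algebra k ↥(F i ⊓ fixedField G))
  let _ : ∀ i, Algebra (E0 i) (F i) := fun i =>
    (inclusion (inf_le_left : F i ⊓ fixedField G ≤ F i)).toRingHom.toAlgebra
  let _ : ∀ i, Algebra (E0 i) (fixedField G) := fun i =>
    (inclusion (inf_le_right : F i ⊓ fixedField G ≤ fixedField G)).toRingHom.toAlgebra
  let _ : ∀ i, Algebra (E0 i) L := fun i => inferInstanceAs (Algebra ↥(F i ⊓ fixedField G) L)
  have t1 : ∀ i, IsScalarTower k (E0 i) (F i) := fun i =>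
    IsScalarTower.of_algebraMap_eq fun c => rfl
  have t2 : ∀ i, IsScalarTower k (E0 i) L := fun i =>
    IsScalarTower.of_algebraMap_eq fun c => rfl
  have t3 : ∀ i, IsScalarTower k (E0 i) (fixedField G) := fun i =>
    IsScalarTower.of_algebraMap_eq fun c => rfl
  have t4 : ∀ i, IsScalarTower (E0 i) (F i) L := fun i =>
    IsScalarTower.of_algebraMap_eq fun c => rfl
  have t5 : ∀ i, IsScalarTower (E0 i) (fixedField G) L := fun i =>
    IsScalarTower.of_algebraMap_eq fun c => rfl
  have f1 : ∀ i, FiniteDimensional (E0 i) (F i) := fun i => inf_finite G (F i) (hst i) fun z => rfl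
  have f2 : ∀ i, IsFF k (E0 i) := fun i => isFF_down (E := F i)
  have hfinL : FiniteDimensional (fixedField G) L := by
    have hGal : IsGaloisGroup G (fixedField G) L := isGaloisGroup_fixed G
    exact IsGaloisGroup.finiteDimensional G (fixedField G) L
  have hfinU : ∀ i, (UB1 (F i) (fun _ : Place k (E0 i) => False)) = ∅ := by
    intro i
    ext q
    unfold UB1
    simp
  choose x hx using fun i => IsFF.exists_transcendental (k := k) (K := E0 i)
  constructor
  · rintro hsup ⟨i, hi⟩ ⟨T, hT, hδT⟩ ⟨S, hS⟩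
    have hub := card_le2 (K := fixedField G) (F := F) (E0 := E0) hsup hn x hx
      (fun t ht => (hT t ht).1) hδT (fun i => i ∈ P) (fun t ht => (hT t ht).2)
    obtain ⟨A, A', hA', hA⟩ := hub S
    have hiP : i ∉ P := fun h => (hP i h).1 hi
    obtain ⟨j, hj, ω, hω, D, hD⟩ := hS ((A i).toNat + 1)
    obtain ⟨ω', h1, h2⟩ := hasIndep_one hω hD
    have h3 := hA _ _ 1 ω' h1 h2
    rw [← Finset.mul_prod_erase _ _ (Finset.mem_univ i)] at h3
    have h4 : (((j * ((A i).toNat + 1) : ℕ) : ℤ) * canDeg k (F i) +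
        ((j * ((A i).toNat + 1) : ℕ) : ℤ) * A' i + j * A i + 1).toNat = 0 := by
      rw [Int.toNat_eq_zero, hA' i hiP]
      obtain ⟨t, ht⟩ := hi
      rw [canDeg_rational ht]
      push_cast
      have h5 : (A i) ≤ max (A i) 0 := le_max_left _ _
      have h6 : (0 : ℤ) ≤ max (A i) 0 := le_max_right _ _
      have h7 : (1 : ℤ) ≤ j := by exact_mod_cast hj
      rw [← Int.toNat_eq_max] at h5 h6
      nlinarith
    rw [h4, zero_mul] at h3
    omega
  intro hirr
  constructor
  · -- the lower bound
    have hcardP : P.ncard = P.toFinset.card := Set.ncard_eq_toFinset_card' P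
    rw [hcardP]
    -- the fibres
    have hfib : ∀ i, ∃ (p : Place k (E0 i)) (ε : ℚ), 0 ≤ ε ∧
        (∀ (v : Place k (fixedField G)) (α : ℕ), Over v p α → ε * α ≤ δ v) ∧
        (ContainsFibre (inf_le_right : F i ⊓ fixedField G ≤ fixedField G) δ → 0 < ε) := by
      intro i
      by_cases h : ContainsFibre (inf_le_right : F i ⊓ fixedField G ≤ fixedField G) δ
      · obtain ⟨p, ε, hε, h⟩ := h
        exact ⟨p, ε, hε.le, fun v α h' => h v α h', fun _ => hε⟩
      · obtain ⟨p, -⟩ := exists_place (k := k) (K := E0 i)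
        exact ⟨p, 0, le_rfl, fun v α _ => by rw [zero_mul]; exact hδ v, fun h' => absurd h' h⟩
    choose p ε hε0 hε hεpos using hfib
    have horb : ∀ i, IsOrb (inf_le_left : F i ⊓ fixedField G ≤ F i) ∅ (η i) := by
      intro i
      by_cases hi : i ∈ P
      · rcases (hP i hi).2 with ⟨-, h⟩ | ⟨-, h⟩ <;> exact h.1
      · exact ((hQ i hi).resolve_left (hirr i)).2.1
    refine pair_lowerX n hn F halg G (E0 := E0) (fun i => rho G (F i) (hst i))
      (fun i g z => rfl) (fun i q => 1 - η i q) (fun i q => by linarith [((horb i).2 q).2.1])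
      (fun i q w e hw => ?_) ?_ P.toFinset δ hδ (fun i q => if q = p i then ε i / n else 0) ?_ ?_
    · have h1 : (0 : ℚ) < e := by exact_mod_cast hw.1
      have h2 := ((horb i).2 q).2.2 (Set.notMem_empty q) w e hw
      have h3 : 1 / (e : ℚ) ≤ 1 - η i q := by linarith
      rw [div_le_iff₀ h1] at h3
      linarith
    · intro g hg ζ hζ y hy
      refine hrot (g : L ≃ₐ[k] L) g.2 (fun h => hg (Subtype.ext h)) ζ hζ y fun i => ?_
      rcases hy i with ⟨h1, h2⟩ | ⟨q, p, a, r, h1, h2, h3, h4, -, h6⟩
      · left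
        refine ⟨h1, fun z hz => ?_⟩
        exact congrArg (fun φ : F i ≃ₐ[k] F i => ((φ ⟨z, hz⟩ : F i) : L)) h2
      · right
        refine ⟨q, p, a, r, h1, h2, fun z z' hz' hz => ?_, h4, Set.notMem_empty p, h6⟩
        have h7 : z' = rho G (F i) (hst i) g z := Subtype.ext hz'.symm
        rw [h7, Algebra.smul_def]
        exact (h3 z hz).imp (fun h => sub_eq_zero.1 h) id
    · intro i v q α hvq
      have hn0 : (n : ℚ) ≠ 0 := by
        have := i.pos
        positivity
      split_ifs with hq
      · subst hq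
        have h1 := hε i v α hvq
        have h2 : (n : ℚ) * (α * (ε i / n)) = ε i * α := by field_simp
        rw [h2]; exact h1
      · rw [mul_zero, mul_zero]; exact hδ v
    · intro i
      have hβ0 : ∀ (m : ℕ) (q : Place k (E0 i)),
          -((m : ℚ) * (if q = p i then ε i / n else 0)) ≤ (q.ord (1 : E0 i) : ℚ) := by
        intro m q
        rw [q.ord_one]
        have := hε0 i
        split_ifs
        · have : (0 : ℚ) ≤ m * (ε i / n) := by positivity
          push_cast
          linarith
        · simp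
      have hone : OrbNonneg (inf_le_left : F i ⊓ fixedField G ≤ F i) ∅ (η i) →
          ∃ (m : ℕ) (D0 : Derivation k (E0 i) (E0 i)) (c : E0 i), 1 ≤ m ∧ D0 ≠ 0 ∧ c ≠ 0 ∧
            GoodX (fun _ => False) (fun q => 1 - η i q) m D0 c := by
        intro hadm
        refine exists_goodX (rho G (F i) (hst i)) (fun g z => ?_) (fun z hz => ?_)
          (fun _ => False) (hasLog_of_nonrational _ (hirr i)) (η i) (horb i).1
          (fun q => ⟨((horb i).2 q).1, ((horb i).2 q).2.1⟩) ?_
        · apply Subtype.ext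
          exact z.2.2 g
        · refine ⟨⟨(z : L), z.2, fun g => ?_⟩, rfl⟩
          exact congrArg (Subtype.val : F i → L) (hz g)
        · rcases adm_of_nonneg (inf_le_left : F i ⊓ fixedField G ≤ F i) rfl hadm with
            ⟨D, o, h1, h2, h3, -⟩ | h
          · exact Or.inl ⟨D, o, h1, h2, h3⟩
          · exact Or.inr h
      by_cases hiP : i ∈ P
      · rcases (hP i hiP).2 with ⟨hell, hstr⟩ | ⟨hcf, hadm⟩
        · obtain ⟨m, D0, c, c', h1, h2, h3, h4, h5, h6, h7⟩ :=
            exists_two_goodX (rho G (F i) (hst i)) (fun g z => by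
              apply Subtype.ext
              exact z.2.2 g) (fun z hz => by
              refine ⟨⟨(z : L), z.2, fun g => ?_⟩, rfl⟩
              exact congrArg (Subtype.val : F i → L) (hz g)) (E0 := E0 i) (fun _ => False)
              (by rw [hfinU]; exact Set.finite_empty)
              (by
                rw [hfinU, Set.ncard_empty]
                have := canDeg_pos (hirr i) hell
                simpa using this) (η i) (horb i).1
              (fun q => ⟨((horb i).2 q).1, ((horb i).2 q).2.1⟩) (by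
                rcases adm_of_pos (inf_le_left : F i ⊓ fixedField G ≤ F i) rfl hstr with
                  ⟨D, o, h1, h2, h3, h4⟩ | h
                · exact Or.inl ⟨D, o, h1, h2, h4 rfl⟩
                · exact Or.inr h)
          exact ⟨m, D0, c, c', 1, h1, h2, h3, h4, one_ne_zero, h5, h6, hβ0 m, fun _ => by
            rwa [mul_one]⟩
        · obtain ⟨m, D0, c, h1, h2, h3, h4⟩ := hone hadm
          have hεi := hεpos i hcf
          obtain ⟨y, hy1, hy2⟩ := exists_unique_pole (p i)
          have hy0 : y ≠ 0 := by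
            rintro rfl
            rw [(p i).ord_zero] at hy1
            omega
          have hyt : Transcendental k y := (p i).transcendental_of_ord_ne (by omega)
          have hnq : (0 : ℚ) < n := by
            have := i.pos
            positivity
          have hmq : (1 : ℚ) ≤ m := by exact_mod_cast h1
          obtain ⟨a, ha⟩ := exists_nat_ge (((-(p i).ord y : ℤ) : ℚ) * n / ε i)
          have ha2 : ((-(p i).ord y : ℤ) : ℚ) ≤ (a + 1 : ℕ) * (ε i / n) := by
            rw [div_le_iff₀ hεi] at ha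
            have h5 : ((-(p i).ord y : ℤ) : ℚ) ≤ a * ε i / n := by
              rw [le_div_iff₀ hnq]; exact ha
            have h6 : (0 : ℚ) ≤ ε i / n := by positivity
            push_cast at h5 ⊢
            have h7 : (a : ℚ) * ε i / n = a * (ε i / n) := by ring
            rw [h7] at h5
            linarith
          refine ⟨(a + 1) * m, D0, c ^ (a + 1), c ^ (a + 1), y, ?_, h2, pow_ne_zero _ h3,
            pow_ne_zero _ h3, hy0, h4.pow (a + 1), h4.pow (a + 1), fun q => ?_, fun _ => ?_⟩
          · exact Nat.mul_pos (Nat.succ_pos a) h1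
          · split_ifs with hq
            · subst hq
              have h5 : (0 : ℚ) ≤ (a + 1 : ℕ) * (ε i / n) := by positivity
              have h6 : ((a + 1 : ℕ) : ℚ) * (ε i / n) ≤ ((a + 1 : ℕ) * (ε i / n)) * m := by
                nlinarith
              push_cast at ha2 h6 ⊢
              linarith
            · have := hy2 q hq
              rw [mul_zero, neg_zero]
              exact_mod_cast this
          · rw [mul_div_cancel_left₀ _ (pow_ne_zero _ h3)]
            exact hyt
      · have hell := (hQ i hiP).resolve_left (hirr i)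
        obtain ⟨m, D0, c, h1, h2, h3, h4⟩ := hone hell.2
        exact ⟨m, D0, c, c, 1, h1, h2, h3, h3, one_ne_zero, h4, h4, hβ0 m, fun h =>
          absurd (Set.mem_toFinset.1 h) hiP⟩
  · -- the upper bound
    rintro hsup ⟨T, hT, hδT⟩ S
    have hub := card_le2 (K := fixedField G) (F := F) (E0 := E0) hsup hn x hx
      (fun t ht => (hT t ht).1) hδT (fun i => i ∈ P) (fun t ht => (hT t ht).2)
    obtain ⟨A, A', hA', hA⟩ := hub S
    refine ⟨∏ i, (canDeg k (F i) + |A' i| + |A i| + 1).toNat, fun m N' hm => ?_⟩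
    rintro ⟨ω, hω, hsec⟩
    refine (hA m 1 N' ω hω hsec).trans ?_
    have h1 : ∀ i ∈ (Finset.univ : Finset (Fin n)),
        (m * canDeg k (F i) + m * A' i + (1 : ℕ) * A i + 1).toNat ≤
        (canDeg k (F i) + |A' i| + |A i| + 1).toNat * (if i ∈ P then m else 1) := by
      intro i _
      have hcd := canDeg_nonneg (hirr i)
      by_cases hiP : i ∈ P
      · rw [if_pos hiP]
        rw [Int.toNat_le]
        have h2 : (0 : ℤ) ≤ canDeg k (F i) + |A' i| + |A i| + 1 := by positivity
        push_cast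
        rw [Int.toNat_of_nonneg h2]
        have h3 : (1 : ℤ) ≤ m := by exact_mod_cast hm
        have h4 := le_abs_self (A' i)
        have h5 := le_abs_self (A i)
        have h6 := abs_nonneg (A i)
        nlinarith
      · rw [if_neg hiP, mul_one, hA' i hiP, canDeg_elliptic ((hQ i hiP).resolve_left (hirr i)).1]
        apply Int.toNat_le_toNat
        have h5 := le_abs_self (A i)
        have h6 := abs_nonneg (A' i)
        push_cast
        simp only [mul_zero, zero_add, one_mul, abs_zero]
        linarith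
    refine (Finset.prod_le_prod' h1).trans (le_of_eq ?_)
    rw [Finset.prod_mul_distrib, Finset.prod_ite, Finset.prod_const, Finset.prod_const_one,
      mul_one, Set.ncard_eq_toFinset_card']
    congr 3
    ext i
    simp

end

end Pool.Agent.W619.X
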