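import Pool.Agent.W619.X.Half
import Pool.Agent.W619.X.Pair

/-! The conditions of Reid-Tai type: final forms. -/

set_option autoImplicit false
set_option linter.overlappingInstances false
set_option linter.unusedSectionVars false

universe u v

open Polynomial FF IntermediateField Pool.Agent.W619.PQ Pool.Agent.W619.PL Pool.Agent.W619.TW

namespace Pool.Agent.W619.X

open Pool.Agent.W603.LV

section

variable {k : Type v} {L : Type u} [Field k] [Field L] [Algebra k L] {n : ℕ}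

/-- `δ` is an orbifold divisor and `K_Q + δ` has nonnegative degree. -/
def OrbGe {Q F : IntermediateField k L} (h : Q ≤ F) (B : Set (Place k Q))
    (δ : Place k Q → ℚ) : Prop :=
  IsOrb h B δ ∧ ∃ d, IsDeg δ d ∧ 0 ≤ d

/-- `δ` is an orbifold divisor and `K_Q + δ` has positive degree. -/
def OrbGt {Q F : IntermediateField k L} (h : Q ≤ F) (B : Set (Place k Q))
    (δ : Place k Q → ℚ) : Prop :=
  IsOrb h B δ ∧ ∃ d, IsDeg δ d ∧ 0 < d

theorem OrbGe.nonneg {Q F : IntermediateField k L} {h : Q ≤ F} {B : Set (Place k Q)}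
    {δ : Place k Q → ℚ} (hp : OrbGe h B δ) : OrbNonneg h B δ := ⟨hp.1, Or.inl hp.2⟩

theorem OrbGt.pos {Q F : IntermediateField k L} {h : Q ≤ F} {B : Set (Place k Q)}
    {δ : Place k Q → ℚ} (hp : OrbGt h B δ) : OrbPos h B δ := ⟨hp.1, Or.inl hp.2⟩

/-- Condition for nonvanishing, with boundary: (a) each `g ≠ 1` in `G` moves at least `2` of the
curves, and each curve is negative or its quotient is `Wide 4`; or (b) each `g ≠ 1` moves at least
`6` of the curves (`4` if `3` does not divide the order of `G`, `3` if the order is odd, `2` if all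
`B i` are nonempty); or (c) there are orbifold divisors `δ i` of nonnegative degree on the
quotients of the curves which are not negative, which satisfy the condition of Reid-Tai type. -/
def LogNonnegCond (G : Subgroup (L ≃ₐ[k] L)) (F : Fin n → IntermediateField k L)
    (B : ∀ i, Set (Place k ↥(F i ⊓ fixedField G))) : Prop :=
  (Moves 2 G F ∧ ∀ i, Wide 4 inf_le_left (B i) ∨ IsNegative inf_le_left (B i)) ∨
  (Moves 6 G F ∨ (Moves 4 G F ∧ ¬ 3 ∣ Nat.card G) ∨ (Moves 3 G F ∧ ¬ 2 ∣ Nat.card G) ∨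
    (Moves 2 G F ∧ ∀ i, (B i).Nonempty)) ∨
  ∃ δ : ∀ i, Place k ↥(F i ⊓ fixedField G) → ℚ,
    (∀ i, OrbGe inf_le_left (B i) (δ i) ∨ IsNegative inf_le_left (B i)) ∧ RTCond G F B δ

/-- Condition for abundance, with boundary: (a) each `g ≠ 1` in `G` moves at least `2` of the
curves, and each curve is negative, or flat with quotient `Wide 4`, or has quotient `Wide 5`; or
(b) each `g ≠ 1` moves at least `7` of the curves (`5` if `3` does not divide the order of `G`, `4`
if the order is odd, `3` if all `B i` are nonempty); or (c) there are orbifold divisors `δ i` of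
positive degree (nonnegative degree if the curve is flat) on the quotients of the curves which are
not negative, which satisfy the condition of Reid-Tai type. -/
def LogPosCond (G : Subgroup (L ≃ₐ[k] L)) (F : Fin n → IntermediateField k L)
    (B : ∀ i, Set (Place k ↥(F i ⊓ fixedField G))) : Prop :=
  (Moves 2 G F ∧ ∀ i, Wide 5 inf_le_left (B i) ∨
    (IsFlat inf_le_left (B i) ∧ Wide 4 inf_le_left (B i)) ∨ IsNegative inf_le_left (B i)) ∨
  (Moves 7 G F ∨ (Moves 5 G F ∧ ¬ 3 ∣ Nat.card G) ∨ (Moves 4 G F ∧ ¬ 2 ∣ Nat.card G) ∨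
    (Moves 3 G F ∧ ∀ i, (B i).Nonempty)) ∨
  ∃ δ : ∀ i, Place k ↥(F i ⊓ fixedField G) → ℚ,
    (∀ i, OrbGt inf_le_left (B i) (δ i) ∨
      (IsFlat inf_le_left (B i) ∧ OrbGe inf_le_left (B i) (δ i)) ∨
      IsNegative inf_le_left (B i)) ∧ RTCond G F B δ

/-- Condition for nonvanishing, without boundary: (a) each `g ≠ 1` in `G` moves at least `2` of the
curves, and each curve is rational or its quotient is `Wide 4` (irrational or with at least `4`
branch points); or (b) each `g ≠ 1` moves at least `6` of the curves (`4` if `3` does not divide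
the order of `G`, `3` if the order is odd); or (c) there are orbifold divisors `δ i` of nonnegative
degree on the quotients of the irrational curves which satisfy the condition of Reid-Tai type. -/
def NonnegCond (G : Subgroup (L ≃ₐ[k] L)) (F : Fin n → IntermediateField k L) : Prop :=
  (Moves 2 G F ∧ ∀ i, Wide 4 (inf_le_left : F i ⊓ fixedField G ≤ F i) ∅ ∨ ∃ t : F i, k⟮t⟯ = ⊤) ∨
  (Moves 6 G F ∨ (Moves 4 G F ∧ ¬ 3 ∣ Nat.card G) ∨ (Moves 3 G F ∧ ¬ 2 ∣ Nat.card G)) ∨
  ∃ δ : ∀ i, Place k ↥(F i ⊓ fixedField G) → ℚ,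
    (∀ i, OrbGe (inf_le_left : F i ⊓ fixedField G ≤ F i) ∅ (δ i) ∨ ∃ t : F i, k⟮t⟯ = ⊤) ∧
    RTCond G F (fun _ => ∅) δ

/-- Condition for abundance, without boundary: (a) each `g ≠ 1` in `G` moves at least `2` of the
curves, and each curve is rational, or elliptic with quotient `Wide 4`, or has quotient `Wide 5`
(irrational or with at least `5` branch points); or (b) each `g ≠ 1` moves at least `7` of the
curves (`5` if `3` does not divide the order of `G`, `4` if the order is odd); or (c) there are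
orbifold divisors `δ i` of positive degree (nonnegative degree if the curve is elliptic) on the
quotients of the irrational curves which satisfy the condition of Reid-Tai type. -/
def PosCond (G : Subgroup (L ≃ₐ[k] L)) (F : Fin n → IntermediateField k L) : Prop :=
  (Moves 2 G F ∧ ∀ i, Wide 5 (inf_le_left : F i ⊓ fixedField G ≤ F i) ∅ ∨
    (IsElliptic (F i) ∧ Wide 4 (inf_le_left : F i ⊓ fixedField G ≤ F i) ∅) ∨
    ∃ t : F i, k⟮t⟯ = ⊤) ∨
  (Moves 7 G F ∨ (Moves 5 G F ∧ ¬ 3 ∣ Nat.card G) ∨ (Moves 4 G F ∧ ¬ 2 ∣ Nat.card G)) ∨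
  ∃ δ : ∀ i, Place k ↥(F i ⊓ fixedField G) → ℚ,
    (∀ i, OrbGt (inf_le_left : F i ⊓ fixedField G ≤ F i) ∅ (δ i) ∨
      (IsElliptic (F i) ∧ OrbGe (inf_le_left : F i ⊓ fixedField G ≤ F i) ∅ (δ i)) ∨
      ∃ t : F i, k⟮t⟯ = ⊤) ∧ RTCond G F (fun _ => ∅) δ

theorem lognonneg_exists [CharZero k] [IsAlgClosed k]
    (F : Fin n → IntermediateField k L) (hF : ∀ i, IsFF k (F i))
    (G : Subgroup (L ≃ₐ[k] L)) [Finite G] (hst : ∀ i, ∀ g ∈ G, ∀ z ∈ F i, g z ∈ F i)
    (B : ∀ i, Set (Place k ↥(F i ⊓ fixedField G))) (hB : ∀ i, (B i).Finite)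
    (h : LogNonnegCond G F B) :
    ∃ δ : ∀ i, Place k ↥(F i ⊓ fixedField G) → ℚ,
      (∀ i, OrbNonneg inf_le_left (B i) (δ i) ∨ IsNegative inf_le_left (B i)) ∧
        RTCond G F B δ := by
  rcases h with ⟨h1, h2⟩ | h | h
  · choose δ h3 h4 h5 h6 using fun i => half_factor (F i) (hF := hF i) G (hst i) (B i) (hB i)
    refine ⟨δ, fun i => ?_, half_rt F hF G hst B h1 δ h4⟩
    rcases h2 i with h7 | h7
    · exact Or.inl (h5 i h7)
    · exact Or.inr h7
  · have hmm : ManyMoved 6 4 3 2 G F B := by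
      rcases h with h | ⟨h, h'⟩ | ⟨h, h'⟩ | ⟨h, h'⟩
      · exact ⟨6, Or.inl le_rfl, h⟩
      · exact ⟨4, Or.inr (Or.inl ⟨le_rfl, h'⟩), h⟩
      · exact ⟨3, Or.inr (Or.inr (Or.inl ⟨le_rfl, h'⟩)), h⟩
      · exact ⟨2, Or.inr (Or.inr (Or.inr ⟨le_rfl, h'⟩)), h⟩
    obtain ⟨δ, h1, h2⟩ := nonneg_of_moved F hF G hst B hB hmm
    exact ⟨δ, fun i => Or.inl (h1 i), h2⟩
  · obtain ⟨δ, h1, h2⟩ := h
    exact ⟨δ, fun i => (h1 i).imp OrbGe.nonneg id, h2⟩

theorem logpos_exists [CharZero k] [IsAlgClosed k]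
    (F : Fin n → IntermediateField k L) (hF : ∀ i, IsFF k (F i))
    (G : Subgroup (L ≃ₐ[k] L)) [Finite G] (hst : ∀ i, ∀ g ∈ G, ∀ z ∈ F i, g z ∈ F i)
    (B : ∀ i, Set (Place k ↥(F i ⊓ fixedField G))) (hB : ∀ i, (B i).Finite)
    (h : LogPosCond G F B) :
    ∃ δ : ∀ i, Place k ↥(F i ⊓ fixedField G) → ℚ,
      (∀ i, OrbPos inf_le_left (B i) (δ i) ∨
        (IsFlat inf_le_left (B i) ∧ OrbNonneg inf_le_left (B i) (δ i)) ∨
        IsNegative inf_le_left (B i)) ∧ RTCond G F B δ := by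
  rcases h with ⟨h1, h2⟩ | h | h
  · choose δ h3 h4 h5 h6 using fun i => half_factor (F i) (hF := hF i) G (hst i) (B i) (hB i)
    refine ⟨δ, fun i => ?_, half_rt F hF G hst B h1 δ h4⟩
    by_cases hneg : IsNegative inf_le_left (B i)
    · exact Or.inr (Or.inr hneg)
    by_cases hflat : IsFlat inf_le_left (B i)
    · refine Or.inr (Or.inl ⟨hflat, h5 i ?_⟩)
      rcases h2 i with h7 | ⟨-, h7⟩ | h7
      · exact h7.imp id fun h8 => by omega
      · exact h7
      · exact absurd h7 hneg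
    · rcases h2 i with h7 | ⟨h7, -⟩ | h7
      · exact Or.inl (h6 i h7 hneg hflat)
      · exact absurd h7 hflat
      · exact absurd h7 hneg
  · have hmm : ManyMoved 7 5 4 3 G F B := by
      rcases h with h | ⟨h, h'⟩ | ⟨h, h'⟩ | ⟨h, h'⟩
      · exact ⟨7, Or.inl le_rfl, h⟩
      · exact ⟨5, Or.inr (Or.inl ⟨le_rfl, h'⟩), h⟩
      · exact ⟨4, Or.inr (Or.inr (Or.inl ⟨le_rfl, h'⟩)), h⟩
      · exact ⟨3, Or.inr (Or.inr (Or.inr ⟨le_rfl, h'⟩)), h⟩
    obtain ⟨δ, h1, h2⟩ := pos_of_moved F hF G hst B hB hmm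
    exact ⟨δ, fun i => Or.inl (h1 i), h2⟩
  · obtain ⟨δ, h1, h2⟩ := h
    exact ⟨δ, fun i => (h1 i).imp OrbGt.pos (Or.imp (And.imp id OrbGe.nonneg) id), h2⟩

theorem NonnegCond.log {G : Subgroup (L ≃ₐ[k] L)} {F : Fin n → IntermediateField k L}
    (h : NonnegCond G F) : LogNonnegCond G F (fun _ => ∅) := by
  unfold LogNonnegCond
  simp only [isNegative_iff]
  rcases h with h | h | h
  · exact Or.inl h
  · exact Or.inr (Or.inl (by tauto))
  · exact Or.inr (Or.inr h)

theorem PosCond.log [CharZero k] [IsAlgClosed k] {G : Subgroup (L ≃ₐ[k] L)}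
    {F : Fin n → IntermediateField k L}
    (h : PosCond G F) : LogPosCond G F (fun _ => ∅) := by
  unfold LogPosCond
  simp only [isNegative_iff, isFlat_iff]
  rcases h with h | h | h
  · exact Or.inl h
  · exact Or.inr (Or.inl (by tauto))
  · exact Or.inr (Or.inr h)

theorem nonneg_exists [CharZero k] [IsAlgClosed k]
    (F : Fin n → IntermediateField k L) (hF : ∀ i, IsFF k (F i))
    (G : Subgroup (L ≃ₐ[k] L)) [Finite G] (hst : ∀ i, ∀ g ∈ G, ∀ z ∈ F i, g z ∈ F i)
    (h : NonnegCond G F) :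
    ∃ δ : ∀ i, Place k ↥(F i ⊓ fixedField G) → ℚ,
      (∀ i, OrbNonneg (inf_le_left : F i ⊓ fixedField G ≤ F i) ∅ (δ i) ∨
        ∃ t : F i, k⟮t⟯ = ⊤) ∧ RTCond G F (fun _ => ∅) δ := by
  have h1 := lognonneg_exists F hF G hst (fun _ => ∅) (fun _ => Set.finite_empty) h.log
  simp only [isNegative_iff] at h1
  exact h1

theorem pos_exists [CharZero k] [IsAlgClosed k]
    (F : Fin n → IntermediateField k L) (hF : ∀ i, IsFF k (F i))
    (G : Subgroup (L ≃ₐ[k] L)) [Finite G] (hst : ∀ i, ∀ g ∈ G, ∀ z ∈ F i, g z ∈ F i)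
    (h : PosCond G F) :
    ∃ δ : ∀ i, Place k ↥(F i ⊓ fixedField G) → ℚ,
      (∀ i, OrbPos (inf_le_left : F i ⊓ fixedField G ≤ F i) ∅ (δ i) ∨
        (IsElliptic (F i) ∧ OrbNonneg (inf_le_left : F i ⊓ fixedField G ≤ F i) ∅ (δ i)) ∨
        ∃ t : F i, k⟮t⟯ = ⊤) ∧ RTCond G F (fun _ => ∅) δ := by
  have h1 := logpos_exists F hF G hst (fun _ => ∅) (fun _ => Set.finite_empty) h.log
  simp only [isNegative_iff, isFlat_iff] at h1
  exact h1

end

end Pool.Agent.W619.X
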