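import Pool.Agent.W619.TW.NDefs

/-! Definitions: orbifold divisors on the quotient curves, and the condition of Reid-Tai type. -/

set_option autoImplicit false
set_option linter.overlappingInstances false
set_option linter.unusedSectionVars false

universe u v

open FF IntermediateField Pool.Agent.W619.PQ Pool.Agent.W619.PL Pool.Agent.W619.TW

namespace Pool.Agent.W619.X

section

variable {k : Type u} {L : Type v} [Field k] [Field L] [Algebra k L]

/-- `δ` gives the coefficients of an orbifold divisor on the curve `Q`, a quotient of the curve `F`: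
only finitely many are not zero, `0 ≤ δ q ≤ 1`, and `δ q ≤ 1 - 1 / e` if `q` is not in the boundary
`B` and `e` is a ramification index over `q`. -/
def IsOrb {Q F : IntermediateField k L} (h : Q ≤ F) (B : Set (Place k Q))
    (δ : Place k Q → ℚ) : Prop :=
  {q | δ q ≠ 0}.Finite ∧ ∀ q, 0 ≤ δ q ∧ δ q ≤ 1 ∧
    (q ∉ B → ∀ w e, LiesOver h w q e → δ q ≤ 1 - 1 / (e : ℚ))

/-- `d` is the degree of the divisor `K_Q + δ` on the curve `Q`, where `-K_Q` is the divisor of a
vector field `D`, with order `o q` at the point `q`. -/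
def IsDeg {Q : IntermediateField k L} (δ : Place k Q → ℚ) (d : ℚ) : Prop :=
  ∃ (D : Derivation k Q Q) (o : Place k Q → ℤ), D ≠ 0 ∧
    (∀ q, ∀ t, q.ord t = 1 → q.ord (D t) = o q) ∧ d = ∑ᶠ q, (δ q - o q)

/-- The coefficients of `δ` are at least `1` on the boundary `B` and at least
`min (1 - 1 / e) (1 - 1 / N)` at the other points, for the ramification indices `e`. -/
def AtLeast {Q F : IntermediateField k L} (h : Q ≤ F) (B : Set (Place k Q)) (N : ℕ)
    (δ : Place k Q → ℚ) : Prop :=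
  ∀ q, (q ∈ B → 1 ≤ δ q) ∧
    (q ∉ B → ∀ w e, LiesOver h w q e → 1 - 1 / ((min e N : ℕ) : ℚ) ≤ δ q)

/-- `δ` is an orbifold divisor and `K_Q + δ` has degree at least `0`, or `δ` is as large as in
`AtLeast`, with `N ≥ 6`, or `N ≥ 4` and no ramification index is `3`, or `N ≥ 3` and none is `2`, or
`N ≥ 2` and there is a boundary point. -/
def OrbNonneg {Q F : IntermediateField k L} (h : Q ≤ F) (B : Set (Place k Q))
    (δ : Place k Q → ℚ) : Prop :=
  IsOrb h B δ ∧ ((∃ d, IsDeg δ d ∧ 0 ≤ d) ∨ ∃ N, AtLeast h B N δ ∧ (6 ≤ N ∨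
    (4 ≤ N ∧ ∀ w q, ¬ LiesOver h w q 3) ∨ (3 ≤ N ∧ ∀ w q, ¬ LiesOver h w q 2) ∨
    (2 ≤ N ∧ B.Nonempty)))

/-- `δ` is an orbifold divisor and `K_Q + δ` has positive degree, or `δ` is as large as in
`AtLeast`, with `N ≥ 7`, or `N ≥ 5` and no ramification index is `3`, or `N ≥ 4` and none is `2`, or
`N ≥ 3` and there is a boundary point. -/
def OrbPos {Q F : IntermediateField k L} (h : Q ≤ F) (B : Set (Place k Q))
    (δ : Place k Q → ℚ) : Prop :=
  IsOrb h B δ ∧ ((∃ d, IsDeg δ d ∧ 0 < d) ∨ ∃ N, AtLeast h B N δ ∧ (7 ≤ N ∨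
    (5 ≤ N ∧ ∀ w q, ¬ LiesOver h w q 3) ∨ (4 ≤ N ∧ ∀ w q, ¬ LiesOver h w q 2) ∨
    (3 ≤ N ∧ B.Nonempty)))

/-- The condition of Reid-Tai type: let `g ≠ 1` in `G` have order `d`; on each curve `F i` on which
`g` is not trivial let `g` fix a point `q`, not over the boundary, with image `p` in the quotient
curve and ramification index `e`, and act on the cotangent space at `q` by `ζ ^ a`, with
`0 < a < d` (where `ζ` is a primitive `d`-th root of unity). Then `1 ≤ ∑ (a / d) e (1 - δ p)`, the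
sum over these `i`. -/
def RTCond {n : ℕ} (G : Subgroup (L ≃ₐ[k] L)) (F : Fin n → IntermediateField k L)
    (B : ∀ i, Set (Place k ↥(F i ⊓ fixedField G)))
    (δ : ∀ i, Place k ↥(F i ⊓ fixedField G) → ℚ) : Prop :=
  ∀ g ∈ G, g ≠ 1 → ∀ ζ : k, IsPrimitiveRoot ζ (orderOf g) → ∀ y : Fin n → ℚ,
    (∀ i, (y i = 0 ∧ ∀ z ∈ F i, g z = z) ∨
      ∃ (q : Place k (F i)) (p : Place k ↥(F i ⊓ fixedField G)) (a e : ℕ),
        0 < a ∧ a < orderOf g ∧ IsRot (F i) g q (ζ ^ a) ∧ LiesOver inf_le_left q p e ∧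
        p ∉ B i ∧ y i = (a / orderOf g) * e * (1 - δ i p)) → 1 ≤ ∑ i, y i

end

end Pool.Agent.W619.X
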