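import Pool.Agent.W619.X.Good

/-! Existence of forms on the quotient curves. -/

set_option autoImplicit false
set_option linter.overlappingInstances false
set_option linter.unusedSectionVars false

open Polynomial FF IntermediateField

namespace Pool.Agent.W619.X

open Pool.Agent.W603.LV Pool.Agent.W619.PQ Pool.Agent.W619.PL Pool.Agent.W619.TW

section

variable {k : Type*} [Field k] [CharZero k] [IsAlgClosed k]
  {E0 : Type*} [Field E0] [Algebra k E0] [IsFF k E0]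

theorem finsum_deg (δ : Place k E0 → ℚ) (hfin : {q | δ q ≠ 0}.Finite) (D : Derivation k E0 E0)
    (hD : D ≠ 0) (o : Place k E0 → ℤ) (ho : ∀ q, ∀ t, q.ord t = 1 → q.ord (D t) = o q) :
    ∑ᶠ q, (δ q - o q) = canDeg k E0 + ∑ q ∈ hfin.toFinset, δ q := by
  classical
  have hvo : ∀ q, o q = vo q D := by
    intro q
    obtain ⟨t, -, ht⟩ := q.surj
    rw [← vo_eq q ht hD, ho q t ht]
  set T : Finset (Place k E0) := hfin.toFinset ∪ (vo_finite hD).toFinset with hT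
  rw [finsum_eq_sum_of_support_subset (s := T)]
  · rw [Finset.sum_sub_distrib]
    have h1 : ∑ q ∈ T, vo q D = - canDeg k E0 := canDeg_finset hD T fun q hq =>
      Finset.mem_union_right _ ((vo_finite hD).mem_toFinset.2 hq)
    have h2 : ∑ q ∈ T, (o q : ℚ) = - canDeg k E0 := by
      rw [Finset.sum_congr rfl fun q _ => by rw [hvo q]]
      exact_mod_cast h1
    have h3 : ∑ q ∈ T, δ q = ∑ q ∈ hfin.toFinset, δ q := by
      symm
      refine Finset.sum_subset Finset.subset_union_left fun q _ hq => ?_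
      by_contra h
      exact hq (hfin.mem_toFinset.2 h)
    rw [h2, h3]
    ring
  · intro q hq
    by_contra hqT
    apply hq
    rw [Finset.mem_coe, hT, Finset.mem_union] at hqT
    push Not at hqT
    have h1 : δ q = 0 := by
      by_contra h
      exact hqT.1 (hfin.mem_toFinset.2 h)
    have h2 : o q = 0 := by
      rw [hvo]
      by_contra h
      exact hqT.2 ((vo_finite hD).mem_toFinset.2 h)
    change δ q - o q = 0
    rw [h1, h2]
    simp

end

section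

variable {k : Type*} [Field k] [CharZero k] [IsAlgClosed k]
  {E0 E : Type*} [Field E0] [Field E] [Algebra k E0] [Algebra k E] [Algebra E0 E]
  [IsScalarTower k E0 E] [IsFF k E0] [IsFF k E] [FiniteDimensional E0 E]

open scoped Classical in
theorem sum_ge (B0 : Place k E0 → Prop) (δ : Place k E0 → ℚ) (hfin : {q | δ q ≠ 0}.Finite)
    (h0 : ∀ q, 0 ≤ δ q) (r : Place k E0 → ℕ) (hr : ∀ q, ∃ w : Place k E, Over w q (r q)) (N : ℕ)
    (hat : ∀ q, (B0 q → 1 ≤ δ q) ∧ (¬ B0 q → ∀ (w : Place k E) e, Over w q e →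
      1 - 1 / ((min e N : ℕ) : ℚ) ≤ δ q)) (S : Finset (Place k E0)) :
    ∑ q ∈ S, (if B0 q then 1 else 1 - 1 / ((min (r q) N : ℕ) : ℚ)) ≤
      ∑ q ∈ hfin.toFinset, δ q := by
  have h1 : ∑ q ∈ S, (if B0 q then 1 else 1 - 1 / ((min (r q) N : ℕ) : ℚ)) ≤ ∑ q ∈ S, δ q := by
    refine Finset.sum_le_sum fun q _ => ?_
    obtain ⟨w, hw⟩ := hr q
    split_ifs with h
    · exact (hat q).1 h
    · exact (hat q).2 h w _ hw
  refine h1.trans ?_
  have h2 : ∑ q ∈ hfin.toFinset, δ q = ∑ q ∈ S ∪ hfin.toFinset, δ q := by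
    refine Finset.sum_subset Finset.subset_union_right fun q _ hq => ?_
    by_contra h
    exact hq (hfin.mem_toFinset.2 h)
  rw [h2]
  exact Finset.sum_le_sum_of_subset_of_nonneg Finset.subset_union_left fun q _ _ => h0 q

/-- A form on the quotient curve: orbifold divisor of nonnegative degree. -/
theorem exists_goodX {H : Type*} [Group H] [Finite H] (ρ : H →* (E ≃ₐ[k] E))
    (hfix : ∀ (h : H) (z : E0), ρ h (algebraMap E0 E z) = algebraMap E0 E z)
    (hinv : ∀ z : E, (∀ h, ρ h z = z) → ∃ z0, algebraMap E0 E z0 = z)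
    (B0 : Place k E0 → Prop) (hlog : HasLog E B0) (δ : Place k E0 → ℚ)
    (hfin : {q | δ q ≠ 0}.Finite) (h01 : ∀ q, 0 ≤ δ q ∧ δ q ≤ 1)
    (hadm : (∃ (D : Derivation k E0 E0) (o : Place k E0 → ℤ), D ≠ 0 ∧
        (∀ q, ∀ t, q.ord t = 1 → q.ord (D t) = o q) ∧ 0 ≤ ∑ᶠ q, (δ q - o q)) ∨
      ∃ N, (∀ q, (B0 q → 1 ≤ δ q) ∧ (¬ B0 q → ∀ (w : Place k E) e, Over w q e →
        1 - 1 / ((min e N : ℕ) : ℚ) ≤ δ q)) ∧ (6 ≤ N ∨
        (4 ≤ N ∧ ∀ (w : Place k E) (q : Place k E0), ¬ Over w q 3) ∨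
        (3 ≤ N ∧ ∀ (w : Place k E) (q : Place k E0), ¬ Over w q 2) ∨ (2 ≤ N ∧ ∃ q, B0 q))) :
    ∃ (m : ℕ) (D0 : Derivation k E0 E0) (c : E0), 1 ≤ m ∧ D0 ≠ 0 ∧ c ≠ 0 ∧
      GoodX B0 (fun q => 1 - δ q) m D0 c := by
  classical
  refine one_goodX B0 δ hfin.toFinset (fun q hq => by
    by_contra h
    exact hq (hfin.mem_toFinset.2 h)) h01 ?_
  rcases hadm with ⟨D, o, hD, ho, hd⟩ | ⟨N, hat, hN⟩
  · rwa [finsum_deg δ hfin D hD o ho] at hd
  · obtain ⟨T, r, hr, hsum⟩ := weak_ineq ρ hfix hinv B0 hlog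
    have hr1 : ∀ q, 1 ≤ r q := fun q => by
      obtain ⟨w, hw⟩ := hr q
      exact hw.1
    obtain ⟨S, hS⟩ := truncate_weak B0 T r hr1 hsum N (by
      rcases hN with h | ⟨h, h'⟩ | ⟨h, h'⟩ | h
      · exact Or.inl h
      · refine Or.inr (Or.inl ⟨h, fun q hq => ?_⟩)
        obtain ⟨w, hw⟩ := hr q
        rw [hq] at hw
        exact h' w q hw
      · refine Or.inr (Or.inr (Or.inl ⟨h, fun q hq => ?_⟩))
        obtain ⟨w, hw⟩ := hr q
        rw [hq] at hw
        exact h' w q hw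
      · exact Or.inr (Or.inr (Or.inr h)))
    have h1 := sum_ge B0 δ hfin (fun q => (h01 q).1) r hr N hat S
    linarith

/-- Two forms on the quotient of a hyperbolic curve: orbifold divisor of positive degree. -/
theorem exists_two_goodX {H : Type*} [Group H] [Finite H] (ρ : H →* (E ≃ₐ[k] E))
    (hfix : ∀ (h : H) (z : E0), ρ h (algebraMap E0 E z) = algebraMap E0 E z)
    (hinv : ∀ z : E, (∀ h, ρ h z = z) → ∃ z0, algebraMap E0 E z0 = z)
    (B0 : Place k E0 → Prop) (hfinB : (UB1 E B0).Finite)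
    (hpos : 0 < canDeg k E + (UB1 E B0).ncard) (δ : Place k E0 → ℚ)
    (hfin : {q | δ q ≠ 0}.Finite) (h01 : ∀ q, 0 ≤ δ q ∧ δ q ≤ 1)
    (hadm : (∃ (D : Derivation k E0 E0) (o : Place k E0 → ℤ), D ≠ 0 ∧
        (∀ q, ∀ t, q.ord t = 1 → q.ord (D t) = o q) ∧ 0 < ∑ᶠ q, (δ q - o q)) ∨
      ∃ N, (∀ q, (B0 q → 1 ≤ δ q) ∧ (¬ B0 q → ∀ (w : Place k E) e, Over w q e →
        1 - 1 / ((min e N : ℕ) : ℚ) ≤ δ q)) ∧ (7 ≤ N ∨
        (5 ≤ N ∧ ∀ (w : Place k E) (q : Place k E0), ¬ Over w q 3) ∨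
        (4 ≤ N ∧ ∀ (w : Place k E) (q : Place k E0), ¬ Over w q 2) ∨ (3 ≤ N ∧ ∃ q, B0 q))) :
    ∃ (m : ℕ) (D0 : Derivation k E0 E0) (c c' : E0), 1 ≤ m ∧ D0 ≠ 0 ∧ c ≠ 0 ∧ c' ≠ 0 ∧
      GoodX B0 (fun q => 1 - δ q) m D0 c ∧ GoodX B0 (fun q => 1 - δ q) m D0 c' ∧
      Transcendental k (c' / c) := by
  classical
  refine two_goodX B0 δ hfin.toFinset (fun q hq => by
    by_contra h
    exact hq (hfin.mem_toFinset.2 h)) h01 ?_
  rcases hadm with ⟨D, o, hD, ho, hd⟩ | ⟨N, hat, hN⟩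
  · rwa [finsum_deg δ hfin D hD o ho] at hd
  · obtain ⟨T, r', hr', hsum'⟩ := strict_ineq ρ hfix hinv B0 hfinB hpos
    have hex : ∀ q : Place k E0, ∃ e, ∃ w : Place k E, Over w q e := fun q => exists_place_over q
    choose r hr using hex
    have hr1 : ∀ q, 1 ≤ r q := fun q => by
      obtain ⟨w, hw⟩ := hr q
      exact hw.1
    have hsum : (0 : ℚ) < canDeg k E0 + ∑ q ∈ T, (if B0 q then 1 else 1 - 1 / (r q : ℚ)) := by
      refine lt_of_lt_of_le hsum' ?_
      have h1 : ∑ q ∈ T, (if B0 q then 1 else 1 - 1 / (r' q : ℚ)) ≤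
          ∑ q ∈ T, (if B0 q then 1 else 1 - 1 / (r q : ℚ)) := by
        refine Finset.sum_le_sum fun q _ => ?_
        split_ifs
        · exact le_rfl
        · obtain ⟨w, hw⟩ := hr q
          have h2 : (1 : ℚ) ≤ r' q := by exact_mod_cast (hr' q).1
          have h3 : (r' q : ℚ) ≤ r q := by exact_mod_cast (hr' q).2 w _ hw
          have h4 := one_div_le_one_div_of_le (by linarith) h3
          linarith
      linarith
    obtain ⟨S, hS⟩ := truncate_strict B0 T r hr1 hsum N (by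
      rcases hN with h | ⟨h, h'⟩ | ⟨h, h'⟩ | h
      · exact Or.inl h
      · refine Or.inr (Or.inl ⟨h, fun q hq => ?_⟩)
        obtain ⟨w, hw⟩ := hr q
        rw [hq] at hw
        exact h' w q hw
      · refine Or.inr (Or.inr (Or.inl ⟨h, fun q hq => ?_⟩))
        obtain ⟨w, hw⟩ := hr q
        rw [hq] at hw
        exact h' w q hw
      · exact Or.inr (Or.inr (Or.inr h)))
    have h1 := sum_ge B0 δ hfin (fun q => (h01 q).1) r hr N hat S
    linarith

end

end Pool.Agent.W619.X
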