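import Pool.Agent.W619.X.Cond

/-! Final theorems on quotients of generically finite covers of products of curves. -/

set_option autoImplicit false
set_option linter.overlappingInstances false
set_option linter.unusedSectionVars false

universe u v

open Polynomial FF IntermediateField Pool.Agent.W619.PQ Pool.Agent.W619.PL Pool.Agent.W619.TW

namespace Pool.Agent.W619.X

open Pool.Agent.W603.LV

section

variable {k : Type v} {L : Type u} [Field k] [Field L] [Algebra k L]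

/-- Nonvanishing, with boundary. -/
theorem nvL [CharZero k] [IsAlgClosed k] (n : ℕ) (hn : Algebra.trdeg k L = n)
    (F : Fin n → IntermediateField k L) (hF : ∀ i, IsFF k (F i))
    (halg : Algebra.IsAlgebraic ↥(⨆ i, F i) L)
    (G : Subgroup (L ≃ₐ[k] L)) [Finite G] (hst : ∀ i, ∀ g ∈ G, ∀ z ∈ F i, g z ∈ F i)
    (B : ∀ i, Set (Place k ↥(F i ⊓ fixedField G))) (hB : ∀ i, (B i).Finite)
    (h : LogNonnegCond G F B) :
    ((∀ i, ¬ IsNegative inf_le_left (B i)) → IsEff k (fixedField G) n (QBd F G B)) ∧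
    ((⨆ i, F i = ⊤) →
      (IsPsef k (fixedField G) n (QBd F G B) ↔ IsEff k (fixedField G) n (QBd F G B)) ∧
      (IsEff k (fixedField G) n (QBd F G B) ↔ ∀ i, ¬ IsNegative inf_le_left (B i))) := by
  obtain ⟨δ, h1, h2⟩ := lognonneg_exists F hF G hst B hB h
  refine ⟨(nv_xg n hn F hF halg G hst B δ h1 h2).1, fun hsup => ?_⟩
  exact nv_x_log n hn F hF hsup G hst B δ h1 h2

/-- Nonvanishing, without boundary. -/
theorem nvC [CharZero k] [IsAlgClosed k] (n : ℕ) (hn : Algebra.trdeg k L = n)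
    (F : Fin n → IntermediateField k L) (hF : ∀ i, IsFF k (F i))
    (halg : Algebra.IsAlgebraic ↥(⨆ i, F i) L)
    (G : Subgroup (L ≃ₐ[k] L)) [Finite G] (hst : ∀ i, ∀ g ∈ G, ∀ z ∈ F i, g z ∈ F i)
    (h : NonnegCond G F) :
    ((∀ i, ¬ ∃ t : F i, k⟮t⟯ = ⊤) → IsEff k (fixedField G) n (fun _ => False)) ∧
    ((⨆ i, F i = ⊤) →
      (IsPsef k (fixedField G) n (fun _ => False) ↔ IsEff k (fixedField G) n (fun _ => False)) ∧
      (IsEff k (fixedField G) n (fun _ => False) ↔ ∀ i, ¬ ∃ t : F i, k⟮t⟯ = ⊤) ∧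
      (IsUniruled k (fixedField G) n ∨ IsEff k (fixedField G) n (fun _ => False))) := by
  obtain ⟨δ, h1, h2⟩ := nonneg_exists F hF G hst h
  refine ⟨fun hirr => ?_, fun hsup => nv_x_compact n hn F hF hsup G hst δ h1 h2⟩
  have h3 := (nv_xg n hn F hF halg G hst (fun _ => ∅) δ
    (fun i => by rw [isNegative_iff]; exact h1 i) h2).1
    fun i hi => hirr i ((isNegative_iff _).1 hi)
  rwa [qbd_empty] at h3

/-- Kodaira dimension `-∞`. -/
theorem kappaC [CharZero k] [IsAlgClosed k] (n : ℕ) (hn : Algebra.trdeg k L = n)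
    (F : Fin n → IntermediateField k L) (hF : ∀ i, IsFF k (F i))
    (halg : Algebra.IsAlgebraic ↥(⨆ i, F i) L)
    (G : Subgroup (L ≃ₐ[k] L)) [Finite G] (hst : ∀ i, ∀ g ∈ G, ∀ z ∈ F i, g z ∈ F i)
    (h : NonnegCond G F) :
    (KodairaNeg k (fixedField G) n → ∃ i, ∃ t : F i, k⟮t⟯ = ⊤) ∧
    ((⨆ i, F i = ⊤) → (∃ i, ∃ t : F i, k⟮t⟯ = ⊤) →
      KodairaNeg k (fixedField G) n ∧ IsUniruled k (fixedField G) n) := by
  obtain ⟨h1, h2⟩ := nvC n hn F hF halg G hst h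
  constructor
  · intro hκ
    by_contra hcon
    have h3 := h1 fun i hi => hcon ⟨i, hi⟩
    exact (kodairaNeg_of_not_eff.2 hκ) h3
  · intro hsup hi
    obtain ⟨h3, h4, h5⟩ := h2 hsup
    refine ⟨kodairaNeg_of_not_eff.1 fun h6 => ?_, uniruled_of_rational n hn F hF hsup G hi⟩
    obtain ⟨i, hi⟩ := hi
    exact h4.1 h6 i hi

/-- Kodaira and numerical dimension, with boundary. -/
theorem knL [CharZero k] [IsAlgClosed k] (n : ℕ) (hn : Algebra.trdeg k L = n)
    (F : Fin n → IntermediateField k L) (hF : ∀ i, IsFF k (F i))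
    (halg : Algebra.IsAlgebraic ↥(⨆ i, F i) L)
    (G : Subgroup (L ≃ₐ[k] L)) [Finite G] (hst : ∀ i, ∀ g ∈ G, ∀ z ∈ F i, g z ∈ F i)
    (B : ∀ i, Set (Place k ↥(F i ⊓ fixedField G))) (hB : ∀ i, (B i).Finite)
    (h : LogPosCond G F B) :
    ((∀ i, ¬ IsNegative inf_le_left (B i)) →
      KodGe k (fixedField G) n (QBd F G B) {i | ¬ IsFlat inf_le_left (B i)}.ncard ∧
      ((⨆ i, F i = ⊤) →
        NumLe k (fixedField G) n (QBd F G B) {i | ¬ IsFlat inf_le_left (B i)}.ncard)) ∧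
    ((⨆ i, F i = ⊤) → (∃ i, IsNegative inf_le_left (B i)) →
      NumNeg k (fixedField G) n (QBd F G B)) := by
  obtain ⟨δ, h1, h2⟩ := logpos_exists F hF G hst B hB h
  exact (kn_xg n hn F hF halg G hst B hB δ h1 h2).symm

/-- Kodaira and numerical dimension, without boundary. -/
theorem knC [CharZero k] [IsAlgClosed k] (n : ℕ) (hn : Algebra.trdeg k L = n)
    (F : Fin n → IntermediateField k L) (hF : ∀ i, IsFF k (F i))
    (halg : Algebra.IsAlgebraic ↥(⨆ i, F i) L)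
    (G : Subgroup (L ≃ₐ[k] L)) [Finite G] (hst : ∀ i, ∀ g ∈ G, ∀ z ∈ F i, g z ∈ F i)
    (h : PosCond G F) :
    ((∀ i, ¬ ∃ t : F i, k⟮t⟯ = ⊤) →
      KodGe k (fixedField G) n (fun _ => False) {i | ¬ IsElliptic (F i)}.ncard ∧
      ((⨆ i, F i = ⊤) →
        NumLe k (fixedField G) n (fun _ => False) {i | ¬ IsElliptic (F i)}.ncard)) ∧
    ((⨆ i, F i = ⊤) → (∃ i, ∃ t : F i, k⟮t⟯ = ⊤) →
      NumNeg k (fixedField G) n (fun _ => False) ∧ ¬ IsPsef k (fixedField G) n (fun _ => False) ∧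
      IsUniruled k (fixedField G) n) := by
  obtain ⟨δ, h1, h2⟩ := pos_exists F hF G hst h
  obtain ⟨h3, h4⟩ := kn_xg_compact n hn F hF halg G hst δ h1 h2
  refine ⟨h4, fun hsup hi => ⟨h3 hsup hi, ?_, ?_⟩⟩
  · exact ((minimal_x n hn F hF hsup G hst δ h1 h2).1 hi).1
  · exact uniruled_of_rational n hn F hF hsup G hi

/-- General type, with boundary. -/
theorem gtL [CharZero k] [IsAlgClosed k] (n : ℕ) (hn : Algebra.trdeg k L = n)
    (F : Fin n → IntermediateField k L) (hF : ∀ i, IsFF k (F i))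
    (halg : Algebra.IsAlgebraic ↥(⨆ i, F i) L)
    (G : Subgroup (L ≃ₐ[k] L)) [Finite G] (hst : ∀ i, ∀ g ∈ G, ∀ z ∈ F i, g z ∈ F i)
    (B : ∀ i, Set (Place k ↥(F i ⊓ fixedField G))) (hB : ∀ i, (B i).Finite)
    (h : LogPosCond G F B) :
    ((∀ i, ¬ IsNegative inf_le_left (B i) ∧ ¬ IsFlat inf_le_left (B i)) →
      KodGe k (fixedField G) n (QBd F G B) n) ∧
    ((⨆ i, F i = ⊤) → (∃ i, IsNegative inf_le_left (B i) ∨ IsFlat inf_le_left (B i)) →
      IsLowCovered k (fixedField G) n (QBd F G B)) := by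
  constructor
  · intro hall
    have h4 := ((knL n hn F hF halg G hst B hB h).1 fun i => (hall i).1).1
    have h3 : {i | ¬ IsFlat inf_le_left (B i)} = Set.univ :=
      Set.eq_univ_of_forall fun i => (hall i).2
    rw [h3, Set.ncard_univ, Nat.card_eq_fintype_card, Fintype.card_fin] at h4
    exact h4
  · rintro hsup ⟨i, hi | hi⟩
    · exact covered_of_low n hn F hsup G B i (low_of_negative _ hi)
    · exact covered_of_low n hn F hsup G B i (low_of_flat _ (TT_finite G (F i) (hB i)) hi)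

/-- General type, without boundary. -/
theorem gtC [CharZero k] [IsAlgClosed k] (n : ℕ) (hn : Algebra.trdeg k L = n)
    (F : Fin n → IntermediateField k L) (hF : ∀ i, IsFF k (F i))
    (halg : Algebra.IsAlgebraic ↥(⨆ i, F i) L)
    (G : Subgroup (L ≃ₐ[k] L)) [Finite G] (hst : ∀ i, ∀ g ∈ G, ∀ z ∈ F i, g z ∈ F i)
    (h : PosCond G F) :
    ((∀ i, ¬ (∃ t : F i, k⟮t⟯ = ⊤) ∧ ¬ IsElliptic (F i)) →
      KodGe k (fixedField G) n (fun _ => False) n) ∧
    ((⨆ i, F i = ⊤) → (∃ i, (∃ t : F i, k⟮t⟯ = ⊤) ∨ IsElliptic (F i)) →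
      IsRatEllCovered k (fixedField G) n) := by
  constructor
  · intro hall
    have h4 := ((knC n hn F hF halg G hst h).1 fun i => (hall i).1).1
    have h3 : {i | ¬ IsElliptic (F i)} = Set.univ :=
      Set.eq_univ_of_forall fun i => (hall i).2
    rw [h3, Set.ncard_univ, Nat.card_eq_fintype_card, Fintype.card_fin] at h4
    exact h4
  · rintro hsup ⟨i, hi⟩
    have hcur := cur_MM F hsup hn i
    have hFF : IsFF (MM F i) L := hcur.isFF
    refine ⟨L, inferInstance, inferInstance, MM F i, F i, ?_, ?_, hF i, hcur.sup, hn, hi,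
      ⟨(fixedField G).val⟩⟩
    · exact essFiniteType_iff.2 (fg_iSup fun j => essFiniteType_iff.1 (IsFF.ess))
    · rw [← hn, ← trdeg_add_eq k (MM F i) (A := L), hFF.trdeg]

/-- The Campana-Peternell conjecture. -/
theorem cpL [CharZero k] [IsAlgClosed k] (n : ℕ) (hn : Algebra.trdeg k L = n)
    (F : Fin n → IntermediateField k L) (hF : ∀ i, IsFF k (F i)) (hsup : ⨆ i, F i = ⊤)
    (G : Subgroup (L ≃ₐ[k] L)) [Finite G] (hst : ∀ i, ∀ g ∈ G, ∀ z ∈ F i, g z ∈ F i)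
    (B : ∀ i, Set (Place k ↥(F i ⊓ fixedField G))) (hB : ∀ i, (B i).Finite)
    (h : LogPosCond G F B) (r : ℕ) (hr : 1 ≤ r) (a : Place k (fixedField G) → ℤ)
    (hps : IsPsefRest k (fixedField G) n (QBd F G B) r a) (j : ℕ)
    (hA : DivKodGe k (fixedField G) n a j) : KodGe k (fixedField G) n (QBd F G B) j := by
  obtain ⟨δ, h1, h2⟩ := logpos_exists F hF G hst B hB h
  exact cp_x n hn F hF hsup G hst B hB δ h1 h2 r hr a hps j hA

/-- Logarithmic Kodaira dimension `-∞`. -/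
theorem a1L [CharZero k] [IsAlgClosed k] (n : ℕ) (hn : Algebra.trdeg k L = n)
    (F : Fin n → IntermediateField k L) (hF : ∀ i, IsFF k (F i))
    (halg : Algebra.IsAlgebraic ↥(⨆ i, F i) L)
    (G : Subgroup (L ≃ₐ[k] L)) [Finite G] (hst : ∀ i, ∀ g ∈ G, ∀ z ∈ F i, g z ∈ F i)
    (B : ∀ i, Set (Place k ↥(F i ⊓ fixedField G))) (hB : ∀ i, (B i).Finite)
    (h : LogNonnegCond G F B) (hκ : LogKodairaNeg k (fixedField G) n (QBd F G B)) :
    (∃ i, IsNegative inf_le_left (B i)) ∧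
    ((⨆ i, F i = ⊤) → IsA1Uniruled k (fixedField G) n (QBd F G B)) := by
  obtain ⟨δ, h1, h2⟩ := lognonneg_exists F hF G hst B hB h
  refine ⟨?_, fun hsup => a1_x n hn F hF hsup G hst B δ h1 h2 hκ⟩
  by_contra hcon
  have h3 := (nvL n hn F hF halg G hst B hB h).1 fun i hi => hcon ⟨i, hi⟩
  obtain ⟨m, hm, ω, ⟨h2, h3, h4⟩, D, hD⟩ := h3
  refine hD (hκ m hm ω h2 (fun v hv hb D hD => ?_) (fun v hv hb D hD => ?_) D)
  · rcases h3 v hv hb D hD with h5 | ⟨s, hs, hs0, h5⟩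
    · exact Or.inl h5
    · right
      rw [Nat.cast_zero, zero_mul] at h5
      exact h5
  · rcases h4 v hv hb D hD with h5 | ⟨s, hs, hs0, h5⟩
    · exact Or.inl h5
    · right
      rw [Nat.cast_zero, zero_mul] at h5
      exact h5

theorem not_rational_of_elliptic [CharZero k] [IsAlgClosed k] {F : IntermediateField k L}
    [IsFF k F] (h : IsElliptic F) : ¬ ∃ t : F, k⟮t⟯ = ⊤ := by
  rintro ⟨t, ht⟩
  have h1 := canDeg_elliptic h
  rw [canDeg_rational ht] at h1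
  norm_num at h1

/-- Condition for abundance of pairs: as in `PosCond`, where curves such that `Δ` contains a
positive multiple of a fibre (of the map to the quotient curve) are treated like elliptic
curves. -/
def PairCond {n : ℕ} (G : Subgroup (L ≃ₐ[k] L)) (F : Fin n → IntermediateField k L)
    (δ : Place k (fixedField G) → ℚ) : Prop :=
  (Moves 2 G F ∧ ∀ i, Wide 5 (inf_le_left : F i ⊓ fixedField G ≤ F i) ∅ ∨
    ((IsElliptic (F i) ∨ ContainsFibre (inf_le_right : F i ⊓ fixedField G ≤ fixedField G) δ) ∧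
      Wide 4 (inf_le_left : F i ⊓ fixedField G ≤ F i) ∅) ∨
    ∃ t : F i, k⟮t⟯ = ⊤) ∨
  (Moves 7 G F ∨ (Moves 5 G F ∧ ¬ 3 ∣ Nat.card G) ∨ (Moves 4 G F ∧ ¬ 2 ∣ Nat.card G)) ∨
  ∃ η : ∀ i, Place k ↥(F i ⊓ fixedField G) → ℚ,
    (∀ i, OrbGt (inf_le_left : F i ⊓ fixedField G ≤ F i) ∅ (η i) ∨
      ((IsElliptic (F i) ∨ ContainsFibre (inf_le_right : F i ⊓ fixedField G ≤ fixedField G) δ) ∧
        OrbGe (inf_le_left : F i ⊓ fixedField G ≤ F i) ∅ (η i)) ∨
      ∃ t : F i, k⟮t⟯ = ⊤) ∧ RTCond G F (fun _ => ∅) η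

/-- Pairs. -/
theorem pairC [CharZero k] [IsAlgClosed k] (n : ℕ) (hn : Algebra.trdeg k L = n)
    (F : Fin n → IntermediateField k L) (hF : ∀ i, IsFF k (F i))
    (halg : Algebra.IsAlgebraic ↥(⨆ i, F i) L)
    (G : Subgroup (L ≃ₐ[k] L)) [Finite G] (hst : ∀ i, ∀ g ∈ G, ∀ z ∈ F i, g z ∈ F i)
    (δ : Place k (fixedField G) → ℚ) (hδ : ∀ v, 0 ≤ δ v) (P : Set (Fin n))
    (hP : ∀ i ∈ P, (¬ ∃ t : F i, k⟮t⟯ = ⊤) ∧ (¬ IsElliptic (F i) ∨
      ContainsFibre (inf_le_right : F i ⊓ fixedField G ≤ fixedField G) δ))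
    (hQ : ∀ i ∉ P, (∃ t : F i, k⟮t⟯ = ⊤) ∨ IsElliptic (F i))
    (h : PairCond G F δ) :
    ((∀ i, ¬ ∃ t : F i, k⟮t⟯ = ⊤) →
      PairKodGe k (fixedField G) n δ P.ncard ∧
      ((⨆ i, F i = ⊤) → BoundedBy (⨆ i : P, F i) n δ →
        PairNumLe k (fixedField G) n δ P.ncard)) ∧
    ((⨆ i, F i = ⊤) → (∃ i, ∃ t : F i, k⟮t⟯ = ⊤) → BoundedBy (⨆ i : P, F i) n δ →
      ¬ PairPsef k (fixedField G) n δ) := by
  classical
  have hex : ∃ η : ∀ i, Place k ↥(F i ⊓ fixedField G) → ℚ,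
      (∀ i, OrbPos (inf_le_left : F i ⊓ fixedField G ≤ F i) ∅ (η i) ∨
        ((IsElliptic (F i) ∨ ContainsFibre (inf_le_right : F i ⊓ fixedField G ≤ fixedField G) δ) ∧
          OrbNonneg (inf_le_left : F i ⊓ fixedField G ≤ F i) ∅ (η i)) ∨
        ∃ t : F i, k⟮t⟯ = ⊤) ∧ RTCond G F (fun _ => ∅) η := by
    rcases h with ⟨h1, h2⟩ | h | h
    · choose η h3 h4 h5 h6 using fun i => half_factor (F i) (hF := hF i) G (hst i) ∅
        Set.finite_empty
      refine ⟨η, fun i => ?_, half_rt F hF G hst (fun _ => ∅) h1 η h4⟩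
      by_cases hneg : ∃ t : F i, k⟮t⟯ = ⊤
      · exact Or.inr (Or.inr hneg)
      by_cases hflat : IsElliptic (F i) ∨
          ContainsFibre (inf_le_right : F i ⊓ fixedField G ≤ fixedField G) δ
      · refine Or.inr (Or.inl ⟨hflat, h5 i ?_⟩)
        rcases h2 i with h7 | ⟨-, h7⟩ | h7
        · exact h7.imp id fun h8 => by omega
        · exact h7
        · exact absurd h7 hneg
      · rcases h2 i with h7 | ⟨h7, -⟩ | h7
        · refine Or.inl (h6 i h7 ?_ ?_)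
          · rw [isNegative_iff]; exact hneg
          · rw [isFlat_iff]; exact fun h => hflat (Or.inl h)
        · exact absurd h7 hflat
        · exact absurd h7 hneg
    · have hmm : ManyMoved 7 5 4 3 G F (fun _ => ∅) := by
        rcases h with h | ⟨h, h'⟩ | ⟨h, h'⟩
        · exact ⟨7, Or.inl le_rfl, h⟩
        · exact ⟨5, Or.inr (Or.inl ⟨le_rfl, h'⟩), h⟩
        · exact ⟨4, Or.inr (Or.inr (Or.inl ⟨le_rfl, h'⟩)), h⟩
      obtain ⟨η, h1, h2⟩ := pos_of_moved F hF G hst (fun _ => ∅) (fun _ => Set.finite_empty) hmm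
      exact ⟨η, fun i => Or.inl (h1 i), h2⟩
    · obtain ⟨η, h1, h2⟩ := h
      exact ⟨η, fun i => (h1 i).imp OrbGt.pos (Or.imp (And.imp id OrbGe.nonneg) id), h2⟩
  obtain ⟨η, h1, h2⟩ := hex
  have hnn : ∀ i, (¬ ∃ t : F i, k⟮t⟯ = ⊤) →
      OrbNonneg (inf_le_left : F i ⊓ fixedField G ≤ F i) ∅ (η i) := by
    intro i hi
    rcases h1 i with h3 | ⟨-, h3⟩ | h3
    · exact h3.nonneg
    · exact h3
    · exact absurd h3 hi
  refine (pair_xg n hn F hF halg G hst δ hδ P η (fun i hi => ⟨(hP i hi).1, ?_⟩)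
    (fun i hi => ?_) h2).symm
  · by_cases hc : ContainsFibre (inf_le_right : F i ⊓ fixedField G ≤ fixedField G) δ
    · exact Or.inr ⟨hc, hnn i (hP i hi).1⟩
    · have hell := (hP i hi).2.resolve_right hc
      refine Or.inl ⟨hell, ?_⟩
      rcases h1 i with h3 | ⟨h3 | h3, -⟩ | h3
      · exact h3
      · exact absurd h3 hell
      · exact absurd h3 hc
      · exact absurd h3 (hP i hi).1
  · rcases hQ i hi with h3 | h3
    · exact Or.inl h3
    · have := hF i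
      exact Or.inr ⟨h3, hnn i (not_rational_of_elliptic h3)⟩

/-- Each `g` in `G` which moves a curve `F i` with `i` in `J` moves at least `N` of them. -/
def MovesOn {n : ℕ} (N : ℕ) (J : Set (Fin n)) (G : Subgroup (L ≃ₐ[k] L))
    (F : Fin n → IntermediateField k L) : Prop :=
  ∀ g ∈ G, (∃ i ∈ J, ∃ z ∈ F i, g z ≠ z) → N ≤ {i | i ∈ J ∧ ∃ z ∈ F i, g z ≠ z}.ncard

/-- Condition for nonvanishing on the set `J` of irrational curves: (a) each `g` in `G` which moves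
one of these curves moves at least `2` of them, and their quotients are `Wide 4` (irrational or
with at least `4` branch points); or (b) each such `g` moves at least `6` of them (`4` if `3` does
not divide the order of `G`, `3` if the order is odd); or (c) there are orbifold divisors `δ i`
of nonnegative degree on their quotients which satisfy the condition of Reid-Tai type. -/
def NonnegCondOn {n : ℕ} (J : Set (Fin n)) (G : Subgroup (L ≃ₐ[k] L))
    (F : Fin n → IntermediateField k L) : Prop :=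
  (MovesOn 2 J G F ∧ ∀ i ∈ J, Wide 4 (inf_le_left : F i ⊓ fixedField G ≤ F i) ∅) ∨
  (MovesOn 6 J G F ∨ (MovesOn 4 J G F ∧ ¬ 3 ∣ Nat.card G) ∨
    (MovesOn 3 J G F ∧ ¬ 2 ∣ Nat.card G)) ∨
  ∃ δ : ∀ i, Place k ↥(F i ⊓ fixedField G) → ℚ,
    (∀ i ∈ J, OrbGe (inf_le_left : F i ⊓ fixedField G ≤ F i) ∅ (δ i)) ∧ RTCondOn J G F δ

theorem rtOn_of {n : ℕ} {J : Set (Fin n)} {G : Subgroup (L ≃ₐ[k] L)}
    {F : Fin n → IntermediateField k L} {N : ℕ} (hN : 1 ≤ N) (hmv : MovesOn N J G F)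
    (δ : ∀ i, Place k ↥(F i ⊓ fixedField G) → ℚ)
    (h : ∀ g ∈ G, ∀ ζ : k, IsPrimitiveRoot ζ (orderOf g) → ∀ i, ∀ (y : ℚ) (q : Place k (F i))
        (p : Place k ↥(F i ⊓ fixedField G)) (a e : ℕ), 0 < a → a < orderOf g →
        IsRot (F i) g q (ζ ^ a) → LiesOver inf_le_left q p e →
        y = (a / orderOf g) * e * (1 - δ i p) → 1 / (N : ℚ) ≤ y) : RTCondOn J G F δ := by
  intro g hg hg1 ζ hζ y hy0 hy
  have hNq : (0 : ℚ) < 1 / N := by
    have : (0 : ℚ) < N := by exact_mod_cast hN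
    positivity
  refine sum_ge_of_moved hN _ (hmv g hg hg1) y (fun i => ?_) (fun i hi => ?_)
  · by_cases hiJ : i ∈ J
    · rcases hy i hiJ with h' | ⟨q, p, a, e, h3, h4, h5, h6, h8⟩
      · exact h'.1.ge
      · exact hNq.le.trans (h g hg ζ hζ i (y i) q p a e h3 h4 h5 h6 h8)
    · exact (hy0 i hiJ).ge
  · rcases hy i hi.1 with h' | ⟨q, p, a, e, h3, h4, h5, h6, h8⟩
    · obtain ⟨-, z, hz, hz'⟩ := hi
      exact absurd (h'.2 z hz) hz'
    · exact h g hg ζ hζ i (y i) q p a e h3 h4 h5 h6 h8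

/-- Mumford's conjecture. -/
theorem mumC [CharZero k] [IsAlgClosed k] (n : ℕ) (hn : Algebra.trdeg k L = n)
    (F : Fin n → IntermediateField k L) (hF : ∀ i, IsFF k (F i)) (hsup : ⨆ i, F i = ⊤)
    (G : Subgroup (L ≃ₐ[k] L)) [Finite G] (hst : ∀ i, ∀ g ∈ G, ∀ z ∈ F i, g z ∈ F i)
    (J : Set (Fin n)) (hJ : ∀ i ∈ J, ¬ ∃ t : F i, k⟮t⟯ = ⊤)
    (hJrat : J = ∅ → ∀ i, ∃ t : F i, k⟮t⟯ = ⊤) (h : NonnegCondOn J G F)
    (hT : TensorVanish k (fixedField G) n) :
    (∀ i, ∃ t : F i, k⟮t⟯ = ⊤) ∧ IsUnirational k (fixedField G) n := by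
  have hex : ∃ δ : ∀ i, Place k ↥(F i ⊓ fixedField G) → ℚ,
      (∀ i ∈ J, OrbNonneg (inf_le_left : F i ⊓ fixedField G ≤ F i) ∅ (δ i)) ∧
        RTCondOn J G F δ := by
    rcases h with ⟨h1, h2⟩ | h | h
    · choose δ h3 h4 h5 h6 using fun i => half_factor (F i) (hF := hF i) G (hst i) ∅
        Set.finite_empty
      refine ⟨δ, fun i hi => h5 i (h2 i hi), rtOn_of (by norm_num) h1 δ ?_⟩
      intro g hg ζ hζ i y q p a e ha had hrot hle hy
      have hd : 0 < orderOf g := by omega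
      have h9 := (delta_exists (F i) (hF := hF i) G (hst i) ∅ Set.finite_empty 1 le_rfl).2.2 g hg q
        p ζ (orderOf g) a e hd ha hζ hrot hle
      have h10 : (1 : ℚ) ≤ (a / orderOf g) * e := by
        have hdq : (0 : ℚ) < orderOf g := by exact_mod_cast hd
        rw [div_mul_eq_mul_div, le_div_iff₀ hdq, one_mul]
        exact_mod_cast h9
      have h11 := h4 i p (Set.notMem_empty p)
      rw [hy]
      push_cast
      nlinarith
    · have key : ∀ N : ℕ, 1 ≤ N → MovesOn N J G F →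
          (6 ≤ N ∨ (4 ≤ N ∧ ¬ 3 ∣ Nat.card G) ∨ (3 ≤ N ∧ ¬ 2 ∣ Nat.card G)) →
          ∃ δ : ∀ i, Place k ↥(F i ⊓ fixedField G) → ℚ,
            (∀ i ∈ J, OrbNonneg (inf_le_left : F i ⊓ fixedField G ≤ F i) ∅ (δ i)) ∧
              RTCondOn J G F δ := by
        intro N hN hmv hcase
        obtain ⟨δ, h1, h2⟩ := many_aux F hF G hst (fun _ => ∅) (fun _ => Set.finite_empty) N hN
        refine ⟨δ, fun i _ => ⟨(h1 i).1, Or.inr ⟨N, (h1 i).2, ?_⟩⟩, rtOn_of hN hmv δ ?_⟩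
        · rcases hcase with h | ⟨h, h'⟩ | ⟨h, h'⟩
          · exact Or.inl h
          · exact Or.inr (Or.inl ⟨h, fun w q => index_of_moved F hF G hst h' i w q⟩)
          · exact Or.inr (Or.inr (Or.inl ⟨h, fun w q => index_of_moved F hF G hst h' i w q⟩))
        · intro g hg ζ hζ i y q p a e ha had hrot hle hy
          exact h2 g hg ζ hζ i y q p a e ha had hrot hle (Set.notMem_empty p) hy
      rcases h with h | ⟨h, h'⟩ | ⟨h, h'⟩
      · exact key 6 (by norm_num) h (Or.inl le_rfl)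
      · exact key 4 (by norm_num) h (Or.inr (Or.inl ⟨le_rfl, h'⟩))
      · exact key 3 (by norm_num) h (Or.inr (Or.inr ⟨le_rfl, h'⟩))
    · obtain ⟨δ, h1, h2⟩ := h
      exact ⟨δ, fun i hi => (h1 i hi).nonneg, h2⟩
  obtain ⟨δ, h1, h2⟩ := hex
  exact mumford_x n hn F hF hsup G hst J hJrat δ (fun i hi => ⟨hJ i hi, h1 i hi⟩) h2 hT

end

end Pool.Agent.W619.X
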