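import Pool.Agent.W619.X.A1

/-! Final forms of the theorems on quotients of products of curves. -/

set_option autoImplicit false
set_option linter.overlappingInstances false
set_option linter.unusedSectionVars false

universe u v

open Polynomial FF IntermediateField Pool.Agent.W619.PQ Pool.Agent.W619.PL Pool.Agent.W619.TW

namespace Pool.Agent.W619.X

section

variable {k : Type v} {L : Type u} [Field k] [Field L] [Algebra k L]

theorem OrbPos.nonneg {Q F : IntermediateField k L} {h : Q ≤ F} {B : Set (Place k Q)}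
    {δ : Place k Q → ℚ} (hp : OrbPos h B δ) : OrbNonneg h B δ := by
  refine ⟨hp.1, ?_⟩
  rcases hp.2 with ⟨d, h1, h2⟩ | ⟨N, h1, h2⟩
  · exact Or.inl ⟨d, h1, h2.le⟩
  · refine Or.inr ⟨N, h1, ?_⟩
    rcases h2 with h2 | ⟨h2, h3⟩ | ⟨h2, h3⟩ | ⟨h2, h3⟩
    · exact Or.inl (by omega)
    · exact Or.inr (Or.inl ⟨by omega, h3⟩)
    · exact Or.inr (Or.inr (Or.inl ⟨by omega, h3⟩))
    · exact Or.inr (Or.inr (Or.inr ⟨by omega, h3⟩))

/-- Logarithmic Kodaira dimension `-∞` and `A¹`-uniruledness. -/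
theorem a1_x [CharZero k] [IsAlgClosed k] (n : ℕ) (hn : Algebra.trdeg k L = n)
    (F : Fin n → IntermediateField k L) (hF : ∀ i, IsFF k (F i)) (hsup : ⨆ i, F i = ⊤)
    (G : Subgroup (L ≃ₐ[k] L)) [Finite G] (hst : ∀ i, ∀ g ∈ G, ∀ z ∈ F i, g z ∈ F i)
    (B : ∀ i, Set (Place k ↥(F i ⊓ fixedField G)))
    (δ : ∀ i, Place k ↥(F i ⊓ fixedField G) → ℚ)
    (hδ : ∀ i, OrbNonneg inf_le_left (B i) (δ i) ∨ IsNegative inf_le_left (B i))
    (hrot : RTCond G F B δ)
    (hκ : LogKodairaNeg k (fixedField G) n (QBd F G B)) :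
    IsA1Uniruled k (fixedField G) n (QBd F G B) := by
  by_cases hneg : ∃ i, IsNegative inf_le_left (B i)
  · clear hκ
    let E0 : Fin n → Type u := fun i => ↥(F i ⊓ fixedField G)
    let _ : ∀ i, Field (E0 i) := fun i => inferInstanceAs (Field ↥(F i ⊓ fixedField G))
    let _ : ∀ i, Algebra k (E0 i) := fun i => inferInstanceAs (Algebra k ↥(F i ⊓ fixedField G))
    let _ : ∀ i, Algebra (E0 i) (F i) := fun i =>
      (inclusion (inf_le_left : F i ⊓ fixedField G ≤ F i)).toRingHom.toAlgebra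
    let _ : ∀ i, Algebra (E0 i) (fixedField G) := fun i =>
      (inclusion (inf_le_right : F i ⊓ fixedField G ≤ fixedField G)).toRingHom.toAlgebra
    let _ : ∀ i, Algebra (E0 i) L := fun i => inferInstanceAs (Algebra ↥(F i ⊓ fixedField G) L)
    have t1 : ∀ i, IsScalarTower k (E0 i) (F i) := fun i =>
      IsScalarTower.of_algebraMap_eq fun c => rfl
    have t2 : ∀ i, IsScalarTower k (E0 i) L := fun i =>
      IsScalarTower.of_algebraMap_eq fun c => rfl
    have t3 : ∀ i, IsScalarTower k (E0 i) (fixedField G) := fun i =>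
      IsScalarTower.of_algebraMap_eq fun c => rfl
    have t4 : ∀ i, IsScalarTower (E0 i) (F i) L := fun i =>
      IsScalarTower.of_algebraMap_eq fun c => rfl
    have t5 : ∀ i, IsScalarTower (E0 i) (fixedField G) L := fun i =>
      IsScalarTower.of_algebraMap_eq fun c => rfl
    have f1 : ∀ i, FiniteDimensional (E0 i) (F i) := fun i =>
      inf_finite G (F i) (hst i) fun z => rfl
    have f2 : ∀ i, IsFF k (E0 i) := fun i => isFF_down (E := F i)
    have hBd : QBd F G B = Bdry (E0 := E0) (fun i q => q ∈ B i) := by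
      funext v
      apply propext
      constructor
      · rintro ⟨i, p, hp, e, h⟩
        exact ⟨i, p, e, h, hp⟩
      · rintro ⟨i, p, e, h, hp⟩
        exact ⟨i, p, hp, e, h⟩
    rw [hBd]
    obtain ⟨i0, ⟨t0, ht0⟩, huniq⟩ := hneg
    refine a1_abstract n hn F hsup G (E0 := E0) (fun i q => q ∈ B i) i0 t0 ht0 ?_
    intro w1 w2 q1 q2 e1 e2 hne h1 h2 h3 h4
    exact hne (huniq w1 w2 ⟨q1, h3, e1, h1⟩ ⟨q2, h4, e2, h2⟩)
  · exfalso
    have h1 := (nv_x n hn F hF hsup G hst B δ hδ hrot).1 fun i hi => hneg ⟨i, hi⟩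
    obtain ⟨m, hm, ω, ⟨h2, h3, h4⟩, D, hD⟩ := h1
    refine hD (hκ m hm ω h2 (fun v hv hb D hD => ?_) (fun v hv hb D hD => ?_) D)
    · rcases h3 v hv hb D hD with h5 | ⟨s, hs, hs0, h5⟩
      · exact Or.inl h5
      · right
        rw [Nat.cast_zero, zero_mul] at h5
        exact h5
    · rcases h4 v hv hb D hD with h5 | ⟨s, hs, hs0, h5⟩
      · exact Or.inl h5
      · right
        rw [Nat.cast_zero, zero_mul] at h5
        exact h5

/-- Kodaira dimension `-∞`, rational factors and uniruledness. -/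
theorem kappa_x [CharZero k] [IsAlgClosed k] (n : ℕ) (hn : Algebra.trdeg k L = n)
    (F : Fin n → IntermediateField k L) (hF : ∀ i, IsFF k (F i)) (hsup : ⨆ i, F i = ⊤)
    (G : Subgroup (L ≃ₐ[k] L)) [Finite G] (hst : ∀ i, ∀ g ∈ G, ∀ z ∈ F i, g z ∈ F i)
    (δ : ∀ i, Place k ↥(F i ⊓ fixedField G) → ℚ)
    (hδ : ∀ i, OrbNonneg (inf_le_left : F i ⊓ fixedField G ≤ F i) ∅ (δ i) ∨
      ∃ t : F i, k⟮t⟯ = ⊤)
    (hrot : RTCond G F (fun _ => ∅) δ) :
    (KodairaNeg k (fixedField G) n ↔ ∃ i, ∃ t : F i, k⟮t⟯ = ⊤) ∧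
    (KodairaNeg k (fixedField G) n → IsUniruled k (fixedField G) n) := by
  obtain ⟨-, h2, h3⟩ := nv_x_compact n hn F hF hsup G hst δ hδ hrot
  rw [← kodairaNeg_of_not_eff]
  refine ⟨?_, fun h => h3.resolve_right h⟩
  rw [h2]
  push Not
  exact Iff.rfl

/-- The canonical divisor is not pseudo-effective or abundant. -/
theorem minimal_x [CharZero k] [IsAlgClosed k] (n : ℕ) (hn : Algebra.trdeg k L = n)
    (F : Fin n → IntermediateField k L) (hF : ∀ i, IsFF k (F i)) (hsup : ⨆ i, F i = ⊤)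
    (G : Subgroup (L ≃ₐ[k] L)) [Finite G] (hst : ∀ i, ∀ g ∈ G, ∀ z ∈ F i, g z ∈ F i)
    (δ : ∀ i, Place k ↥(F i ⊓ fixedField G) → ℚ)
    (hδ : ∀ i, OrbPos (inf_le_left : F i ⊓ fixedField G ≤ F i) ∅ (δ i) ∨
      (IsElliptic (F i) ∧ OrbNonneg (inf_le_left : F i ⊓ fixedField G ≤ F i) ∅ (δ i)) ∨
      ∃ t : F i, k⟮t⟯ = ⊤)
    (hrot : RTCond G F (fun _ => ∅) δ) :
    ((∃ i, ∃ t : F i, k⟮t⟯ = ⊤) → ¬ IsPsef k (fixedField G) n (fun _ => False) ∧
      IsUniruled k (fixedField G) n) ∧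
    ((∀ i, ¬ ∃ t : F i, k⟮t⟯ = ⊤) →
      KodGe k (fixedField G) n (fun _ => False) {i | ¬ IsElliptic (F i)}.ncard ∧
      NumLe k (fixedField G) n (fun _ => False) {i | ¬ IsElliptic (F i)}.ncard) := by
  have hδ' : ∀ i, OrbNonneg (inf_le_left : F i ⊓ fixedField G ≤ F i) ∅ (δ i) ∨
      ∃ t : F i, k⟮t⟯ = ⊤ := by
    intro i
    rcases hδ i with h | ⟨-, h⟩ | h
    · exact Or.inl h.nonneg
    · exact Or.inl h
    · exact Or.inr h
  obtain ⟨h1, h2, h3⟩ := nv_x_compact n hn F hF hsup G hst δ hδ' hrot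
  refine ⟨fun hi => ⟨fun hp => ?_, uniruled_of_rational n hn F hF hsup G hi⟩,
    (kn_x_compact n hn F hF hsup G hst δ hδ hrot).2⟩
  obtain ⟨i, hi⟩ := hi
  exact (h2.1 (h1.1 hp)) i hi

/-- Log general type, or covered by images of a curve which is not of log general type. -/
theorem gt_x [CharZero k] [IsAlgClosed k] (n : ℕ) (hn : Algebra.trdeg k L = n)
    (F : Fin n → IntermediateField k L) (hF : ∀ i, IsFF k (F i)) (hsup : ⨆ i, F i = ⊤)
    (G : Subgroup (L ≃ₐ[k] L)) [Finite G] (hst : ∀ i, ∀ g ∈ G, ∀ z ∈ F i, g z ∈ F i)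
    (B : ∀ i, Set (Place k ↥(F i ⊓ fixedField G))) (hB : ∀ i, (B i).Finite)
    (δ : ∀ i, Place k ↥(F i ⊓ fixedField G) → ℚ)
    (hδ : ∀ i, OrbPos inf_le_left (B i) (δ i) ∨
      (IsFlat inf_le_left (B i) ∧ OrbNonneg inf_le_left (B i) (δ i)) ∨
      IsNegative inf_le_left (B i))
    (hrot : RTCond G F B δ) :
    KodGe k (fixedField G) n (QBd F G B) n ∨ IsLowCovered k (fixedField G) n (QBd F G B) := by
  by_cases hneg : ∃ i, IsNegative inf_le_left (B i)
  · obtain ⟨i, hi⟩ := hneg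
    exact Or.inr (covered_of_low n hn F hsup G B i (low_of_negative _ hi))
  · by_cases hfl : ∃ i, IsFlat inf_le_left (B i)
    · obtain ⟨i, hi⟩ := hfl
      exact Or.inr (covered_of_low n hn F hsup G B i (low_of_flat _ (TT_finite G (F i) (hB i)) hi))
    · left
      obtain ⟨h1, h2⟩ := kn_x n hn F hF hsup G hst B hB δ hδ hrot
      push Not at hneg hfl
      have h3 : {i | ¬ IsFlat inf_le_left (B i)} = Set.univ :=
        Set.eq_univ_of_forall fun i => hfl i
      have h4 := (h2 hneg).1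
      rw [h3, Set.ncard_univ, Nat.card_eq_fintype_card, Fintype.card_fin] at h4
      exact h4

/-- General type, or covered by images of a rational or elliptic curve. -/
theorem gt_x_compact [CharZero k] [IsAlgClosed k] (n : ℕ) (hn : Algebra.trdeg k L = n)
    (F : Fin n → IntermediateField k L) (hF : ∀ i, IsFF k (F i)) (hsup : ⨆ i, F i = ⊤)
    (G : Subgroup (L ≃ₐ[k] L)) [Finite G] (hst : ∀ i, ∀ g ∈ G, ∀ z ∈ F i, g z ∈ F i)
    (δ : ∀ i, Place k ↥(F i ⊓ fixedField G) → ℚ)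
    (hδ : ∀ i, OrbPos (inf_le_left : F i ⊓ fixedField G ≤ F i) ∅ (δ i) ∨
      (IsElliptic (F i) ∧ OrbNonneg (inf_le_left : F i ⊓ fixedField G ≤ F i) ∅ (δ i)) ∨
      ∃ t : F i, k⟮t⟯ = ⊤)
    (hrot : RTCond G F (fun _ => ∅) δ) :
    KodGe k (fixedField G) n (fun _ => False) n ∨ IsRatEllCovered k (fixedField G) n := by
  have key : ∀ i, ((∃ t : F i, k⟮t⟯ = ⊤) ∨ IsElliptic (F i)) →
      IsRatEllCovered k (fixedField G) n := by
    intro i hi
    have hcur := cur_MM F hsup hn i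
    have hFF : IsFF (MM F i) L := hcur.isFF
    refine ⟨L, inferInstance, inferInstance, MM F i, F i, ?_, ?_, hF i, hcur.sup, hn, hi,
      ⟨(fixedField G).val⟩⟩
    · exact essFiniteType_iff.2 (fg_iSup fun j => essFiniteType_iff.1 (IsFF.ess))
    · rw [← hn, ← trdeg_add_eq k (MM F i) (A := L), hFF.trdeg]
  by_cases hrat : ∃ i, ∃ t : F i, k⟮t⟯ = ⊤
  · obtain ⟨i, hi⟩ := hrat
    exact Or.inr (key i (Or.inl hi))
  · by_cases hell : ∃ i, IsElliptic (F i)
    · obtain ⟨i, hi⟩ := hell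
      exact Or.inr (key i (Or.inr hi))
    · left
      obtain ⟨-, h2⟩ := kn_x_compact n hn F hF hsup G hst δ hδ hrot
      have h3 : {i | ¬ IsElliptic (F i)} = Set.univ :=
        Set.eq_univ_of_forall fun i hi => hell ⟨i, hi⟩
      have h4 := (h2 fun i hi => hrat ⟨i, hi⟩).1
      rw [h3, Set.ncard_univ, Nat.card_eq_fintype_card, Fintype.card_fin] at h4
      exact h4

/-- The Campana-Peternell conjecture. -/
theorem cp_x [CharZero k] [IsAlgClosed k] (n : ℕ) (hn : Algebra.trdeg k L = n)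
    (F : Fin n → IntermediateField k L) (hF : ∀ i, IsFF k (F i)) (hsup : ⨆ i, F i = ⊤)
    (G : Subgroup (L ≃ₐ[k] L)) [Finite G] (hst : ∀ i, ∀ g ∈ G, ∀ z ∈ F i, g z ∈ F i)
    (B : ∀ i, Set (Place k ↥(F i ⊓ fixedField G))) (hB : ∀ i, (B i).Finite)
    (δ : ∀ i, Place k ↥(F i ⊓ fixedField G) → ℚ)
    (hδ : ∀ i, OrbPos inf_le_left (B i) (δ i) ∨
      (IsFlat inf_le_left (B i) ∧ OrbNonneg inf_le_left (B i) (δ i)) ∨
      IsNegative inf_le_left (B i))
    (hrot : RTCond G F B δ) (r : ℕ) (hr : 1 ≤ r) (a : Place k (fixedField G) → ℤ)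
    (hps : IsPsefRest k (fixedField G) n (QBd F G B) r a) (h : ℕ)
    (hA : DivKodGe k (fixedField G) n a h) : KodGe k (fixedField G) n (QBd F G B) h := by
  obtain ⟨h1, h2⟩ := kn_x n hn F hF hsup G hst B hB δ hδ hrot
  by_cases hneg : ∃ i, IsNegative inf_le_left (B i)
  · exact absurd hA (cp_of_neg (h1 hneg) hr hps)
  · push Not at hneg
    obtain ⟨h3, h4⟩ := h2 hneg
    exact cp_of_num h3 h4 hr hps hA

end

end Pool.Agent.W619.X
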