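import Pool.Agent.W619.X.Arith
import Pool.Agent.W619.X.Defs
import Pool.Agent.W619.TW.Hyp
import Pool.Agent.W619.TW.KNStm

/-! Forms on the quotient curves with poles along an orbifold divisor. -/

set_option autoImplicit false
set_option linter.overlappingInstances false
set_option linter.unusedSectionVars false

open Polynomial FF IntermediateField

namespace Pool.Agent.W619.X

open Pool.Agent.W603.LV Pool.Agent.W619.PQ Pool.Agent.W619.PL Pool.Agent.W619.TW

section

variable {k : Type*} [Field k] [CharZero k] [IsAlgClosed k]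
  {E0 : Type*} [Field E0] [Algebra k E0] [IsFF k E0]

/-- The `m`-form `c` (relative to `D0`) is a section of `m (K + 1 - x)`: its logarithmic order at
`q` is nonnegative, and at least `m x(q)` outside the boundary. -/
def GoodX (B0 : Place k E0 → Prop) (x : Place k E0 → ℚ) (m : ℕ) (D0 : Derivation k E0 E0)
    (c : E0) : Prop :=
  ∀ q : Place k E0, 0 ≤ q.ord c + m * (1 - vo q D0) ∧
    (¬ B0 q → (m : ℚ) * x q ≤ ((q.ord c + m * (1 - vo q D0) : ℤ) : ℚ))

theorem GoodX.mul {B0 : Place k E0 → Prop} {x : Place k E0 → ℚ} {m m' : ℕ}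
    {D0 : Derivation k E0 E0} {c c' : E0} (hc : c ≠ 0) (hc' : c' ≠ 0)
    (h : GoodX B0 x m D0 c) (h' : GoodX B0 x m' D0 c') : GoodX B0 x (m + m') D0 (c * c') := by
  intro q
  rw [q.ord_mul hc hc']
  obtain ⟨h1, h2⟩ := h q
  obtain ⟨h3, h4⟩ := h' q
  constructor
  · push_cast
    linarith
  · intro hq
    have h5 := h2 hq
    have h6 := h4 hq
    push_cast at h5 h6 ⊢
    linarith

theorem GoodX.pow {B0 : Place k E0 → Prop} {x : Place k E0 → ℚ} {m : ℕ}
    {D0 : Derivation k E0 E0} {c : E0} (h : GoodX B0 x m D0 c) (a : ℕ) :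
    GoodX B0 x (a * m) D0 (c ^ a) := by
  intro q
  rw [q.ord_pow]
  obtain ⟨h1, h2⟩ := h q
  have h4 : (0 : ℤ) ≤ a := by positivity
  constructor
  · have h5 := mul_nonneg h4 h1
    push_cast
    linarith
  · intro hq
    have h5 := mul_le_mul_of_nonneg_left (h2 hq) (by positivity : (0 : ℚ) ≤ a)
    push_cast at h5 ⊢
    linarith

/-- A common denominator. -/
theorem exists_denom {ι : Type*} (S : Finset ι) (δ : ι → ℚ) :
    ∃ m : ℕ, 1 ≤ m ∧ ∀ q ∈ S, ∃ z : ℤ, (m : ℚ) * δ q = z := by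
  classical
  refine ⟨∏ q ∈ S, (δ q).den, Finset.one_le_prod' fun q _ => (δ q).den_pos, fun q hq => ?_⟩
  obtain ⟨s, hs⟩ := Finset.dvd_prod_of_mem (fun q => (δ q).den) hq
  refine ⟨s * (δ q).num, ?_⟩
  rw [hs]
  push_cast
  have h1 : ((δ q).den : ℚ) * δ q = (δ q).num := by
    rw [mul_comm]; exact_mod_cast Rat.mul_den_eq_num (δ q)
  calc ((δ q).den : ℚ) * s * δ q = s * (((δ q).den : ℚ) * δ q) := by ring
    _ = _ := by rw [h1]

open scoped Classical in
/-- A form from an orbifold divisor of nonnegative degree. -/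
theorem one_goodX (B0 : Place k E0 → Prop) (δ : Place k E0 → ℚ) (S : Finset (Place k E0))
    (hS : ∀ q, q ∉ S → δ q = 0) (h01 : ∀ q, 0 ≤ δ q ∧ δ q ≤ 1)
    (hsum : (0 : ℚ) ≤ canDeg k E0 + ∑ q ∈ S, δ q) :
    ∃ (m : ℕ) (D0 : Derivation k E0 E0) (c : E0), 1 ≤ m ∧ D0 ≠ 0 ∧ c ≠ 0 ∧
      GoodX B0 (fun q => 1 - δ q) m D0 c := by
  by_cases hrat : ∃ t : E0, k⟮t⟯ = ⊤
  swap
  · obtain ⟨f, hf0, hf⟩ := exists_regular hrat (der_ne (k := k) (K := E0))
    refine ⟨1, der k E0, f, le_rfl, der_ne, hf0, fun q => ⟨?_, fun _ => ?_⟩⟩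
    · have := hf q
      push_cast
      linarith
    · have h1 : ((vo q (der k E0) : ℤ) : ℚ) ≤ (q.ord f : ℤ) := by exact_mod_cast hf q
      have h2 := (h01 q).1
      push_cast
      linarith
  obtain ⟨x, hx⟩ := hrat
  rw [canDeg_rational hx] at hsum
  obtain ⟨D, hD, hDx⟩ := exists_ddx (transcendental_of_top hx)
  obtain ⟨m, hm1, hm⟩ := exists_denom S δ
  choose! r hr using hm
  have hsumr : 2 * (m : ℤ) + (0 : ℕ) ≤ ∑ q ∈ S, r q := by
    have h1 : ((∑ q ∈ S, r q : ℤ) : ℚ) = m * ∑ q ∈ S, δ q := by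
      rw [Int.cast_sum, Finset.mul_sum]
      exact Finset.sum_congr rfl fun q hq => (hr q hq).symm
    have h2 : (2 : ℚ) * m ≤ ((∑ q ∈ S, r q : ℤ) : ℚ) := by
      rw [h1]
      have h3 : (0 : ℚ) ≤ m := by positivity
      push_cast at hsum
      nlinarith
    rw [Nat.cast_zero, add_zero]
    exact_mod_cast h2
  obtain ⟨c, hc0, hc⟩ := exists_form_gen hx S r m 0 hsumr hD hDx
  refine ⟨m, D, c, hm1, hD, hc0, fun q => ?_⟩
  have h1 := hc 0 le_rfl q
  rw [pow_zero, mul_one] at h1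
  have hmz : (0 : ℚ) ≤ m := by positivity
  have h2 : (m : ℚ) * (1 - δ q) ≤ ((q.ord c + m * (1 - vo q D) : ℤ) : ℚ) := by
    have h3 : (((m : ℤ) - (if q ∈ S then r q else 0) : ℤ) : ℚ) ≤
        ((q.ord c + m * (1 - vo q D) : ℤ) : ℚ) := by exact_mod_cast h1
    refine le_trans (le_of_eq ?_) h3
    by_cases hqS : q ∈ S
    · rw [if_pos hqS]
      push_cast
      rw [← hr q hqS]
      ring
    · rw [if_neg hqS, hS q hqS]
      push_cast
      ring
  refine ⟨?_, fun _ => h2⟩
  have h3 : (0 : ℚ) ≤ m * (1 - δ q) := mul_nonneg hmz (by linarith [(h01 q).2])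
  exact_mod_cast h3.trans h2

open scoped Classical in
/-- Two forms from an orbifold divisor of positive degree. -/
theorem two_goodX (B0 : Place k E0 → Prop) (δ : Place k E0 → ℚ) (S : Finset (Place k E0))
    (hS : ∀ q, q ∉ S → δ q = 0) (h01 : ∀ q, 0 ≤ δ q ∧ δ q ≤ 1)
    (hsum : (0 : ℚ) < canDeg k E0 + ∑ q ∈ S, δ q) :
    ∃ (m : ℕ) (D0 : Derivation k E0 E0) (c c' : E0), 1 ≤ m ∧ D0 ≠ 0 ∧ c ≠ 0 ∧ c' ≠ 0 ∧
      GoodX B0 (fun q => 1 - δ q) m D0 c ∧ GoodX B0 (fun q => 1 - δ q) m D0 c' ∧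
      Transcendental k (c' / c) := by
  set D : Derivation k E0 E0 := der k E0
  have hD : D ≠ 0 := der_ne
  obtain ⟨γ, N', hrr, -⟩ := riemann (k := k) (K := E0)
  obtain ⟨m0, hm1, hm⟩ := exists_denom S δ
  choose! z hz using hm
  set a : ℕ := (γ + 2).toNat + 1 with ha
  have ha1 : γ + 2 ≤ a := by
    have := Int.self_le_toNat (γ + 2)
    rw [ha]; push_cast; omega
  set m : ℕ := a * m0 with hmdef
  let r : Place k E0 → ℤ := fun q => a * z q
  have hrQ : ∀ q ∈ S, (r q : ℚ) = m * δ q := by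
    intro q hq
    simp only [r, hmdef]
    push_cast
    rw [← hz q hq]
    ring
  -- the integrality of `m0` times the degree
  obtain ⟨ε, hε⟩ : ∃ ε : ℤ, (m0 : ℚ) * (canDeg k E0 + ∑ q ∈ S, δ q) = ε := by
    refine ⟨m0 * canDeg k E0 + ∑ q ∈ S, z q, ?_⟩
    rw [mul_add, Finset.mul_sum, Finset.sum_congr rfl hz]
    push_cast
    ring
  have hδ1 : 1 ≤ ε := by
    have h1 : (0 : ℚ) < m0 := by exact_mod_cast hm1
    have h2 := mul_pos h1 hsum
    rw [hε] at h2
    exact_mod_cast h2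
  -- the divisor
  set T : Finset (Place k E0) := (vo_finite hD).toFinset ∪ S with hT
  have hsupp : ∀ q, (- m * vo q D + if q ∈ S then r q else 0) ≠ 0 → q ∈ T := by
    intro q hq
    by_contra hqT
    rw [hT, Finset.mem_union] at hqT
    push Not at hqT
    have h1 : vo q D = 0 := by
      by_contra h
      exact hqT.1 ((vo_finite hD).mem_toFinset.2 h)
    apply hq
    rw [h1, if_neg hqT.2]; ring
  let C : Place k E0 →₀ ℤ := Finsupp.ofSupportFinite
    (fun q => - m * vo q D + if q ∈ S then r q else 0)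
    (T.finite_toSet.subset fun q hq => hsupp q hq)
  have hCq : ∀ q, C q = - m * vo q D + if q ∈ S then r q else 0 := fun q => rfl
  have hdeg : ddeg C = m * canDeg k E0 + ∑ q ∈ S, r q := by
    unfold ddeg
    rw [Finsupp.sum_of_support_subset (s := T) _ (fun q hq => hsupp q (by
      rw [← hCq]; exact Finsupp.mem_support_iff.1 hq)) _ (by intros; simp)]
    have h1 : ∀ q ∈ T, C q * (q.deg : ℤ) = - m * vo q D + if q ∈ S then r q else 0 := by
      intro q _
      rw [deg_one, hCq]; simp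
    rw [Finset.sum_congr rfl h1, Finset.sum_add_distrib, ← Finset.mul_sum,
      canDeg_finset hD T fun q hq => Finset.mem_union_left _ ((vo_finite hD).mem_toFinset.2 hq),
      Finset.sum_ite_mem, Finset.inter_eq_right.2 Finset.subset_union_right]
    ring
  have hdeg2 : ddeg C = a * ε := by
    have h1 : ((ddeg C : ℤ) : ℚ) = a * ε := by
      rw [hdeg, ← hε]
      push_cast
      rw [Finset.sum_congr rfl hrQ, ← Finset.mul_sum, hmdef]
      push_cast
      ring
    exact_mod_cast h1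
  have hell : 2 ≤ ell C := by
    have h1 := hrr C
    have h2 : (a : ℤ) * 1 ≤ a * ε := mul_le_mul_of_nonneg_left hδ1 (by positivity)
    rw [hdeg2] at h1
    omega
  obtain ⟨f, hf, f', hf', hf0, hf0', htr⟩ := exists_two C hell
  have hm1' : 1 ≤ m := by
    rw [hmdef]
    exact Nat.one_le_iff_ne_zero.2 (mul_ne_zero (by omega) (by omega))
  have hmz : (0 : ℚ) ≤ m := by positivity
  have hgood : ∀ g ∈ LL C, g ≠ 0 → GoodX B0 (fun q => 1 - δ q) m D g := by
    intro g hg hg0 q
    have h1 := (mem_LL.1 hg).resolve_left hg0 q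
    rw [hCq] at h1
    have h2 : (m : ℚ) * (1 - δ q) ≤ ((q.ord g + m * (1 - vo q D) : ℤ) : ℚ) := by
      have h3 : ((-(- m * vo q D + if q ∈ S then r q else 0) : ℤ) : ℚ) ≤ (q.ord g : ℤ) := by
        exact_mod_cast h1
      by_cases hqS : q ∈ S
      · rw [if_pos hqS] at h3
        push_cast at h3 ⊢
        rw [hrQ q hqS] at h3
        linarith
      · rw [if_neg hqS] at h3
        rw [hS q hqS]
        push_cast at h3 ⊢
        linarith
    refine ⟨?_, fun _ => h2⟩
    have h3 : (0 : ℚ) ≤ m * (1 - δ q) := mul_nonneg hmz (by linarith [(h01 q).2])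
    exact_mod_cast h3.trans h2
  exact ⟨m, D, f, f', hm1', hD, hf0, hf0', hgood f hf hf0, hgood f' hf' hf0', htr⟩

end

section

variable {k : Type*} [Field k] [CharZero k] [IsAlgClosed k]
  {E0 E : Type*} [Field E0] [Field E] [Algebra k E0] [Algebra k E] [Algebra E0 E]
  [IsScalarTower k E0 E] [IsFF k E0] [IsFF k E] [FiniteDimensional E0 E]

open scoped Classical in
/-- The orbifold Euler characteristic of the quotient of a curve with a logarithmic form is not
positive. -/
theorem weak_ineq {H : Type*} [Group H] [Finite H] (ρ : H →* (E ≃ₐ[k] E))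
    (hfix : ∀ (h : H) (z : E0), ρ h (algebraMap E0 E z) = algebraMap E0 E z)
    (hinv : ∀ z : E, (∀ h, ρ h z = z) → ∃ z0, algebraMap E0 E z0 = z)
    (B0 : Place k E0 → Prop) (hlog : HasLog E B0) :
    ∃ (T : Finset (Place k E0)) (r : Place k E0 → ℕ),
      (∀ q, ∃ w : Place k E, Over w q (r q)) ∧
      (0 : ℚ) ≤ canDeg k E0 + ∑ q ∈ T, (if B0 q then 1 else 1 - 1 / (r q : ℚ)) := by
  obtain ⟨c, hc0, hc⟩ := exists_norm_log ρ hfix hinv B0 hlog (der_ne (k := k) (K := E0))
  set M := Nat.card H with hM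
  have hMpos : 0 < M := Nat.card_pos
  have hex : ∀ q : Place k E0, ∃ e, ∃ w : Place k E, Over w q e := fun q => exists_place_over q
  choose r hr1 using hex
  have hrpos : ∀ q, 1 ≤ r q := fun q => by
    obtain ⟨w, hw⟩ := hr1 q
    exact hw.1
  have hineq : ∀ q, (M : ℚ) * (vo q (der k E0)) -
      M * (if B0 q then 1 else 1 - 1 / (r q : ℚ)) ≤ q.ord c := by
    intro q
    obtain ⟨w, hw⟩ := hr1 q
    by_cases hB : B0 q
    · have h1 := (hc q w (r q) hw).2 hB
      have h2 : (0 : ℚ) ≤ q.ord c + M * (1 - vo q (der k E0)) := by exact_mod_cast h1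
      rw [if_pos hB]
      linarith
    · have h1 := (hc q w (r q) hw).1 hB
      have h2 : (M : ℚ) ≤ r q * (q.ord c + M * (1 - vo q (der k E0))) := by exact_mod_cast h1
      have h3 : (0 : ℚ) < r q := by exact_mod_cast hrpos q
      have h4 : (M : ℚ) / r q ≤ q.ord c + M * (1 - vo q (der k E0)) := by
        rw [div_le_iff₀ h3]; linarith
      have h5 : (M : ℚ) * (1 - 1 / (r q : ℚ)) = M - M / r q := by field_simp
      rw [if_neg hB, h5]
      linarith
  set T : Finset (Place k E0) := (finite_support (k := k) c).toFinset ∪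
      (vo_finite (der_ne (k := k) (K := E0))).toFinset with hT
  have hs1 : ∑ q ∈ T, q.ord c = 0 := sum_ord_finset c T fun q hq =>
    Finset.mem_union_left _ ((finite_support (k := k) c).mem_toFinset.2 hq)
  have hs2 : ∑ q ∈ T, vo q (der k E0) = - canDeg k E0 :=
    canDeg_finset (der_ne (k := k) (K := E0)) T fun q hq =>
      Finset.mem_union_right _ ((vo_finite (der_ne (k := k) (K := E0))).mem_toFinset.2 hq)
  refine ⟨T, r, hr1, ?_⟩
  have h1 := Finset.sum_le_sum fun q (_ : q ∈ T) => hineq q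
  rw [Finset.sum_sub_distrib, ← Finset.mul_sum, ← Finset.mul_sum] at h1
  have h2 : ∑ q ∈ T, (q.ord c : ℚ) = 0 := by exact_mod_cast hs1
  have h3 : ∑ q ∈ T, (vo q (der k E0) : ℚ) = - canDeg k E0 := by exact_mod_cast hs2
  rw [h2, h3] at h1
  have h4 : (0 : ℚ) < M := by exact_mod_cast hMpos
  by_contra hcon
  push Not at hcon
  nlinarith

open scoped Classical in
/-- Truncation of a signature. -/
theorem truncate_weak (B0 : Place k E0 → Prop) (T : Finset (Place k E0)) (r : Place k E0 → ℕ)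
    (hr : ∀ q, 1 ≤ r q)
    (hsum : (0 : ℚ) ≤ canDeg k E0 + ∑ q ∈ T, (if B0 q then 1 else 1 - 1 / (r q : ℚ))) (N : ℕ)
    (hN : 6 ≤ N ∨ (4 ≤ N ∧ ∀ q, r q ≠ 3) ∨ (3 ≤ N ∧ ∀ q, r q ≠ 2) ∨ (2 ≤ N ∧ ∃ q, B0 q)) :
    ∃ S : Finset (Place k E0), (0 : ℚ) ≤ canDeg k E0 +
      ∑ q ∈ S, (if B0 q then 1 else 1 - 1 / ((min (r q) N : ℕ) : ℚ)) := by
  have hN2 : 2 ≤ N := by omega
  have hterm : ∀ q, (0 : ℚ) ≤ if B0 q then 1 else 1 - 1 / (r q : ℚ) := by
    intro q
    by_cases hq : B0 q
    · rw [if_pos hq]; norm_num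
    · rw [if_neg hq]
      have h1 : (1 : ℚ) ≤ r q := by exact_mod_cast hr q
      have h2 : 1 / (r q : ℚ) ≤ 1 := by
        rw [div_le_one (by linarith)]; exact h1
      linarith
  by_cases hrat : ∃ t : E0, k⟮t⟯ = ⊤
  swap
  · have h0 := canDeg_nonneg hrat
    refine ⟨∅, ?_⟩
    rw [Finset.sum_empty, add_zero]
    exact_mod_cast h0
  obtain ⟨t, ht⟩ := hrat
  have hcd : (canDeg k E0 : ℚ) = -2 := by rw [canDeg_rational ht]; norm_num
  rw [hcd] at hsum ⊢
  by_cases htwo : ∃ q q', q ≠ q' ∧ B0 q ∧ B0 q'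
  · obtain ⟨q, q', hne, hq, hq'⟩ := htwo
    refine ⟨{q, q'}, ?_⟩
    rw [Finset.sum_pair hne, if_pos hq, if_pos hq']
    norm_num
  · have huniq : ∀ q q', B0 q → B0 q' → q = q' := by
      intro q q' h1 h2
      by_contra h3
      exact htwo ⟨q, q', h3, h1, h2⟩
    by_cases hone : ∃ q, B0 q
    · obtain ⟨q0, hq0⟩ := hone
      have h1 : (1 : ℚ) ≤ ∑ q ∈ (T.erase q0).filter (fun q => 2 ≤ r q), (1 - 1 / (r q : ℚ)) := by
        have h2 : ∑ q ∈ (T.erase q0).filter (fun q => 2 ≤ r q), (1 - 1 / (r q : ℚ)) =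
            ∑ q ∈ T.erase q0, (1 - 1 / (r q : ℚ)) := by
          rw [Finset.sum_filter_of_ne]
          intro q _ hne
          by_contra hcon
          apply hne
          have h1 : r q = 1 := by
            have := hr q
            omega
          rw [h1]; norm_num
        rw [h2]
        have h3 : ∑ q ∈ T, (if B0 q then 1 else 1 - 1 / (r q : ℚ)) ≤
            1 + ∑ q ∈ T.erase q0, (1 - 1 / (r q : ℚ)) := by
          have h4 : ∑ q ∈ T.erase q0, (1 - 1 / (r q : ℚ)) =
              ∑ q ∈ T.erase q0, (if B0 q then 1 else 1 - 1 / (r q : ℚ)) := by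
            refine Finset.sum_congr rfl fun q hq => ?_
            rw [if_neg fun h => Finset.ne_of_mem_erase hq (huniq q q0 h hq0)]
          rw [h4]
          have h5 : ∑ q ∈ T, (if B0 q then 1 else 1 - 1 / (r q : ℚ)) ≤
              ∑ q ∈ insert q0 (T.erase q0), (if B0 q then 1 else 1 - 1 / (r q : ℚ)) := by
            refine Finset.sum_le_sum_of_subset_of_nonneg ?_ fun p _ _ => hterm p
            intro p hp
            by_cases hpq : p = q0
            · simp [hpq]
            · exact Finset.mem_insert_of_mem (Finset.mem_erase.2 ⟨hpq, hp⟩)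
          rw [Finset.sum_insert (by simp), if_pos hq0] at h5
          exact h5
        linarith
      set U := (T.erase q0).filter (fun q => 2 ≤ r q) with hU
      have hU2 : ∀ q ∈ U, 2 ≤ r q := fun q hq => (Finset.mem_filter.1 hq).2
      have hcard : 2 ≤ U.card := by
        by_contra hcard
        have hne : U.Nonempty := by
          rw [Finset.nonempty_iff_ne_empty]
          intro h
          rw [h, Finset.sum_empty] at h1
          norm_num at h1
        have h3 := Finset.sum_lt_sum_of_nonempty hne fun q hq =>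
          lt_one (r q) (by have := hU2 q hq; omega)
        rw [Finset.sum_const, nsmul_eq_mul, mul_one] at h3
        have h4 : (U.card : ℚ) ≤ 1 := by exact_mod_cast (by omega : U.card ≤ 1)
        linarith
      refine ⟨insert q0 U, ?_⟩
      rw [Finset.sum_insert (by simp [hU]), if_pos hq0]
      have h3 : ∑ q ∈ U, (if B0 q then 1 else 1 - 1 / ((min (r q) N : ℕ) : ℚ)) =
          ∑ q ∈ U, (1 - 1 / ((min (r q) N : ℕ) : ℚ)) := by
        refine Finset.sum_congr rfl fun q hq => ?_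
        rw [if_neg fun h => Finset.ne_of_mem_erase (Finset.mem_filter.1 hq).1 (huniq q q0 h hq0)]
      rw [h3]
      have h4 := Finset.card_nsmul_le_sum U (fun i => 1 - 1 / ((min (r i) N : ℕ) : ℚ))
        (1 / 2 : ℚ) fun j hj => half_le (r j) N (hU2 j hj) hN2
      rw [nsmul_eq_mul] at h4
      have h5 : (2 : ℚ) ≤ U.card := by exact_mod_cast hcard
      linarith
    · push Not at hone
      simp only [hone, if_false] at hsum ⊢
      have h1 : (2 : ℚ) ≤ ∑ q ∈ T.filter (fun q => 2 ≤ r q), (1 - 1 / (r q : ℚ)) := by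
        rw [Finset.sum_filter_of_ne]
        · linarith
        · intro q _ hne
          by_contra hcon
          apply hne
          have h1 : r q = 1 := by
            have := hr q
            omega
          rw [h1]; norm_num
      have hT2 : ∀ q ∈ T.filter (fun q => 2 ≤ r q), 2 ≤ r q :=
        fun q hq => (Finset.mem_filter.1 hq).2
      refine ⟨T.filter (fun q => 2 ≤ r q), ?_⟩
      rcases hN with h | ⟨h, h'⟩ | ⟨h, h'⟩ | ⟨-, q, h⟩
      · linarith [six_trunc _ r N h hT2 h1]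
      · linarith [no_three _ r N h hT2 (fun q _ => h' q) h1]
      · linarith [no_two _ r N h hT2 (fun q _ => h' q) h1]
      · exact absurd h (hone q)

open scoped Classical in
/-- Truncation of a strict signature. -/
theorem truncate_strict (B0 : Place k E0 → Prop) (T : Finset (Place k E0)) (r : Place k E0 → ℕ)
    (hr : ∀ q, 1 ≤ r q)
    (hsum : (0 : ℚ) < canDeg k E0 + ∑ q ∈ T, (if B0 q then 1 else 1 - 1 / (r q : ℚ))) (N : ℕ)
    (hN : 7 ≤ N ∨ (5 ≤ N ∧ ∀ q, r q ≠ 3) ∨ (4 ≤ N ∧ ∀ q, r q ≠ 2) ∨ (3 ≤ N ∧ ∃ q, B0 q)) :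
    ∃ S : Finset (Place k E0), (0 : ℚ) < canDeg k E0 +
      ∑ q ∈ S, (if B0 q then 1 else 1 - 1 / ((min (r q) N : ℕ) : ℚ)) := by
  by_cases hB : ∃ q, B0 q
  · exact truncate B0 T r hr hsum N (Or.inr (Or.inl ⟨by omega, hB⟩))
  by_cases hrat : ∃ t : E0, k⟮t⟯ = ⊤
  swap
  · exact truncate B0 T r hr hsum N (Or.inr (Or.inr ⟨by omega, Or.inr hrat⟩))
  push Not at hB
  obtain ⟨t, ht⟩ := hrat
  have hcd : (canDeg k E0 : ℚ) = -2 := by rw [canDeg_rational ht]; norm_num
  rw [hcd] at hsum ⊢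
  simp only [hB, if_false] at hsum ⊢
  have h1 : (2 : ℚ) < ∑ q ∈ T.filter (fun q => 2 ≤ r q), (1 - 1 / (r q : ℚ)) := by
    rw [Finset.sum_filter_of_ne]
    · linarith
    · intro q _ hne
      by_contra hcon
      apply hne
      have h1 : r q = 1 := by
        have := hr q
        omega
      rw [h1]; norm_num
  have hT2 : ∀ q ∈ T.filter (fun q => 2 ≤ r q), 2 ≤ r q :=
    fun q hq => (Finset.mem_filter.1 hq).2
  refine ⟨T.filter (fun q => 2 ≤ r q), ?_⟩
  rcases hN with h | ⟨h, h'⟩ | ⟨h, h'⟩ | ⟨-, q, h⟩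
  · linarith [seven _ r N h hT2 h1]
  · linarith [no_three_strict _ r N h hT2 (fun q _ => h' q) h1]
  · linarith [no_two_strict _ r N h hT2 (fun q _ => h' q) h1]
  · exact absurd h (hB q)

end

end Pool.Agent.W619.X
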