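import Pool.Agent.W619.X.Many

/-! Quotient curves with many branch points. -/

set_option autoImplicit false
set_option linter.overlappingInstances false
set_option linter.unusedSectionVars false

universe u v

open Polynomial FF IntermediateField Pool.Agent.W619.PQ Pool.Agent.W619.PL Pool.Agent.W619.TW

namespace Pool.Agent.W619.X

open Pool.Agent.W603.LV

section

variable {k : Type*} [Field k] [CharZero k] [IsAlgClosed k]
  {E0 E : Type*} [Field E0] [Field E] [Algebra k E0] [Algebra k E] [Algebra E0 E]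
  [IsScalarTower k E0 E] [IsFF k E0] [IsFF k E] [FiniteDimensional E0 E]

open scoped Classical in
theorem half_aux (B : Set (Place k E0)) (hB : B.Finite) :
    ∃ δ : Place k E0 → ℚ, {q | δ q ≠ 0}.Finite ∧ (∀ q, 0 ≤ δ q ∧ δ q ≤ 1) ∧
      (∀ q ∉ B, δ q ≤ 1 / 2 ∧ ∀ (w : Place k E) e, Over w q e → δ q ≤ 1 - 1 / (e : ℚ)) ∧
      ∀ (D : Derivation k E0 E0) (o : Place k E0 → ℤ), D ≠ 0 →
        (∀ q, ∀ t, q.ord t = 1 → q.ord (D t) = o q) →
        2 * ∑ᶠ q, (δ q - o q) = 2 * canDeg k E0 + (2 * B.ncard +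
          {q | q ∉ B ∧ ∃ r : ℕ, 2 ≤ r ∧ ∀ (w : Place k E) e, Over w q e → r ≤ e}.ncard : ℕ) := by
  set R : Set (Place k E0) :=
    {q | q ∉ B ∧ ∃ r : ℕ, 2 ≤ r ∧ ∀ (w : Place k E) e, Over w q e → r ≤ e} with hR
  have hRfin : R.Finite := by
    have hex : ∀ q : Place k E0, ∃ e, ∃ w : Place k E, Over w q e := fun q => exists_place_over q
    choose r hr using hex
    refine (ramified_finite r hr).subset ?_
    rintro q ⟨-, s, hs, hs'⟩
    obtain ⟨w, hw⟩ := hr q
    have := hs' w _ hw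
    rw [Set.mem_ofPred_eq]
    omega
  let δ : Place k E0 → ℚ := fun q => if q ∈ B then 1 else if q ∈ R then 1 / 2 else 0
  have hfin : {q | δ q ≠ 0}.Finite := by
    refine (hB.union hRfin).subset fun q hq => ?_
    by_contra hcon
    rw [Set.mem_union] at hcon
    push Not at hcon
    apply hq
    simp only [δ]
    rw [if_neg hcon.1, if_neg hcon.2]
  refine ⟨δ, hfin, ?_, ?_, ?_⟩
  · intro q
    simp only [δ]
    split_ifs <;> norm_num
  · intro q hq
    simp only [δ]
    rw [if_neg hq]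
    refine ⟨by split_ifs <;> norm_num, fun w e he => ?_⟩
    have h1 : (1 : ℚ) ≤ e := by exact_mod_cast he.1
    split_ifs with hqR
    · obtain ⟨-, s, hs, hs'⟩ := hqR
      have h2 : (2 : ℚ) ≤ e := by
        have := hs' w e he
        exact_mod_cast hs.trans this
      have h3 := one_div_le_one_div_of_le (by norm_num) h2
      linarith
    · have h3 : 1 / (e : ℚ) ≤ 1 := by rw [div_le_one (by linarith)]; exact h1
      linarith
  · intro D o hD ho
    rw [finsum_deg δ hfin D hD o ho]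
    have h1 : ∑ q ∈ hfin.toFinset, δ q = B.ncard + (1 / 2 : ℚ) * R.ncard := by
      have h2 : hfin.toFinset = hB.toFinset ∪ hRfin.toFinset := by
        ext q
        rw [Finset.mem_union, Set.Finite.mem_toFinset, Set.Finite.mem_toFinset,
          Set.Finite.mem_toFinset, Set.mem_ofPred_eq]
        simp only [δ]
        by_cases h3 : q ∈ B
        · simp [h3]
        · by_cases h4 : q ∈ R
          · simp [h3, h4]
          · simp [h3, h4]
      have hdisj : Disjoint hB.toFinset hRfin.toFinset := by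
        rw [Finset.disjoint_left]
        intro q hq hq'
        rw [Set.Finite.mem_toFinset] at hq hq'
        exact hq'.1 hq
      rw [h2, Finset.sum_union hdisj]
      have h3 : ∑ q ∈ hB.toFinset, δ q = B.ncard := by
        rw [Finset.sum_congr rfl (g := fun _ => (1 : ℚ)) fun q hq => ?_]
        · rw [Finset.sum_const, nsmul_eq_mul, mul_one, Set.ncard_eq_toFinset_card _ hB]
        · simp only [δ]
          rw [if_pos ((hB.mem_toFinset).1 hq)]
      have h4 : ∑ q ∈ hRfin.toFinset, δ q = (1 / 2 : ℚ) * R.ncard := by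
        rw [Finset.sum_congr rfl (g := fun _ => (1 / 2 : ℚ)) fun q hq => ?_]
        · rw [Finset.sum_const, nsmul_eq_mul, Set.ncard_eq_toFinset_card _ hRfin, mul_comm]
        · have hq' := (hRfin.mem_toFinset).1 hq
          simp only [δ]
          rw [if_neg hq'.1, if_pos hq']
      rw [h3, h4]
    rw [h1]
    push_cast
    ring

end

section

variable {k : Type v} {L : Type u} [Field k] [Field L] [Algebra k L]

/-- The quotient curve `Q` of `F` is irrational, or `m ≤ 2 b + r`, where `b` is the number of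
boundary points and `r` is the number of branch points which are not boundary points. -/
def Wide (m : ℕ) {Q F : IntermediateField k L} (h : Q ≤ F) (B : Set (Place k Q)) : Prop :=
  (¬ ∃ t : Q, k⟮t⟯ = ⊤) ∨
    m ≤ 2 * B.ncard + {q | q ∉ B ∧ ∃ w e, LiesOver h w q e ∧ 2 ≤ e}.ncard

/-- Each `g ≠ 1` in `G` moves at least `N` of the curves `F i`. -/
def Moves {n : ℕ} (N : ℕ) (G : Subgroup (L ≃ₐ[k] L)) (F : Fin n → IntermediateField k L) : Prop :=
  ∀ g ∈ G, g ≠ 1 → N ≤ {i | ∃ z ∈ F i, g z ≠ z}.ncard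

theorem half_factor [CharZero k] [IsAlgClosed k] (F : IntermediateField k L) [hF : IsFF k F]
    (G : Subgroup (L ≃ₐ[k] L)) [Finite G] (hst : ∀ g ∈ G, ∀ z ∈ F, g z ∈ F)
    (B : Set (Place k ↥(F ⊓ fixedField G))) (hB : B.Finite) :
    ∃ δ : Place k ↥(F ⊓ fixedField G) → ℚ, IsOrb inf_le_left B δ ∧ (∀ q ∉ B, δ q ≤ 1 / 2) ∧
      (Wide 4 inf_le_left B → OrbNonneg inf_le_left B δ) ∧
      (Wide 5 inf_le_left B → ¬ IsNegative inf_le_left B → ¬ IsFlat inf_le_left B →
        OrbPos inf_le_left B δ) := by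
  classical
  let _ : Algebra ↥(F ⊓ fixedField G) F :=
    (inclusion (inf_le_left : F ⊓ fixedField G ≤ F)).toRingHom.toAlgebra
  have t1 : IsScalarTower k ↥(F ⊓ fixedField G) F := IsScalarTower.of_algebraMap_eq fun c => rfl
  have f1 : FiniteDimensional ↥(F ⊓ fixedField G) F := inf_finite G F hst fun z => rfl
  have f2 : IsFF k ↥(F ⊓ fixedField G) := isFF_down (E := F)
  have hfix : ∀ (g : G) (z : ↥(F ⊓ fixedField G)),
      rho G F hst g (algebraMap ↥(F ⊓ fixedField G) F z) = algebraMap ↥(F ⊓ fixedField G) F z := by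
    intro g z
    apply Subtype.ext
    exact z.2.2 g
  have hinv : ∀ z : F, (∀ g, rho G F hst g z = z) →
      ∃ z0, algebraMap ↥(F ⊓ fixedField G) F z0 = z := by
    intro z hz
    refine ⟨⟨(z : L), z.2, fun g => ?_⟩, rfl⟩
    exact congrArg (Subtype.val : F → L) (hz g)
  have hov : ∀ (w : Place k F) (q : Place k ↥(F ⊓ fixedField G)) (e : ℕ),
      LiesOver inf_le_left w q e ↔ Over w q e := fun w q e => Iff.rfl
  obtain ⟨δ, h1, h2, h3, h4⟩ := half_aux (E := F) B hB
  have hR : {q | q ∉ B ∧ ∃ r : ℕ, 2 ≤ r ∧ ∀ (w : Place k F) e, Over w q e → r ≤ e} =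
      {q | q ∉ B ∧ ∃ (w : Place k F) (e : ℕ), LiesOver inf_le_left w q e ∧ 2 ≤ e} := by
    ext q
    rw [Set.mem_ofPred_eq, Set.mem_ofPred_eq]
    refine and_congr_right fun _ => ⟨?_, ?_⟩
    · rintro ⟨r, hr, hr'⟩
      obtain ⟨e, w, hw⟩ := exists_place_over (E := F) q
      exact ⟨w, e, (hov w q e).2 hw, hr.trans (hr' w e hw)⟩
    · rintro ⟨w, e, hw, he⟩
      refine ⟨2, le_rfl, fun w' e' hw' => ?_⟩
      rw [over_eq (rho G F hst) hfix hinv hw' ((hov w q e).1 hw)]
      exact he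
  rw [hR] at h4
  have horb : IsOrb (inf_le_left : F ⊓ fixedField G ≤ F) B δ :=
    ⟨h1, fun q => ⟨(h2 q).1, (h2 q).2, fun hq w e hw => (h3 q hq).2 w e ((hov w q e).1 hw)⟩⟩
  set D := der k ↥(F ⊓ fixedField G) with hD
  have hD0 : D ≠ 0 := der_ne
  have ho : ∀ q : Place k ↥(F ⊓ fixedField G), ∀ t, q.ord t = 1 → q.ord (D t) = vo q D :=
    fun q t ht => vo_eq q ht hD0
  have hd := h4 D (fun q => vo q D) hD0 ho
  refine ⟨δ, horb, fun q hq => (h3 q hq).1, fun hw => ⟨horb, Or.inl ⟨_, ⟨D, _, hD0, ho, rfl⟩, ?_⟩⟩,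
    fun hw hneg hflat => ⟨horb, Or.inl ⟨_, ⟨D, _, hD0, ho, rfl⟩, ?_⟩⟩⟩
  · by_cases hr : ∃ t : ↥(F ⊓ fixedField G), k⟮t⟯ = ⊤
    · have hw' := hw.resolve_left (not_not.2 hr)
      obtain ⟨t, ht⟩ := hr
      rw [canDeg_rational ht] at hd
      have hw'' : (4 : ℚ) ≤ ((2 * B.ncard + {q | q ∉ B ∧ ∃ (w : Place k F) (e : ℕ),
        LiesOver inf_le_left w q e ∧ 2 ≤ e}.ncard : ℕ) : ℚ) := by exact_mod_cast hw'
      push_cast at hd hw''
      linarith
    · have h5 : (0 : ℚ) ≤ canDeg k ↥(F ⊓ fixedField G) := by exact_mod_cast canDeg_nonneg hr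
      have h6 : (0 : ℚ) ≤ ((2 * B.ncard + {q | q ∉ B ∧ ∃ (w : Place k F) (e : ℕ),
        LiesOver inf_le_left w q e ∧ 2 ≤ e}.ncard : ℕ) : ℚ) := Nat.cast_nonneg _
      linarith
  · by_cases hr : ∃ t : ↥(F ⊓ fixedField G), k⟮t⟯ = ⊤
    · have hw' := hw.resolve_left (not_not.2 hr)
      obtain ⟨t, ht⟩ := hr
      rw [canDeg_rational ht] at hd
      have hw'' : (5 : ℚ) ≤ ((2 * B.ncard + {q | q ∉ B ∧ ∃ (w : Place k F) (e : ℕ),
        LiesOver inf_le_left w q e ∧ 2 ≤ e}.ncard : ℕ) : ℚ) := by exact_mod_cast hw'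
      push_cast at hd hw''
      linarith
    · have h5 : (0 : ℤ) ≤ canDeg k ↥(F ⊓ fixedField G) := canDeg_nonneg hr
      have h5' : (0 : ℚ) ≤ canDeg k ↥(F ⊓ fixedField G) := by exact_mod_cast h5
      by_contra hcon
      push Not at hcon
      set m := 2 * B.ncard + {q | q ∉ B ∧ ∃ (w : Place k F) (e : ℕ),
        LiesOver inf_le_left w q e ∧ 2 ≤ e}.ncard with hm
      have h6 : (0 : ℚ) ≤ (m : ℚ) := Nat.cast_nonneg _
      have h7 : (canDeg k ↥(F ⊓ fixedField G) : ℚ) = 0 := by linarith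
      have h8 : (m : ℚ) = 0 := by linarith
      have h8' : m = 0 := by exact_mod_cast h8
      have h9 : B.ncard = 0 := by omega
      have h10 : {q | q ∉ B ∧ ∃ (w : Place k F) (e : ℕ),
        LiesOver inf_le_left w q e ∧ 2 ≤ e}.ncard = 0 := by omega
      have hBe : B = ∅ := (Set.ncard_eq_zero hB).1 h9
      -- the curve has positive logarithmic degree
      have hUB : (UB1 F fun q => q ∈ B).Finite := UB1_finite hB
      have hld : 0 < canDeg k F + (UB1 F fun q => q ∈ B).ncard := by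
        have h11 : ¬ canDeg k F + (UB1 F fun q => q ∈ B).ncard < 0 := by
          rw [neg_iff hUB]
          rintro ⟨hr', hss⟩
          refine hneg ⟨hr', fun w w' hw hw' => ?_⟩
          obtain ⟨p, hp, e, hpe⟩ := hw
          obtain ⟨p', hp', e', hpe'⟩ := hw'
          exact hss w ⟨p, e, hpe, hp⟩ w' ⟨p', e', hpe', hp'⟩
        have h12 : canDeg k F + (UB1 F fun q => q ∈ B).ncard ≠ 0 := by
          intro h0
          apply hflat
          have hlog := hasLog_of_nonneg (E := F) hUB h0.ge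
          obtain ⟨D', hD'⟩ := der_of_flat (E := F) hUB hlog h0
          refine ⟨D', fun w t ht => ?_⟩
          obtain ⟨a1, a2, a3⟩ := hD' w t ht
          refine ⟨a1, ?_⟩
          split_ifs with hw
          · obtain ⟨p, hp2, r, hp1⟩ := hw
            exact a2 ⟨p, r, hp1, hp2⟩
          · refine a3 fun h => hw ?_
            obtain ⟨p, r, hp1, hp2⟩ := h
            exact ⟨p, hp2, r, hp1⟩
        omega
      obtain ⟨T, r', hr', hsum⟩ := strict_ineq (rho G F hst) hfix hinv (fun q => q ∈ B) hUB hld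
      have h13 : ∑ q ∈ T, (if q ∈ B then (1 : ℚ) else 1 - 1 / (r' q : ℚ)) = 0 := by
        refine Finset.sum_eq_zero fun q _ => ?_
        have hqB : q ∉ B := by rw [hBe]; exact Set.notMem_empty q
        rw [if_neg hqB]
        have h14 : r' q = 1 := by
          by_contra hne
          have h15 : 2 ≤ r' q := by have := (hr' q).1; omega
          obtain ⟨e, w, hw'⟩ := exists_place_over (E := F) q
          have h16 : q ∈ {q | q ∉ B ∧ ∃ (w : Place k F) (e : ℕ),
              LiesOver inf_le_left w q e ∧ 2 ≤ e} :=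
            ⟨hqB, w, e, (hov w q e).2 hw', h15.trans ((hr' q).2 w e hw')⟩
          have h17 : {q | q ∉ B ∧ ∃ (w : Place k F) (e : ℕ),
              LiesOver inf_le_left w q e ∧ 2 ≤ e}.Finite := by
            have hex : ∀ q : Place k ↥(F ⊓ fixedField G), ∃ e, ∃ w : Place k F, Over w q e :=
              fun q => exists_place_over q
            choose r hrr using hex
            refine (ramified_finite r hrr).subset ?_
            rintro q ⟨-, w, e, hwe, he⟩
            obtain ⟨w', hw''⟩ := hrr q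
            rw [Set.mem_ofPred_eq, over_eq (rho G F hst) hfix hinv hw'' ((hov w q e).1 hwe)]
            omega
          rw [(Set.ncard_eq_zero h17).1 h10] at h16
          exact h16
        rw [h14]
        norm_num
      have h18 : (0 : ℚ) < canDeg k ↥(F ⊓ fixedField G) +
          ∑ q ∈ T, (if q ∈ B then (1 : ℚ) else 1 - 1 / (r' q : ℚ)) := hsum
      rw [h13, h7] at h18
      norm_num at h18

theorem half_rt [CharZero k] [IsAlgClosed k] {n : ℕ}
    (F : Fin n → IntermediateField k L) (hF : ∀ i, IsFF k (F i))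
    (G : Subgroup (L ≃ₐ[k] L)) [Finite G] (hst : ∀ i, ∀ g ∈ G, ∀ z ∈ F i, g z ∈ F i)
    (B : ∀ i, Set (Place k ↥(F i ⊓ fixedField G))) (hmv : Moves 2 G F)
    (δ : ∀ i, Place k ↥(F i ⊓ fixedField G) → ℚ) (hδ : ∀ i, ∀ q ∉ B i, δ i q ≤ 1 / 2) :
    RTCond G F B δ := by
  intro g hg hg1 ζ hζ y hy
  have key : ∀ i, (y i = 0 ∧ ∀ z ∈ F i, g z = z) ∨ 1 / ((2 : ℕ) : ℚ) ≤ y i := by
    intro i
    rcases hy i with h | ⟨q, p, a, e, h3, h4, h5, h6, h7, h8⟩
    · exact Or.inl h
    · right
      have hd : 0 < orderOf g := by omega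
      have h9 := (delta_exists (F i) (hF := hF i) G (hst i) ∅ Set.finite_empty 1 le_rfl).2.2 g hg q
        p ζ (orderOf g) a e hd h3 hζ h5 h6
      have h10 : (1 : ℚ) ≤ (a / orderOf g) * e := by
        have hdq : (0 : ℚ) < orderOf g := by exact_mod_cast hd
        rw [div_mul_eq_mul_div, le_div_iff₀ hdq, one_mul]
        exact_mod_cast h9
      have h11 := hδ i p h7
      rw [h8]
      push_cast
      nlinarith
  refine sum_ge_of_moved (N := 2) (by norm_num) _ (hmv g hg hg1) y (fun i => ?_) (fun i hi => ?_)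
  · rcases key i with h | h
    · exact h.1.ge
    · refine le_trans (by norm_num) h
  · rcases key i with h | h
    · obtain ⟨z, hz, hz'⟩ := hi
      exact absurd (h.2 z hz) hz'
    · exact h

end

end Pool.Agent.W619.X
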