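import Pool.Agent.W619.X.Rot
import Pool.Agent.W619.TW.KN
import Pool.Agent.W619.X.Basis

/-! The lower bound for the Kodaira dimension: orbifold divisors. -/

set_option autoImplicit false
set_option linter.overlappingInstances false
set_option linter.unusedSectionVars false

open Polynomial FF IntermediateField

namespace Pool.Agent.W619.X

open Pool.Agent.W603.LV Pool.Agent.W619.PQ Pool.Agent.W619.PL Pool.Agent.W619.TW

section

variable {k L : Type*} [Field k] [CharZero k] [IsAlgClosed k] [Field L] [Algebra k L]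

open scoped Classical in
theorem lower_abstractX (n : ℕ) (hn : Algebra.trdeg k L = n)
    (F : Fin n → IntermediateField k L) [hF : ∀ i, IsFF k (F i)]
    (halg : Algebra.IsAlgebraic ↥(⨆ i, F i) L)
    (G : Subgroup (L ≃ₐ[k] L)) [Finite G] {E0 : Fin n → Type*} [∀ i, Field (E0 i)]
    [∀ i, Algebra k (E0 i)] [∀ i, Algebra (E0 i) (F i)] [∀ i, Algebra (E0 i) (fixedField G)]
    [∀ i, Algebra (E0 i) L] [∀ i, IsScalarTower k (E0 i) (F i)] [∀ i, IsScalarTower k (E0 i) L]
    [∀ i, IsScalarTower k (E0 i) (fixedField G)] [∀ i, IsScalarTower (E0 i) (F i) L]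
    [∀ i, IsScalarTower (E0 i) (fixedField G) L] [∀ i, IsFF k (E0 i)]
    [∀ i, FiniteDimensional (E0 i) (F i)] (ρ : ∀ i, G →* (F i ≃ₐ[k] F i))
    (hcomp : ∀ i (g : G) z, ((ρ i g z : F i) : L) = (g : L ≃ₐ[k] L) (z : L))
    (B : ∀ i, Place k (E0 i) → Prop) (X : ∀ i, Place k (E0 i) → ℚ)
    (hX0 : ∀ i q, 0 ≤ X i q)
    (hXe : ∀ i q, ¬ B i q → ∀ (w : Place k (F i)) (e : ℕ), Over w q e → 1 ≤ e * X i q)
    (hrot : ∀ g : G, g ≠ 1 → ∀ ζ : k, IsPrimitiveRoot ζ (orderOf (g : L ≃ₐ[k] L)) →
      ∀ y : Fin n → ℚ, (∀ i, (y i = 0 ∧ ρ i g = 1) ∨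
        ∃ (q : Place k (F i)) (p : Place k (E0 i)) (a r : ℕ), 0 < a ∧
          a < orderOf (g : L ≃ₐ[k] L) ∧ (∀ z : F i, q.ord z = 1 →
            Ge q 2 (ρ i g z - algebraMap k (F i) (ζ ^ a) * z)) ∧ Over q p r ∧ ¬ B i p ∧
          y i = (a / orderOf (g : L ≃ₐ[k] L)) * r * X i p) → (1 : ℚ) ≤ ∑ i, y i)
    (H : Finset (Fin n))
    (hdata : ∀ i, ∃ (m : ℕ) (D0 : Derivation k (E0 i) (E0 i)) (c c' : E0 i), 1 ≤ m ∧ D0 ≠ 0 ∧
      c ≠ 0 ∧ c' ≠ 0 ∧ GoodX (B i) (X i) m D0 c ∧ GoodX (B i) (X i) m D0 c' ∧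
      (i ∈ H → Transcendental k (c' / c))) :
    KodGe k (fixedField G) n (Bdry B) H.card := by
  choose m0 D0 c0 c0' hm0 hD0 hc0 hc0' hg0 hg0' htr0 using hdata
  -- a common weight
  let m : ℕ := ∏ i, m0 i
  let a : Fin n → ℕ := fun i => ∏ j ∈ Finset.univ.erase i, m0 j
  have ham : ∀ i, a i * m0 i = m := fun i => Finset.prod_erase_mul _ _ (Finset.mem_univ i)
  have ha1 : ∀ i, 1 ≤ a i := fun i => Finset.one_le_prod' fun j _ => hm0 j
  have hm1 : 1 ≤ m := Finset.one_le_prod' fun i _ => hm0 i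
  let c : ∀ i, E0 i := fun i => c0 i ^ a i
  let c' : ∀ i, E0 i := fun i => c0' i ^ a i
  have hc : ∀ i, c i ≠ 0 := fun i => pow_ne_zero _ (hc0 i)
  have hc' : ∀ i, c' i ≠ 0 := fun i => pow_ne_zero _ (hc0' i)
  have hg : ∀ i, GoodX (B i) (X i) m (D0 i) (c i) := fun i => by
    have := (hg0 i).pow (a i)
    rwa [ham i] at this
  have hg' : ∀ i, GoodX (B i) (X i) m (D0 i) (c' i) := fun i => by
    have := (hg0' i).pow (a i)
    rwa [ham i] at this
  have htr : ∀ i ∈ H, Transcendental k (c' i / c i) := by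
    intro i hi
    have h1 : c' i / c i = (c0' i / c0 i) ^ a i := by rw [div_pow]
    rw [h1]
    intro halg
    exact htr0 i hi (halg.of_pow (ha1 i))
  choose x hx using fun i => IsFF.exists_transcendental (k := k) (K := E0 i)
  have hbasis : ∀ y : ∀ i, E0 i, (∀ i, Transcendental k (y i)) →
      IsTranscendenceBasis k fun i => algebraMap (E0 i) (fixedField G) (y i) := by
    intro y hy
    apply basis_down (L := L) hn
    have h1 := basis_of_alg F halg hn (fun i => algebraMap (E0 i) (F i) (y i)) fun i =>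
      transcendental_map (E := F i) (hy i)
    convert h1 using 2 with i
    change algebraMap (fixedField G) L (algebraMap (E0 i) (fixedField G) (y i)) =
      algebraMap (F i) L (algebraMap (E0 i) (F i) (y i))
    rw [← IsScalarTower.algebraMap_apply, ← IsScalarTower.algebraMap_apply]
  -- the functions
  let f : ∀ i, E0 i := fun i => if i ∈ H then c' i / c i else x i
  have hf : ∀ i, Transcendental k (f i) := by
    intro i
    by_cases hi : i ∈ H
    · simp only [f, if_pos hi]; exact htr i hi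
    · simp only [f, if_neg hi]; exact hx i
  refine ⟨m, hm1, fun j hj => ?_⟩
  obtain ⟨D, hD⟩ := extForm_ne (j * m) D0 x (fun i => c i ^ j) (fun i => pow_ne_zero _ (hc i))
    (fun i => der_ne_zero (hD0 i) (hx i)) (hbasis x hx)
  let cr : (H → Fin j) → ∀ i, E0 i := fun r i =>
    c i ^ (j - expo H r i) * c' i ^ expo H r i
  have hcr0 : ∀ r i, cr r i ≠ 0 := fun r i => mul_ne_zero (pow_ne_zero _ (hc i))
    (pow_ne_zero _ (hc' i))
  have hgr : ∀ r i, GoodX (B i) (X i) (j * m) (D0 i) (cr r i) := by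
    intro r i
    have h1 := GoodX.mul (pow_ne_zero _ (hc i)) (pow_ne_zero _ (hc' i))
      ((hg i).pow (j - expo H r i)) ((hg' i).pow (expo H r i))
    rw [← add_mul, Nat.sub_add_cancel (expo_le H r i)] at h1
    exact h1
  have hval : ∀ r, extForm (j * m) D0 x (cr r) D = extForm (j * m) D0 x (fun i => c i ^ j) D *
      ∏ i, algebraMap (E0 i) (fixedField G) (f i) ^ expo H r i := by
    intro r
    unfold extForm
    rw [mul_right_comm, ← Finset.prod_mul_distrib]
    congr 1
    refine Finset.prod_congr rfl fun i _ => ?_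
    rw [← map_pow (algebraMap (E0 i) (fixedField G)), ← map_mul (algebraMap (E0 i) (fixedField G))]
    congr 1
    by_cases hi : i ∈ H
    · have h1 : c i ^ j = c i ^ (j - expo H r i) * c i ^ expo H r i := by
        rw [← pow_add, Nat.sub_add_cancel (expo_le H r i)]
      have h2 : c i ^ expo H r i ≠ 0 := pow_ne_zero _ (hc i)
      simp only [f, if_pos hi, cr]
      rw [h1, div_pow]
      field_simp
    · simp only [cr, expo_of_notMem H r hi, pow_zero, mul_one, Nat.sub_zero]
  have hli : LinearIndependent k fun r : (H → Fin j) => extForm (K := fixedField G) (j * m) D0 x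
      (cr r) := by
    refine LinearIndependent.of_comp
      (LinearMap.proj D : ((Fin n → Derivation k (fixedField G) (fixedField G)) →
        fixedField G) →ₗ[k] fixedField G) ?_
    have h1 := (monomials_indep (fun i => algebraMap (E0 i) (fixedField G) (f i))
      (hbasis f hf).1 H j).map' (LinearMap.mulLeft k (extForm (j * m) D0 x (fun i => c i ^ j) D))
      (LinearMap.ker_eq_bot.2 (mul_right_injective₀ hD))
    have h3 : (⇑(LinearMap.proj D : ((Fin n → Derivation k (fixedField G) (fixedField G)) →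
        fixedField G) →ₗ[k] fixedField G) ∘ fun r : (H → Fin j) =>
          extForm (K := fixedField G) (j * m) D0 x (cr r)) =
        ⇑(LinearMap.mulLeft k (extForm (j * m) D0 x (fun i => c i ^ j) D)) ∘
          fun r : (H → Fin j) => ∏ i, algebraMap (E0 i) (fixedField G) (f i) ^ expo H r i :=
      funext hval
    rw [h3]
    exact h1
  have hcard : Fintype.card (H → Fin j) = j ^ H.card := by simp
  let e : Fin (j ^ H.card) ≃ (H → Fin j) := (Fintype.equivFinOfCardEq hcard).symm
  refine ⟨fun l => extForm (j * m) D0 x (cr (e l)), hli.comp e e.injective, fun l => ?_⟩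
  refine ⟨extForm_pluri _ D0 x _, ?_, ?_⟩
  · intro v _ hv D hD
    exact dom_of_reg (regular_of_goodX (G := G) (E0 := E0) (E := fun i => F i)
      ρ hcomp B X hX0 hXe hrot hD0 (hcr0 _) (hgr _) x hx v hv D hD)
  · intro v _ _ D hD
    exact dom_of_reg (logregular_of_goodX (G := G) (E0 := E0)
      B X hD0 (hcr0 _) (hgr _) x hx v D hD)

end

end Pool.Agent.W619.X
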