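import Pool.Agent.W619.X.NV
import Pool.Agent.W619.TW.Mumf

/-! Mumford's problem on tensor differentials: orbifold divisors. -/

set_option autoImplicit false
set_option linter.overlappingInstances false
set_option linter.unusedSectionVars false

universe u v

open Polynomial FF IntermediateField IsDedekindDomain

namespace Pool.Agent.W619.X

open Pool.Agent.W603.LV Pool.Agent.W619.PQ Pool.Agent.W619.PL Pool.Agent.W619.TW

section

variable {k L : Type*} [Field k] [CharZero k] [IsAlgClosed k] [Field L] [Algebra k L]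
  {G : Subgroup (L ≃ₐ[k] L)} [Finite G] {n : ℕ} {E0 E : Fin n → Type*}
  [∀ i, Field (E0 i)] [∀ i, Field (E i)] [∀ i, Algebra k (E0 i)] [∀ i, Algebra k (E i)]
  [∀ i, Algebra (E0 i) (E i)] [∀ i, Algebra (E i) L] [∀ i, Algebra (E0 i) (fixedField G)]
  [∀ i, Algebra (E0 i) L]
  [∀ i, IsScalarTower k (E0 i) (E i)] [∀ i, IsScalarTower k (E i) L]
  [∀ i, IsScalarTower k (E0 i) L]
  [∀ i, IsScalarTower k (E0 i) (fixedField G)]
  [∀ i, IsScalarTower (E0 i) (E i) L] [∀ i, IsScalarTower (E0 i) (fixedField G) L]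
  [∀ i, IsFF k (E0 i)] [∀ i, IsFF k (E i)] [∀ i, FiniteDimensional (E0 i) (E i)]

open scoped Classical in
/-- The tensor product of exterior products of good forms is regular. -/
theorem tens_regular_of_goodX (ρ : ∀ i, G →* (E i ≃ₐ[k] E i))
    (hcomp : ∀ i (g : G) z, algebraMap (E i) L (ρ i g z) = (g : L ≃ₐ[k] L) (algebraMap (E i) L z))
    (X : ∀ i, Place k (E0 i) → ℚ)
    (hX0 : ∀ i q, 0 ≤ X i q)
    (hXe : ∀ i q, ∀ (w : Place k (E i)) (e : ℕ), Over w q e → 1 ≤ e * X i q)
    (hrot : ∀ g : G, (∃ i, ρ i g ≠ 1) → ∀ ζ : k, IsPrimitiveRoot ζ (orderOf (g : L ≃ₐ[k] L)) →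
      ∀ y : Fin n → ℚ, (∀ i, (y i = 0 ∧ ρ i g = 1) ∨
        ∃ (q : Place k (E i)) (p : Place k (E0 i)) (a r : ℕ), 0 < a ∧
          a < orderOf (g : L ≃ₐ[k] L) ∧ (∀ z : E i, q.ord z = 1 →
            Ge q 2 (ρ i g z - algebraMap k (E i) (ζ ^ a) * z)) ∧ Over q p r ∧
          y i = (a / orderOf (g : L ≃ₐ[k] L)) * r * X i p) → (1 : ℚ) ≤ ∑ i, y i)
    {M : ℕ} {D0 : ∀ i, Derivation k (E0 i) (E0 i)} {c : ∀ i, E0 i} (hD0 : ∀ i, D0 i ≠ 0)
    (hc : ∀ i, c i ≠ 0) (hgood : ∀ i, GoodX (fun _ => False) (X i) M (D0 i) (c i))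
    (x : ∀ i, E0 i) (hx : ∀ i, Transcendental k (x i)) (v : Place k (fixedField G))
    (D : Fin M → Fin n → Derivation k (fixedField G) (fixedField G)) (hD : ∀ l j, Pres v (D l j)) :
    v.Reg (tensForm M D0 x c D) := by
  obtain ⟨w, e, I, hwv, hIe, hI⟩ := exists_inertia G v
  -- the local data at each factor
  have hex : ∀ i, ∃ s : ℚ, 0 ≤ s ∧
      (((∀ f : E0 i, v.ord (algebraMap (E0 i) (fixedField G) f) = 0) ∧ s = 0) ∨
        ∃ (p : Place k (E0 i)) (α r b : ℕ) (q : Place k (E i)), Over v p α ∧ Over w q b ∧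
          Over q p r ∧ e * α = b * r ∧ s = α * X i p) := by
    intro i
    by_cases htriv : ∀ f : E0 i, v.ord (algebraMap (E0 i) (fixedField G) f) = 0
    · exact ⟨0, le_rfl, Or.inl ⟨htriv, rfl⟩⟩
    · push Not at htriv
      obtain ⟨α, p, hp⟩ := exists_over (K := E0 i) v htriv
      obtain ⟨q, b, r, h1, h2, h3⟩ := exists_factor_place (E := E i) hwv hp
      exact ⟨α * X i p, mul_nonneg (by positivity) (hX0 i p),
        Or.inr ⟨p, α, r, b, q, hp, h1, h2, h3, rfl⟩⟩
  choose s hs0 hs using hex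
  refine tensForm_regular M D0 hD0 x c hx hc v s ?_ ?_ D hD
  · intro i
    rcases hs i with h | ⟨p, α, r, b, q, h1, h2, h3, h4, h5⟩
    · exact Or.inl h
    · refine Or.inr ⟨p, α, h1, ?_⟩
      rw [h5]
      have h10 := ((hgood i) p).2 not_false
      have h11 : (0 : ℚ) ≤ α := by positivity
      push_cast at h10
      calc (α : ℚ) * X i p * M = α * (M * X i p) := by ring
        _ ≤ α * (p.ord (c i) + M * (1 - vo p (D0 i))) := mul_le_mul_of_nonneg_left h10 h11
  · by_cases hall : ∀ i, ∀ f : E0 i, v.ord (algebraMap (E0 i) (fixedField G) f) = 0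
    · exact Or.inl hall
    right
    have hepos : 0 < e := hwv.1
    obtain ⟨g, hgI, hgord, ζ, hζ, hgen⟩ := exists_rot_generator w I hI
    rw [hIe] at hgord hζ
    have hfo : ∀ i, IsOfFinOrder (ρ i g) := fun i =>
      (ρ i).isOfFinOrder (isOfFinOrder_of_finite g)
    -- the action on the uniformizers
    have hact : ∀ i, ∀ (q : Place k (E i)) (b : ℕ), Over w q b → ∀ z : E i, z ≠ 0 →
        Ge q (q.ord z + 1) (ρ i g z - algebraMap k (E i) (ζ ^ (b * q.ord z)) * z) := by
      intro i q b h2 z hz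
      have hb : (0 : ℤ) < b := by exact_mod_cast h2.1
      have hzL : algebraMap (E i) L z ≠ 0 := by simpa using hz
      have h10 := hgen (algebraMap (E i) L z) hzL
      rw [← hcomp, h2.2, IsScalarTower.algebraMap_apply k (E i) L, ← map_mul, ← map_sub] at h10
      rcases h10 with h10 | h10
      · left; exact (map_eq_zero _).1 h10
      · right
        rw [h2.2] at h10
        by_contra hcon
        push Not at hcon
        have h11 : (b : ℤ) * q.ord (ρ i g z - algebraMap k (E i) (ζ ^ (b * q.ord z)) * z) ≤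
            b * q.ord z := mul_le_mul_of_nonneg_left (by omega) hb.le
        omega
    -- factors which are not moved
    have hfixed : ∀ i, ρ i g = 1 → (∃ f : E0 i, v.ord (algebraMap (E0 i) (fixedField G) f) ≠ 0) →
        1 ≤ s i := by
      rintro i hi ⟨f, hf⟩
      rcases hs i with h | ⟨p, α, r, b, q, h1, h2, h3, h4, h5⟩
      · exact absurd (h.1 f) hf
      obtain ⟨t, ht0, ht⟩ := q.surj
      have h10 := hact i q b h2 t ht0
      rw [hi, AlgEquiv.one_apply, ht, mul_one, zpow_natCast] at h10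
      have h11 : ζ ^ b = 1 := by
        by_contra hne
        have h12 : t - algebraMap k (E i) (ζ ^ b) * t = algebraMap k (E i) (1 - ζ ^ b) * t := by
          rw [map_sub, map_one]; ring
        have h13 : (1 : k) - ζ ^ b ≠ 0 := sub_ne_zero.2 (Ne.symm hne)
        rw [h12] at h10
        rcases h10 with h10 | h10
        · rcases mul_eq_zero.1 h10 with h14 | h14
          · exact h13 ((map_eq_zero _).1 h14)
          · exact ht0 h14
        · rw [q.ord_mul ((_root_.map_ne_zero _).2 h13) ht0, q.ord_const h13, ht] at h10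
          omega
      have h12 : e ∣ b := hζ.dvd_of_pow_eq_one b h11
      obtain ⟨b', rfl⟩ := h12
      have hb' : 1 ≤ b' := by
        rcases Nat.eq_zero_or_pos b' with h | h
        · rw [h, mul_zero] at h2
          exact absurd h2.1 (lt_irrefl 0)
        · exact h
      have h13 : α = b' * r := by
        apply Nat.eq_of_mul_eq_mul_left hepos
        rw [h4]; ring
      rw [h5]
      refine (hXe i p q r h3).trans (mul_le_mul_of_nonneg_right ?_ (hX0 i p))
      have h14 : r ≤ α := by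
        rw [h13]
        nlinarith
      exact_mod_cast h14
    by_cases hmv : ∃ i, ρ i g ≠ 1
    swap
    · push Not at hmv hall
      obtain ⟨i, f, hf⟩ := hall
      exact (hfixed i (hmv i) ⟨f, hf⟩).trans
        (Finset.single_le_sum (fun i _ => hs0 i) (Finset.mem_univ i))
    have key : ∀ i, ∃ y : ℚ, ((y = 0 ∧ ρ i g = 1) ∨
        ∃ (q : Place k (E i)) (p : Place k (E0 i)) (a r : ℕ), 0 < a ∧
          a < orderOf (g : L ≃ₐ[k] L) ∧ (∀ z : E i, q.ord z = 1 →
            Ge q 2 (ρ i g z - algebraMap k (E i) (ζ ^ a) * z)) ∧ Over q p r ∧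
          y = (a / orderOf (g : L ≃ₐ[k] L)) * r * X i p) ∧ y ≤ s i := by
      intro i
      by_cases hmoved : ρ i g = 1
      · exact ⟨0, Or.inl ⟨rfl, hmoved⟩, hs0 i⟩
      obtain ⟨f, hf⟩ := nontrivial_of_moved (E0 := E0 i) hwv (g : L ≃ₐ[k] L) (ρ i g)
        (hcomp i g) (hI g hgI) hmoved
      rcases hs i with h | ⟨p, α, r, b, q, h1, h2, h3, h4, h5⟩
      · exact absurd (h.1 f) hf
      refine ⟨((b % e : ℕ) / orderOf (g : L ≃ₐ[k] L)) * r * X i p, ?_, ?_⟩
      · right
        refine ⟨q, p, b % e, r, ?_, by rw [hgord]; exact Nat.mod_lt _ hepos, ?_, h3, rfl⟩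
        · rw [Nat.pos_iff_ne_zero]
          intro h0
          apply hmoved
          refine eq_one_of_unipotent q (ρ i g) (hfo i) fun z hz => ?_
          have h10 := hact i q b h2 z hz
          have h11 : ζ ^ ((b : ℤ) * q.ord z) = 1 := by
            obtain ⟨b', hb'⟩ := Nat.dvd_of_mod_eq_zero h0
            rw [hb']
            push_cast
            rw [mul_assoc, zpow_mul, zpow_natCast, hζ.pow_eq_one, one_zpow]
          rw [h11, map_one, one_mul] at h10
          exact h10
        · intro z hz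
          have hz0 : z ≠ 0 := by
            rintro rfl
            rw [q.ord_zero] at hz
            omega
          have h10 := hact i q b h2 z hz0
          rw [hz, mul_one, zpow_natCast] at h10
          have h11 : ζ ^ b = ζ ^ (b % e) := by
            conv_lhs => rw [← Nat.div_add_mod b e, pow_add, pow_mul, hζ.pow_eq_one, one_pow,
              one_mul]
          rw [h11] at h10
          exact h10
      · rw [h5, hgord]
        have heq : (0 : ℚ) < e := by exact_mod_cast hepos
        refine mul_le_mul_of_nonneg_right ?_ (hX0 i p)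
        rw [div_mul_eq_mul_div, div_le_iff₀ heq]
        have h10 : b % e * r ≤ α * e := by
          calc b % e * r ≤ b * r := Nat.mul_le_mul_right _ (Nat.mod_le _ _)
            _ = α * e := by rw [← h4]; ring
        exact_mod_cast h10
    choose y hy1 hy2 using key
    exact (hrot g hmv ζ (by rw [hgord]; exact hζ) y hy1).trans
      (Finset.sum_le_sum fun i _ => hy2 i)

end

section

variable {k L : Type*} [Field k] [CharZero k] [IsAlgClosed k] [Field L] [Algebra k L]

open scoped Classical in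
/-- Existence of a nonzero tensor differential. -/
theorem tens_existsX (n : ℕ) (hn : Algebra.trdeg k L = n)
    (F : Fin n → IntermediateField k L) [hF : ∀ i, IsFF k (F i)] (hsup : ⨆ i, F i = ⊤)
    (G : Subgroup (L ≃ₐ[k] L)) [Finite G] {E0 : Fin n → Type*} [∀ i, Field (E0 i)]
    [∀ i, Algebra k (E0 i)] [∀ i, Algebra (E0 i) (F i)] [∀ i, Algebra (E0 i) (fixedField G)]
    [∀ i, Algebra (E0 i) L] [∀ i, IsScalarTower k (E0 i) (F i)] [∀ i, IsScalarTower k (E0 i) L]
    [∀ i, IsScalarTower k (E0 i) (fixedField G)] [∀ i, IsScalarTower (E0 i) (F i) L]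
    [∀ i, IsScalarTower (E0 i) (fixedField G) L] [∀ i, IsFF k (E0 i)]
    [∀ i, FiniteDimensional (E0 i) (F i)] (ρ : ∀ i, G →* (F i ≃ₐ[k] F i))
    (hcomp : ∀ i (g : G) z, ((ρ i g z : F i) : L) = (g : L ≃ₐ[k] L) (z : L))
    (hfix : ∀ i g (z : E0 i), ρ i g (algebraMap (E0 i) (F i) z) = algebraMap (E0 i) (F i) z)
    (hinv : ∀ i (z : F i), (∀ g, ρ i g z = z) → ∃ z0, algebraMap (E0 i) (F i) z0 = z)
    {s : ℕ} (e : Fin s → Fin n) (he : Function.Injective e)
    (δ : ∀ i, Place k (E0 i) → ℚ) (hfin : ∀ j, {q | δ (e j) q ≠ 0}.Finite)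
    (h01 : ∀ j q, 0 ≤ δ (e j) q ∧ δ (e j) q ≤ 1)
    (hle : ∀ j q, ∀ (w : Place k (F (e j))) (r : ℕ), Over w q r → δ (e j) q ≤ 1 - 1 / (r : ℚ))
    (hadm : ∀ j, Adm (k := k) 0 (F (e j)) (fun _ : Place k (E0 (e j)) => False) (δ (e j)))
    (hrot : ∀ g : G, (∃ j, ρ (e j) g ≠ 1) → ∀ ζ : k,
      IsPrimitiveRoot ζ (orderOf (g : L ≃ₐ[k] L)) →
      ∀ y : Fin s → ℚ, (∀ j, (y j = 0 ∧ ρ (e j) g = 1) ∨
        ∃ (q : Place k (F (e j))) (p : Place k (E0 (e j))) (a r : ℕ), 0 < a ∧
          a < orderOf (g : L ≃ₐ[k] L) ∧ (∀ z : F (e j), q.ord z = 1 →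
            Ge q 2 (ρ (e j) g z - algebraMap k (F (e j)) (ζ ^ a) * z)) ∧ Over q p r ∧
          y j = (a / orderOf (g : L ≃ₐ[k] L)) * r * (1 - δ (e j) p)) → (1 : ℚ) ≤ ∑ j, y j)
    (hirr : ∀ j, ¬ ∃ t : F (e j), k⟮t⟯ = ⊤) :
    ∃ m : ℕ, 1 ≤ m ∧ ∃ ω : MultilinearMap (fixedField G)
      (fun _ : Fin m × Fin s => Derivation k (fixedField G) (fixedField G)) (fixedField G),
      ω ≠ 0 ∧ ∀ v : Place k (fixedField G), ∀ D, (∀ p, Pres v (D p)) → v.Reg (ω D) := by
  have hgood : ∀ j, ∃ (m : ℕ) (D0 : Derivation k (E0 (e j)) (E0 (e j)))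
      (c : E0 (e j)), 1 ≤ m ∧ D0 ≠ 0 ∧ c ≠ 0 ∧
        GoodX (fun _ => False) (fun q => 1 - δ (e j) q) m D0 c := by
    intro j
    refine exists_goodX (ρ (e j)) (hfix (e j)) (hinv (e j)) (fun _ => False)
      (hasLog_of_nonrational _ (hirr j)) (δ (e j)) (hfin j) (h01 j) ?_
    rcases hadm j with ⟨D, o, h1, h2, h3, -⟩ | h
    · exact Or.inl ⟨D, o, h1, h2, h3⟩
    · exact Or.inr h
  choose m0 D0 c0 hm0 hD0 hc0 hg0 using hgood
  -- a common weight
  let m : ℕ := ∏ i, m0 i
  let a : Fin s → ℕ := fun i => ∏ j ∈ Finset.univ.erase i, m0 j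
  have ham : ∀ i, a i * m0 i = m := fun i => Finset.prod_erase_mul _ _ (Finset.mem_univ i)
  have hm1 : 1 ≤ m := Finset.one_le_prod' fun i _ => hm0 i
  let c : ∀ i, E0 (e i) := fun i => c0 i ^ a i
  have hc : ∀ i, c i ≠ 0 := fun i => pow_ne_zero _ (hc0 i)
  have hg : ∀ i, GoodX (fun _ => False) (fun q => 1 - δ (e i) q) m (D0 i) (c i) := fun i => by
    have := (hg0 i).pow (a i)
    rwa [ham i] at this
  choose x hx using fun i => IsFF.exists_transcendental (k := k) (K := E0 i)
  have hb : IsTranscendenceBasis k fun i => algebraMap (E0 i) (fixedField G) (x i) := by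
    apply basis_down (L := L) hn
    have h1 := basis_of_iSup F hsup hn (fun i => algebraMap (E0 i) (F i) (x i)) fun i =>
      transcendental_map (E := F i) (hx i)
    convert h1 using 2 with i
    change algebraMap (fixedField G) L (algebraMap (E0 i) (fixedField G) (x i)) =
      algebraMap (F i) L (algebraMap (E0 i) (F i) (x i))
    rw [← IsScalarTower.algebraMap_apply, ← IsScalarTower.algebraMap_apply]
  choose D hD using fun i => exists_dual _ hb i
  refine ⟨m, hm1, tensMap m D0 (fun j => x (e j)) c, ?_, ?_⟩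
  · intro h0
    have h1 := congrArg (fun ω => ω fun p => D (e p.2)) h0
    change (∏ i, algebraMap (E0 (e i)) (fixedField G) (c i / (D0 i (x (e i))) ^ m)) *
      ∏ _l : Fin m, Matrix.det (Matrix.of fun j i =>
        D (e j) (algebraMap (E0 (e i)) (fixedField G) (x (e i)))) = 0 at h1
    have h2 : (Matrix.of fun j i => D (e j) (algebraMap (E0 (e i)) (fixedField G) (x (e i)))) =
        (1 : Matrix (Fin s) (Fin s) (fixedField G)) := by
      ext j i
      rw [Matrix.of_apply, hD (e j) (e i), Matrix.one_apply]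
      by_cases hij : i = j
      · subst hij
        rw [if_pos rfl, if_pos rfl]
      · rw [if_neg fun h => hij (he h), if_neg fun h => hij h.symm]
    rw [h2, Matrix.det_one, Finset.prod_const_one, mul_one] at h1
    rw [Finset.prod_eq_zero_iff] at h1
    obtain ⟨i, -, hi⟩ := h1
    rw [_root_.map_eq_zero] at hi
    exact div_ne_zero (hc i) (pow_ne_zero _ (der_ne_zero (hD0 i) (hx (e i)))) hi
  · intro v D hD
    refine tens_regular_of_goodX (G := G) (E0 := fun j => E0 (e j)) (E := fun j => F (e j))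
      (fun j => ρ (e j)) (fun j => hcomp (e j)) (fun j q => 1 - δ (e j) q)
      (fun j q => by linarith [(h01 j q).2]) (fun j q w r hw => ?_) hrot hD0 hc hg
      (fun j => x (e j)) (fun j => hx (e j)) v (fun l j => D (l, j)) fun l j => hD (l, j)
    have h1 : (0 : ℚ) < r := by exact_mod_cast hw.1
    have h2 := hle j q w r hw
    have h3 : 1 / (r : ℚ) ≤ 1 - δ (e j) q := by linarith
    rw [div_le_iff₀ h1] at h3
    linarith

end

section

variable {k : Type v} {L : Type u} [Field k] [Field L] [Algebra k L]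

/-- The condition of Reid-Tai type for the factors in `J`: let `g` in `G` have order `d` and not be
trivial on all the curves `F i` with `i` in `J`; on each such curve on which `g` is not trivial
let `g` fix a point `q` with image `p` in the quotient curve and ramification index `e`, and act on
the cotangent space at `q` by `ζ ^ a`, with `0 < a < d` (where `ζ` is a primitive `d`-th root of
unity). Then `1 ≤ ∑ (a / d) e (1 - δ p)`, the sum over these `i`. -/
def RTCondOn {n : ℕ} (J : Set (Fin n)) (G : Subgroup (L ≃ₐ[k] L))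
    (F : Fin n → IntermediateField k L)
    (δ : ∀ i, Place k ↥(F i ⊓ fixedField G) → ℚ) : Prop :=
  ∀ g ∈ G, (∃ i ∈ J, ∃ z ∈ F i, g z ≠ z) → ∀ ζ : k, IsPrimitiveRoot ζ (orderOf g) →
    ∀ y : Fin n → ℚ, (∀ i ∉ J, y i = 0) →
    (∀ i ∈ J, (y i = 0 ∧ ∀ z ∈ F i, g z = z) ∨
      ∃ (q : Place k (F i)) (p : Place k ↥(F i ⊓ fixedField G)) (a e : ℕ),
        0 < a ∧ a < orderOf g ∧ IsRot (F i) g q (ζ ^ a) ∧ LiesOver inf_le_left q p e ∧
        y i = (a / orderOf g) * e * (1 - δ i p)) → 1 ≤ ∑ i, y i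

theorem mumford_x [CharZero k] [IsAlgClosed k] (n : ℕ) (hn : Algebra.trdeg k L = n)
    (F : Fin n → IntermediateField k L) (hF : ∀ i, IsFF k (F i)) (hsup : ⨆ i, F i = ⊤)
    (G : Subgroup (L ≃ₐ[k] L)) [Finite G] (hst : ∀ i, ∀ g ∈ G, ∀ z ∈ F i, g z ∈ F i)
    (J : Set (Fin n)) (hJrat : J = ∅ → ∀ i, ∃ t : F i, k⟮t⟯ = ⊤)
    (δ : ∀ i, Place k ↥(F i ⊓ fixedField G) → ℚ)
    (hδ : ∀ i ∈ J, (¬ ∃ t : F i, k⟮t⟯ = ⊤) ∧
      OrbNonneg (inf_le_left : F i ⊓ fixedField G ≤ F i) ∅ (δ i))
    (hrot : RTCondOn J G F δ)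
    (hT : TensorVanish k (fixedField G) n) :
    (∀ i, ∃ t : F i, k⟮t⟯ = ⊤) ∧ IsUnirational k (fixedField G) n := by
  classical
  by_cases hall : J = ∅
  · exact ⟨hJrat hall, unirational_of_rational n hn F hsup (fixedField G) (hJrat hall)⟩
  exfalso
  have hne := Set.nonempty_iff_ne_empty.2 hall
  let E0 : Fin n → Type u := fun i => ↥(F i ⊓ fixedField G)
  let _ : ∀ i, Field (E0 i) := fun i => inferInstanceAs (Field ↥(F i ⊓ fixedField G))
  let _ : ∀ i, Algebra k (E0 i) := fun i => inferInstanceAs (Algebra k ↥(F i ⊓ fixedField G))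
  let _ : ∀ i, Algebra (E0 i) (F i) := fun i =>
    (inclusion (inf_le_left : F i ⊓ fixedField G ≤ F i)).toRingHom.toAlgebra
  let _ : ∀ i, Algebra (E0 i) (fixedField G) := fun i =>
    (inclusion (inf_le_right : F i ⊓ fixedField G ≤ fixedField G)).toRingHom.toAlgebra
  let _ : ∀ i, Algebra (E0 i) L := fun i => inferInstanceAs (Algebra ↥(F i ⊓ fixedField G) L)
  have t1 : ∀ i, IsScalarTower k (E0 i) (F i) := fun i =>
    IsScalarTower.of_algebraMap_eq fun c => rfl
  have t2 : ∀ i, IsScalarTower k (E0 i) L := fun i =>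
    IsScalarTower.of_algebraMap_eq fun c => rfl
  have t3 : ∀ i, IsScalarTower k (E0 i) (fixedField G) := fun i =>
    IsScalarTower.of_algebraMap_eq fun c => rfl
  have t4 : ∀ i, IsScalarTower (E0 i) (F i) L := fun i =>
    IsScalarTower.of_algebraMap_eq fun c => rfl
  have t5 : ∀ i, IsScalarTower (E0 i) (fixedField G) L := fun i =>
    IsScalarTower.of_algebraMap_eq fun c => rfl
  have f1 : ∀ i, FiniteDimensional (E0 i) (F i) := fun i => inf_finite G (F i) (hst i) fun z => rfl
  have f2 : ∀ i, IsFF k (E0 i) := fun i => isFF_down (E := F i)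
  let J' : Finset (Fin n) := J.toFinset
  have hJ : ∀ i, i ∈ J' ↔ i ∈ J := fun i => by simp [J']
  let s := J'.card
  let e : Fin s ↪o Fin n := J'.orderEmbOfFin rfl
  have heJ : ∀ j, e j ∈ J := fun j => (hJ _).1 (J'.orderEmbOfFin_mem rfl j)
  have hJe : ∀ i ∈ J', ∃ j, e j = i := by
    intro i hi
    have h1 : i ∈ Set.range e := by
      rw [Finset.range_orderEmbOfFin]
      exact hi
    exact h1
  have hs : 0 < s := by
    rw [Finset.card_pos]
    obtain ⟨i, hi⟩ := hne
    exact ⟨i, (hJ i).2 hi⟩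
  obtain ⟨m, hm, ω, hω0, hω⟩ := tens_existsX n hn F hsup G (E0 := E0)
    (fun i => rho G (F i) (hst i))
    (fun i g z => rfl) (fun i g z => by
      apply Subtype.ext
      exact z.2.2 g) (fun i z hz => by
      refine ⟨⟨(z : L), z.2, fun g => ?_⟩, rfl⟩
      exact congrArg (Subtype.val : F i → L) (hz g)) e e.injective δ
    (fun j => (hδ _ (heJ j)).2.1.1)
    (fun j q => ⟨((hδ _ (heJ j)).2.1.2 q).1, ((hδ _ (heJ j)).2.1.2 q).2.1⟩)
    (fun j q w r hw => ((hδ _ (heJ j)).2.1.2 q).2.2 (Set.notMem_empty q) w r hw)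
    (fun j => adm_of_nonneg (inf_le_left : F (e j) ⊓ fixedField G ≤ F (e j)) rfl
      (hδ _ (heJ j)).2) (by
      rintro g ⟨j0, hj0⟩ ζ hζ y hy
      have hsum : ∑ i, Function.extend e y 0 i = ∑ j, y j := by
        symm
        refine Fintype.sum_of_injective e e.injective _ _ ?_ ?_
        · intro i hi
          rw [Function.extend_apply' _ _ _ (by simpa using hi)]
          rfl
        · intro j
          rw [e.injective.extend_apply]
      rw [← hsum]
      refine hrot (g : L ≃ₐ[k] L) g.2 ⟨e j0, heJ j0, ?_⟩ ζ hζ (Function.extend e y 0) ?_ ?_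
      · by_contra hcon
        push Not at hcon
        apply hj0
        ext z
        exact congrArg Subtype.val (Subtype.ext (hcon z z.2) :
          (⟨(g : L ≃ₐ[k] L) z, hst _ _ g.2 z z.2⟩ : F (e j0)) = z)
      · intro i hi
        rw [Function.extend_apply']
        · rfl
        · rintro ⟨j, rfl⟩
          exact hi (heJ j)
      · intro i hi
        obtain ⟨j, rfl⟩ := hJe i ((hJ i).2 hi)
        rw [e.injective.extend_apply]
        rcases hy j with ⟨h1, h2⟩ | ⟨q, p, a, r, h1, h2, h3, h4, h5⟩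
        · left
          refine ⟨h1, fun z hz => ?_⟩
          exact congrArg (fun φ : F (e j) ≃ₐ[k] F (e j) => ((φ ⟨z, hz⟩ : F (e j)) : L)) h2
        · right
          refine ⟨q, p, a, r, h1, h2, fun z z' hz' hz => ?_, h4, h5⟩
          have h5 : z' = rho G (F (e j)) (hst (e j)) g z := Subtype.ext hz'.symm
          rw [h5, Algebra.smul_def]
          exact (h3 z hz).imp (fun h => sub_eq_zero.1 h) id)
    (fun j => (hδ _ (heJ j)).1)
  have h1 := hT (m * s) (Nat.mul_pos hm hs) (ω.domDomCongr finProdFinEquiv) (by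
    intro v _ D hD
    rw [MultilinearMap.domDomCongr_apply]
    exact hω v _ fun p => hD _)
  apply hω0
  refine MultilinearMap.ext fun D => ?_
  have h2 := congrArg (fun ω' : MultilinearMap (fixedField G)
    (fun _ : Fin (m * s) => Derivation k (fixedField G) (fixedField G)) (fixedField G) =>
      ω' fun p => D (finProdFinEquiv.symm p)) h1
  change ω (fun i => D (finProdFinEquiv.symm (finProdFinEquiv i))) = 0 at h2
  rw [show (fun i => D (finProdFinEquiv.symm (finProdFinEquiv i))) = D from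
    funext fun i => congrArg D (Equiv.symm_apply_apply _ i)] at h2
  exact h2

end

end Pool.Agent.W619.X
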