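import Pool.Agent.W619.X.Moved
import Pool.Agent.W619.X.Tens

/-! Groups whose elements move many factors. -/

set_option autoImplicit false
set_option linter.overlappingInstances false
set_option linter.unusedSectionVars false

universe u v

open Polynomial FF IntermediateField Pool.Agent.W619.PQ Pool.Agent.W619.PL Pool.Agent.W619.TW

namespace Pool.Agent.W619.X

open Pool.Agent.W603.LV

section

variable {k : Type*} [Field k] [CharZero k] [IsAlgClosed k]
  {E0 E : Type*} [Field E0] [Field E] [Algebra k E0] [Algebra k E] [Algebra E0 E]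
  [IsScalarTower k E0 E] [IsFF k E0] [IsFF k E]

theorem ramified_finite [FiniteDimensional E0 E] (r : Place k E0 → ℕ)
    (hr : ∀ q, ∃ w : Place k E, Over w q (r q)) : {q | r q ≠ 1}.Finite := by
  obtain ⟨D, hD, hext⟩ := exists_ext (E := E) (der k E0) (der_ne (k := k) (K := E0))
  choose w hw using hr
  have hinj : Function.Injective w := by
    intro q q' h
    have h1 := hw q'
    rw [← h] at h1
    exact (over_unique' (hw q) h1).1
  refine ((vo_finite (der_ne (k := k) (K := E0))).union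
    ((vo_finite hD).preimage hinj.injOn)).subset ?_
  intro q hq
  rw [Set.mem_union, Set.mem_preimage, Set.mem_ofPred_eq, Set.mem_ofPred_eq]
  by_contra hcon
  push Not at hcon
  have h1 := vo_over (hw q) (der_ne (k := k) (K := E0)) hD hext
  rw [hcon.1, hcon.2, mul_zero] at h1
  apply hq
  omega

end

section

variable {k : Type v} {L : Type u} [Field k] [Field L] [Algebra k L]

theorem delta_exists [CharZero k] [IsAlgClosed k] (F : IntermediateField k L) [hF : IsFF k F]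
    (G : Subgroup (L ≃ₐ[k] L)) [Finite G] (hst : ∀ g ∈ G, ∀ z ∈ F, g z ∈ F)
    (B : Set (Place k ↥(F ⊓ fixedField G))) (hB : B.Finite) (N : ℕ) (hN : 1 ≤ N) :
    (∃ δ : Place k ↥(F ⊓ fixedField G) → ℚ, IsOrb inf_le_left B δ ∧
      AtLeast inf_le_left B N δ ∧ ∀ p ∉ B, 1 / (N : ℚ) ≤ 1 - δ p) ∧
    (∀ (w : Place k F) (q : Place k ↥(F ⊓ fixedField G)) (e : ℕ),
      LiesOver inf_le_left w q e → e ∣ Nat.card G) ∧
    ∀ g ∈ G, ∀ (q : Place k F) (p : Place k ↥(F ⊓ fixedField G)) (ζ : k) (d a e : ℕ), 0 < d →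
      0 < a → IsPrimitiveRoot ζ d → IsRot F g q (ζ ^ a) → LiesOver inf_le_left q p e →
      d ≤ a * e := by
  classical
  let _ : Algebra ↥(F ⊓ fixedField G) F :=
    (inclusion (inf_le_left : F ⊓ fixedField G ≤ F)).toRingHom.toAlgebra
  have t1 : IsScalarTower k ↥(F ⊓ fixedField G) F := IsScalarTower.of_algebraMap_eq fun c => rfl
  have f1 : FiniteDimensional ↥(F ⊓ fixedField G) F := inf_finite G F hst fun z => rfl
  have f2 : IsFF k ↥(F ⊓ fixedField G) := isFF_down (E := F)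
  have hfix : ∀ (g : G) (z : ↥(F ⊓ fixedField G)),
      rho G F hst g (algebraMap ↥(F ⊓ fixedField G) F z) = algebraMap ↥(F ⊓ fixedField G) F z := by
    intro g z
    apply Subtype.ext
    exact z.2.2 g
  have hinv : ∀ z : F, (∀ g, rho G F hst g z = z) →
      ∃ z0, algebraMap ↥(F ⊓ fixedField G) F z0 = z := by
    intro z hz
    refine ⟨⟨(z : L), z.2, fun g => ?_⟩, rfl⟩
    exact congrArg (Subtype.val : F → L) (hz g)
  have hov : ∀ (w : Place k F) (q : Place k ↥(F ⊓ fixedField G)) (e : ℕ),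
      LiesOver inf_le_left w q e ↔ Over w q e := fun w q e => Iff.rfl
  refine ⟨?_, fun w q e h => over_dvd (rho G F hst) hfix hinv ((hov w q e).1 h), ?_⟩
  · have hex : ∀ q : Place k ↥(F ⊓ fixedField G), ∃ e, ∃ w : Place k F, Over w q e :=
      fun q => exists_place_over q
    choose r hr using hex
    have huniq : ∀ (w : Place k F) (q : Place k ↥(F ⊓ fixedField G)) (e : ℕ),
        LiesOver inf_le_left w q e → e = r q := by
      intro w q e h
      obtain ⟨w', hw'⟩ := hr q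
      exact over_eq (rho G F hst) hfix hinv ((hov w q e).1 h) hw'
    have hr1 : ∀ q, 1 ≤ r q := fun q => by
      obtain ⟨w, hw⟩ := hr q
      exact hw.1
    have hm : ∀ q, (1 : ℚ) ≤ ((min (r q) N : ℕ) : ℚ) ∧
        ((min (r q) N : ℕ) : ℚ) ≤ r q ∧ ((min (r q) N : ℕ) : ℚ) ≤ N := fun q =>
      ⟨by exact_mod_cast le_min (hr1 q) hN, by exact_mod_cast min_le_left _ _,
        by exact_mod_cast min_le_right _ _⟩
    refine ⟨fun q => if q ∈ B then 1 else 1 - 1 / ((min (r q) N : ℕ) : ℚ), ⟨?_, ?_⟩, ?_, ?_⟩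
    · refine (hB.union (ramified_finite r hr)).subset ?_
      intro q hq
      rw [Set.mem_union, Set.mem_ofPred_eq]
      by_contra hcon
      push Not at hcon
      apply hq
      simp only
      rw [if_neg hcon.1, hcon.2, min_eq_left hN]
      norm_num
    · intro q
      have h1 := (hm q).1
      have h2 : 0 < 1 / ((min (r q) N : ℕ) : ℚ) := by positivity
      have h3 : 1 / ((min (r q) N : ℕ) : ℚ) ≤ 1 := by
        rw [div_le_one (by linarith)]; exact h1
      refine ⟨?_, ?_, ?_⟩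
      · dsimp only
        split_ifs <;> linarith
      · dsimp only
        split_ifs <;> linarith
      · intro hq w e he
        dsimp only
        rw [if_neg hq, huniq w q e he]
        have h4 := one_div_le_one_div_of_le (by linarith) (hm q).2.1
        linarith
    · intro q
      refine ⟨fun hq => ?_, fun hq w e he => ?_⟩
      · dsimp only
        rw [if_pos hq]
      · dsimp only
        rw [if_neg hq, huniq w q e he]
    · intro q hq
      dsimp only
      rw [if_neg hq]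
      have h4 := one_div_le_one_div_of_le (by linarith [(hm q).1]) (hm q).2.2
      linarith
  · intro g hg q p ζ d a e hd ha hζ hrot hle
    refine rot_mul_ge (rho G F hst ⟨g, hg⟩) (hfix ⟨g, hg⟩) ((hov q p e).1 hle) hd ha hζ ?_
    intro z hz
    have h1 := hrot z (rho G F hst ⟨g, hg⟩ z) rfl hz
    rw [Algebra.smul_def] at h1
    rcases h1 with h1 | h1
    · left
      rw [h1, sub_self]
    · exact Or.inr h1

/-- Each `g ≠ 1` in `G` moves at least `N` of the curves `F i`, for some `N` with `N₁ ≤ N`, or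
`N₂ ≤ N` if `3` does not divide the order of `G`, or `N₃ ≤ N` if the order of `G` is odd, or
`N₄ ≤ N` if all the `B i` are nonempty. -/
def ManyMoved {n : ℕ} (N₁ N₂ N₃ N₄ : ℕ) (G : Subgroup (L ≃ₐ[k] L))
    (F : Fin n → IntermediateField k L) (B : ∀ i, Set (Place k ↥(F i ⊓ fixedField G))) : Prop :=
  ∃ N : ℕ, (N₁ ≤ N ∨ (N₂ ≤ N ∧ ¬ 3 ∣ Nat.card G) ∨ (N₃ ≤ N ∧ ¬ 2 ∣ Nat.card G) ∨
    (N₄ ≤ N ∧ ∀ i, (B i).Nonempty)) ∧
    ∀ g ∈ G, g ≠ 1 → N ≤ {i | ∃ z ∈ F i, g z ≠ z}.ncard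

theorem many_aux [CharZero k] [IsAlgClosed k] {n : ℕ}
    (F : Fin n → IntermediateField k L) (hF : ∀ i, IsFF k (F i))
    (G : Subgroup (L ≃ₐ[k] L)) [Finite G] (hst : ∀ i, ∀ g ∈ G, ∀ z ∈ F i, g z ∈ F i)
    (B : ∀ i, Set (Place k ↥(F i ⊓ fixedField G))) (hB : ∀ i, (B i).Finite) (N : ℕ) (hN : 1 ≤ N) :
    ∃ δ : ∀ i, Place k ↥(F i ⊓ fixedField G) → ℚ,
      (∀ i, IsOrb inf_le_left (B i) (δ i) ∧ AtLeast inf_le_left (B i) N (δ i)) ∧
      ∀ g ∈ G, ∀ ζ : k, IsPrimitiveRoot ζ (orderOf g) → ∀ i, ∀ (y : ℚ) (q : Place k (F i))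
        (p : Place k ↥(F i ⊓ fixedField G)) (a e : ℕ), 0 < a → a < orderOf g →
        IsRot (F i) g q (ζ ^ a) → LiesOver inf_le_left q p e → p ∉ B i →
        y = (a / orderOf g) * e * (1 - δ i p) → 1 / (N : ℚ) ≤ y := by
  have h := fun i => delta_exists (F i) (hF := hF i) G (hst i) (B i) (hB i) N hN
  choose δ h1 h2 h3 using fun i => (h i).1
  refine ⟨δ, fun i => ⟨h1 i, h2 i⟩, ?_⟩
  intro g hg ζ hζ i y q p a e ha had hrot hle hpB hy
  have hd : 0 < orderOf g := by omega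
  have h4 := (h i).2.2 g hg q p ζ (orderOf g) a e hd ha hζ hrot hle
  have h5 : (1 : ℚ) ≤ (a / orderOf g) * e := by
    have hdq : (0 : ℚ) < orderOf g := by exact_mod_cast hd
    rw [div_mul_eq_mul_div, le_div_iff₀ hdq, one_mul]
    exact_mod_cast h4
  have h6 := h3 i p hpB
  have h7 : (0 : ℚ) < 1 / N := by
    have : (0 : ℚ) < N := by exact_mod_cast hN
    positivity
  rw [hy]
  nlinarith

open scoped Classical in
theorem sum_ge_of_moved {n N : ℕ} (hN : 1 ≤ N) (S : Set (Fin n)) (hS : N ≤ S.ncard)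
    (y : Fin n → ℚ) (h0 : ∀ i, 0 ≤ y i) (h1 : ∀ i ∈ S, 1 / (N : ℚ) ≤ y i) : 1 ≤ ∑ i, y i := by
  have hNq : (0 : ℚ) < N := by exact_mod_cast hN
  calc (1 : ℚ) = N * (1 / N) := by field_simp
    _ ≤ (Finset.univ.filter fun i => i ∈ S).card * (1 / N) := by
        refine mul_le_mul_of_nonneg_right ?_ (by positivity)
        have : (Finset.univ.filter fun i => i ∈ S).card = S.ncard := by
          rw [← Set.ncard_coe_finset]
          congr 1
          ext i
          simp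
        rw [this]
        exact_mod_cast hS
    _ = ∑ i ∈ Finset.univ.filter (fun i => i ∈ S), (1 / N : ℚ) := by
        rw [Finset.sum_const, nsmul_eq_mul]
    _ ≤ ∑ i ∈ Finset.univ.filter (fun i => i ∈ S), y i := by
        refine Finset.sum_le_sum fun i hi => ?_
        exact h1 i (Finset.mem_filter.1 hi).2
    _ ≤ ∑ i, y i := Finset.sum_le_sum_of_subset_of_nonneg (Finset.subset_univ _)
        fun i _ _ => h0 i

/-- A group moving many factors satisfies the condition of Reid-Tai type. -/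
theorem rt_of_moved [CharZero k] [IsAlgClosed k] {n : ℕ}
    (F : Fin n → IntermediateField k L) (hF : ∀ i, IsFF k (F i))
    (G : Subgroup (L ≃ₐ[k] L)) [Finite G] (hst : ∀ i, ∀ g ∈ G, ∀ z ∈ F i, g z ∈ F i)
    (B : ∀ i, Set (Place k ↥(F i ⊓ fixedField G))) (hB : ∀ i, (B i).Finite) (N : ℕ) (hN : 1 ≤ N)
    (hmv : ∀ g ∈ G, g ≠ 1 → N ≤ {i | ∃ z ∈ F i, g z ≠ z}.ncard) :
    ∃ δ : ∀ i, Place k ↥(F i ⊓ fixedField G) → ℚ,
      (∀ i, IsOrb inf_le_left (B i) (δ i) ∧ AtLeast inf_le_left (B i) N (δ i)) ∧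
      RTCond G F B δ := by
  obtain ⟨δ, h1, h2⟩ := many_aux F hF G hst B hB N hN
  refine ⟨δ, h1, ?_⟩
  intro g hg hg1 ζ hζ y hy
  have hNq : (0 : ℚ) < 1 / N := by
    have : (0 : ℚ) < N := by exact_mod_cast hN
    positivity
  refine sum_ge_of_moved hN _ (hmv g hg hg1) y (fun i => ?_) (fun i hi => ?_)
  · rcases hy i with h | ⟨q, p, a, e, h3, h4, h5, h6, h7, h8⟩
    · exact h.1.ge
    · exact hNq.le.trans (h2 g hg ζ hζ i (y i) q p a e h3 h4 h5 h6 h7 h8)
  · rcases hy i with h | ⟨q, p, a, e, h3, h4, h5, h6, h7, h8⟩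
    · obtain ⟨z, hz, hz'⟩ := hi
      exact absurd (h.2 z hz) hz'
    · exact h2 g hg ζ hζ i (y i) q p a e h3 h4 h5 h6 h7 h8

theorem index_of_moved [CharZero k] [IsAlgClosed k] {n : ℕ}
    (F : Fin n → IntermediateField k L) (hF : ∀ i, IsFF k (F i))
    (G : Subgroup (L ≃ₐ[k] L)) [Finite G] (hst : ∀ i, ∀ g ∈ G, ∀ z ∈ F i, g z ∈ F i)
    {r : ℕ} (hr : ¬ r ∣ Nat.card G) (i : Fin n) (w : Place k (F i))
    (q : Place k ↥(F i ⊓ fixedField G)) : ¬ LiesOver inf_le_left w q r := by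
  intro h
  exact hr ((delta_exists (F i) (hF := hF i) G (hst i) ∅ Set.finite_empty 1 le_rfl).2.1 w q r h)

theorem pos_of_moved [CharZero k] [IsAlgClosed k] {n : ℕ}
    (F : Fin n → IntermediateField k L) (hF : ∀ i, IsFF k (F i))
    (G : Subgroup (L ≃ₐ[k] L)) [Finite G] (hst : ∀ i, ∀ g ∈ G, ∀ z ∈ F i, g z ∈ F i)
    (B : ∀ i, Set (Place k ↥(F i ⊓ fixedField G))) (hB : ∀ i, (B i).Finite)
    (h : ManyMoved 7 5 4 3 G F B) :
    ∃ δ : ∀ i, Place k ↥(F i ⊓ fixedField G) → ℚ,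
      (∀ i, OrbPos inf_le_left (B i) (δ i)) ∧ RTCond G F B δ := by
  obtain ⟨N, hN, hmv⟩ := h
  obtain ⟨δ, h1, h2⟩ := rt_of_moved F hF G hst B hB N (by omega) hmv
  refine ⟨δ, fun i => ⟨(h1 i).1, Or.inr ⟨N, (h1 i).2, ?_⟩⟩, h2⟩
  rcases hN with h | ⟨h, h'⟩ | ⟨h, h'⟩ | ⟨h, h'⟩
  · exact Or.inl h
  · exact Or.inr (Or.inl ⟨h, fun w q => index_of_moved F hF G hst h' i w q⟩)
  · exact Or.inr (Or.inr (Or.inl ⟨h, fun w q => index_of_moved F hF G hst h' i w q⟩))
  · exact Or.inr (Or.inr (Or.inr ⟨h, h' i⟩))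

theorem nonneg_of_moved [CharZero k] [IsAlgClosed k] {n : ℕ}
    (F : Fin n → IntermediateField k L) (hF : ∀ i, IsFF k (F i))
    (G : Subgroup (L ≃ₐ[k] L)) [Finite G] (hst : ∀ i, ∀ g ∈ G, ∀ z ∈ F i, g z ∈ F i)
    (B : ∀ i, Set (Place k ↥(F i ⊓ fixedField G))) (hB : ∀ i, (B i).Finite)
    (h : ManyMoved 6 4 3 2 G F B) :
    ∃ δ : ∀ i, Place k ↥(F i ⊓ fixedField G) → ℚ,
      (∀ i, OrbNonneg inf_le_left (B i) (δ i)) ∧ RTCond G F B δ := by
  obtain ⟨N, hN, hmv⟩ := h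
  obtain ⟨δ, h1, h2⟩ := rt_of_moved F hF G hst B hB N (by omega) hmv
  refine ⟨δ, fun i => ⟨(h1 i).1, Or.inr ⟨N, (h1 i).2, ?_⟩⟩, h2⟩
  rcases hN with h | ⟨h, h'⟩ | ⟨h, h'⟩ | ⟨h, h'⟩
  · exact Or.inl h
  · exact Or.inr (Or.inl ⟨h, fun w q => index_of_moved F hF G hst h' i w q⟩)
  · exact Or.inr (Or.inr (Or.inl ⟨h, fun w q => index_of_moved F hF G hst h' i w q⟩))
  · exact Or.inr (Or.inr (Or.inr ⟨h, h' i⟩))

end

end Pool.Agent.W619.X
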