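import Pool.Agent.W619.X.Final
import Pool.Agent.W619.PQ.Approx

/-! Ramification indices in a Galois covering of curves; groups moving many factors. -/

set_option autoImplicit false
set_option linter.overlappingInstances false
set_option linter.unusedSectionVars false

universe u v

open Polynomial FF IntermediateField Pool.Agent.W619.PQ Pool.Agent.W619.PL Pool.Agent.W619.TW

namespace Pool.Agent.W619.X

open Pool.Agent.W603.LV

section

variable {k K : Type*} [Field k] [CharZero k] [IsAlgClosed k] [Field K] [Algebra k K] [IsFF k K]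

theorem approx_all (S : Finset (Place k K)) (a : Place k K → K) (N : ℤ) :
    ∃ z : K, ∀ P ∈ S, Ge P N (z - a P) := by
  classical
  choose b hb1 hb2 using fun P : Place k K => approx_one (S.erase P) P (Finset.notMem_erase P S)
    (a P) N
  refine ⟨∑ P ∈ S, b P, fun P hP => ?_⟩
  rw [← Finset.add_sum_erase _ _ hP]
  have h1 : b P + ∑ Q ∈ S.erase P, b Q - a P = (b P - a P) + ∑ Q ∈ S.erase P, b Q := by ring
  rw [h1]
  refine (hb1 P).add (Ge.sum _ _ fun Q hQ => ?_)
  rw [Finset.mem_erase] at hQ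
  exact hb2 Q P (Finset.mem_erase.2 ⟨hQ.1.symm, hP⟩)

theorem ord_of_close {P : Place k K} {z a : K} {N : ℤ} (ha : a ≠ 0) (hN : P.ord a < N)
    (h : Ge P N (z - a)) : z ≠ 0 ∧ P.ord z = P.ord a := by
  rcases h with h | h
  · rw [sub_eq_zero] at h
    rw [h]
    exact ⟨ha, rfl⟩
  · by_cases hz : z - a = 0
    · rw [sub_eq_zero] at hz
      rw [hz]
      exact ⟨ha, rfl⟩
    have h1 := P.ord_add_eq ha hz (hN.trans_le h)
    rwa [add_sub_cancel] at h1

end

section

variable {k : Type*} [Field k] [CharZero k] [IsAlgClosed k]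
  {E0 E : Type*} [Field E0] [Field E] [Algebra k E0] [Algebra k E] [Algebra E0 E]
  [IsScalarTower k E0 E] [IsFF k E0] [IsFF k E]

/-- The stabilizer of a place. -/
def stab {H : Type*} [Group H] (ρ : H →* (E ≃ₐ[k] E)) (w : Place k E) : Subgroup H where
  carrier := {h | ∀ z, w.ord (ρ h z) = w.ord z}
  one_mem' := fun z => by rw [map_one]; rfl
  mul_mem' := by
    intro a b ha hb z
    rw [map_mul, AlgEquiv.mul_apply, ha, hb]
  inv_mem' := by
    intro a ha z
    have h1 := ha (ρ a⁻¹ z)
    rw [← AlgEquiv.mul_apply, ← map_mul, mul_inv_cancel, map_one] at h1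
    exact h1.symm

theorem norm_unif {H : Type*} [Group H] [Finite H] (ρ : H →* (E ≃ₐ[k] E))
    (hinv : ∀ z : E, (∀ h, ρ h z = z) → ∃ z0, algebraMap E0 E z0 = z) (w : Place k E)
    (W : Finset (Place k E)) (hne : ∀ w' ∈ W, ∀ h, w' ≠ w.comp (ρ h)) :
    ∃ c : E0, c ≠ 0 ∧ w.ord (algebraMap E0 E c) = Nat.card (stab ρ w) ∧
      ∀ w' ∈ W, w'.ord (algebraMap E0 E c) = 0 := by
  classical
  have hFin : Fintype H := Fintype.ofFinite H
  obtain ⟨π, hπ0, hπ⟩ := w.surj
  let S : Finset (Place k E) := (Finset.univ.image fun h : H => w.comp (ρ h)) ∪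
    W.biUnion fun w' => Finset.univ.image fun h : H => w'.comp (ρ h)
  obtain ⟨z, hz⟩ := approx_all S (fun P => if P = w then π else 1) 2
  have hcomp : ∀ (P : Place k E) (h : H), w.comp (ρ h) = P ↔ ∀ z, w.ord (ρ h z) = P.ord z := by
    intro P h
    constructor
    · rintro rfl z
      rfl
    · intro h1
      apply Place.ext
      funext z
      exact h1 z
  have h1 : ∀ h : H, z ≠ 0 ∧ (w.comp (ρ h)).ord z = if h ∈ stab ρ w then 1 else 0 := by
    intro h
    have h2 := hz (w.comp (ρ h)) (Finset.mem_union_left _ (Finset.mem_image_of_mem _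
      (Finset.mem_univ h)))
    by_cases h3 : h ∈ stab ρ w
    · have h4 : w.comp (ρ h) = w := (hcomp w h).2 h3
      rw [if_pos h3]
      simp only [h4, if_true] at h2 ⊢
      have h5 := ord_of_close hπ0 (by omega) h2
      rwa [hπ] at h5
    · have h4 : w.comp (ρ h) ≠ w := fun h5 => h3 ((hcomp w h).1 h5)
      rw [if_neg h3]
      simp only [if_neg h4] at h2
      have h5 := ord_of_close one_ne_zero (by rw [Place.ord_one]; norm_num) h2
      rwa [Place.ord_one] at h5
  have h2 : ∀ w' ∈ W, ∀ h : H, (w'.comp (ρ h)).ord z = 0 := by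
    intro w' hw' h
    have h2 := hz (w'.comp (ρ h)) (Finset.mem_union_right _ (Finset.mem_biUnion.2 ⟨w', hw',
      Finset.mem_image_of_mem _ (Finset.mem_univ h)⟩))
    have h4 : w'.comp (ρ h) ≠ w := by
      intro h5
      apply hne w' hw' h⁻¹
      apply Place.ext
      funext z
      have h6 := congrArg (fun P : Place k E => P.ord (ρ h⁻¹ z)) h5
      simp only [Place.comp_ord] at h6
      rw [← AlgEquiv.mul_apply, ← map_mul, mul_inv_cancel, map_one] at h6
      exact h6
    simp only [if_neg h4] at h2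
    have h5 := ord_of_close one_ne_zero (by rw [Place.ord_one]; norm_num) h2
    rw [Place.ord_one] at h5
    exact h5.2
  obtain ⟨c, hc⟩ := hinv (∏ h : H, ρ h z) (by
    intro g
    rw [map_prod]
    refine Fintype.prod_equiv (Equiv.mulLeft g) _ _ fun h => ?_
    simp only [Equiv.coe_mulLeft, map_mul]
    rfl)
  have hz0 : z ≠ 0 := (h1 1).1
  have hN0 : ∏ h : H, ρ h z ≠ 0 := Finset.prod_ne_zero_iff.2 fun h _ => by simpa using hz0
  refine ⟨c, ?_, ?_, ?_⟩
  · rintro rfl
    rw [map_zero] at hc
    exact hN0 hc.symm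
  · rw [hc, ord_prod _ _ _ fun h _ => by simpa using hz0]
    have h3 : ∀ h : H, w.ord (ρ h z) = if h ∈ stab ρ w then 1 else 0 := fun h => (h1 h).2
    rw [Finset.sum_congr rfl fun h _ => h3 h, Finset.sum_boole, Nat.card_eq_fintype_card,
      Fintype.card_subtype]
  · intro w' hw'
    rw [hc, ord_prod _ _ _ fun h _ => by simpa using hz0]
    exact Finset.sum_eq_zero fun h _ => h2 w' hw' h

theorem over_dvd {H : Type*} [Group H] [Finite H] (ρ : H →* (E ≃ₐ[k] E))
    (hfix : ∀ (h : H) (z : E0), ρ h (algebraMap E0 E z) = algebraMap E0 E z)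
    (hinv : ∀ z : E, (∀ h, ρ h z = z) → ∃ z0, algebraMap E0 E z0 = z) {w : Place k E}
    {q : Place k E0} {e : ℕ} (h : Over w q e) : e ∣ Nat.card H := by
  obtain ⟨c, -, hc, -⟩ := norm_unif (E0 := E0) ρ hinv w ∅ (by simp)
  rw [h.2] at hc
  have h1 : (e : ℤ) ∣ Nat.card (stab ρ w) := ⟨_, hc.symm⟩
  exact (Int.natCast_dvd_natCast.1 h1).trans (Subgroup.card_subgroup_dvd_card _)

theorem over_eq {H : Type*} [Group H] [Finite H] (ρ : H →* (E ≃ₐ[k] E))
    (hfix : ∀ (h : H) (z : E0), ρ h (algebraMap E0 E z) = algebraMap E0 E z)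
    (hinv : ∀ z : E, (∀ h, ρ h z = z) → ∃ z0, algebraMap E0 E z0 = z) {w w' : Place k E}
    {q : Place k E0} {e e' : ℕ} (h : Over w q e) (h' : Over w' q e') : e = e' := by
  by_cases hcon : ∀ h, w' ≠ w.comp (ρ h)
  · obtain ⟨c, hc0, hc1, hc2⟩ := norm_unif (E0 := E0) ρ hinv w {w'} (by simpa using hcon)
    replace hc2 := hc2 w' (Finset.mem_singleton_self _)
    rw [h.2] at hc1
    rw [h'.2] at hc2
    exfalso
    have h1 : (0 : ℤ) < e' := by exact_mod_cast h'.1
    have h2 : q.ord c = 0 := by
      rcases mul_eq_zero.1 hc2 with h3 | h3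
      · omega
      · exact h3
    rw [h2, mul_zero] at hc1
    have h3 : 0 < Nat.card (stab ρ w) := Nat.card_pos
    omega
  · push Not at hcon
    obtain ⟨g, hg⟩ := hcon
    obtain ⟨s, hs0, hs⟩ := q.surj
    have h1 := h'.2 s
    rw [hg, Place.comp_ord, hfix, h.2, hs] at h1
    omega

/-- A rotation at a ramified point. -/
theorem rot_mul_ge (g : E ≃ₐ[k] E) (hfix : ∀ z : E0, g (algebraMap E0 E z) = algebraMap E0 E z)
    {q : Place k E} {p : Place k E0} {e : ℕ} (h : Over q p e) {ζ : k} {d a : ℕ} (hd : 0 < d)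
    (ha : 0 < a) (hζ : IsPrimitiveRoot ζ d)
    (hrot : ∀ z : E, q.ord z = 1 → Ge q 2 (g z - algebraMap k E (ζ ^ a) * z)) : d ≤ a * e := by
  obtain ⟨s, hs0, hs⟩ := p.surj
  obtain ⟨π, hπ0, hπ⟩ := q.surj
  have he := h.1
  have hs1 : q.ord (algebraMap E0 E s) = e := by rw [h.2, hs, mul_one]
  have hsE : algebraMap E0 E s ≠ 0 := by simpa using hs0
  have hc0 : algebraMap k E (ζ ^ a) ≠ 0 := by
    rw [map_ne_zero_iff _ (algebraMap k E).injective]
    intro h0
    have h1 : ζ = 0 := pow_eq_zero_iff (by omega) |>.1 h0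
    have := hζ.pow_eq_one
    rw [h1, zero_pow (by omega)] at this
    exact zero_ne_one this
  set C := algebraMap k E (ζ ^ a) with hC
  have hCord : q.ord C = 0 := q.ord_const (by
    intro h0; apply hc0; rw [hC, h0, map_zero])
  -- the action on `π ^ j` times a uniformizer
  have key : ∀ j : ℕ, ∀ z : E, q.ord z = (j + 1 : ℕ) →
      Ge q (j + 2 : ℕ) (g z - C ^ (j + 1) * z) := by
    intro j
    induction j with
    | zero =>
      intro z hz
      have := hrot z (by simpa using hz)
      simpa using this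
    | succ j ih =>
      intro z hz
      have hz0 : z ≠ 0 := by
        rintro rfl
        rw [q.ord_zero] at hz
        push_cast at hz
        omega
      have h1 : q.ord (z / π) = (j + 1 : ℕ) := by
        rw [q.ord_div hz0 hπ0, hz, hπ]; push_cast; ring
      have h2 := ih _ h1
      have h3 := hrot π hπ
      have hπg : Ge q 1 (g π) := by
        have h4 : g π = (g π - C * π) + C * π := by ring
        rw [h4]
        refine (h3.mono (by norm_num)).add (Or.inr ?_)
        rw [q.ord_mul hc0 hπ0, hCord, hπ]; norm_num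
      have h5 : g z - C ^ (j + 1 + 1) * z =
          (g (z / π) - C ^ (j + 1) * (z / π)) * g π +
            (C ^ (j + 1) * (z / π)) * (g π - C * π) := by
        have h6 : g z = g (z / π) * g π := by
          rw [← map_mul, div_mul_cancel₀ _ hπ0]
        rw [h6]
        field_simp
        ring
      rw [h5]
      refine Ge.add ?_ ?_
      · have := h2.mul hπg
        refine this.mono ?_
        push_cast
        omega
      · have h7 : Ge q (j + 1 : ℕ) (C ^ (j + 1) * (z / π)) := by
          right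
          rw [q.ord_mul (pow_ne_zero _ hc0) (div_ne_zero hz0 hπ0), q.ord_pow, hCord, mul_zero,
            zero_add, h1]
        have := h7.mul h3
        refine this.mono ?_
        push_cast
        omega
  have h1 := key (e - 1) (algebraMap E0 E s) (by rw [hs1]; congr 1; omega)
  rw [hfix] at h1
  have he1 : e - 1 + 1 = e := by omega
  have he2 : e - 1 + 2 = e + 1 := by omega
  rw [he1, he2] at h1
  have h2 : (ζ ^ a) ^ e = 1 := by
    by_contra hne
    have h3 : algebraMap E0 E s - C ^ e * algebraMap E0 E s =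
        algebraMap k E (1 - (ζ ^ a) ^ e) * algebraMap E0 E s := by
      rw [hC, map_sub, map_one, map_pow _ (ζ ^ a)]; ring
    rw [h3] at h1
    have h4 : (1 - (ζ ^ a) ^ e) ≠ 0 := sub_ne_zero.2 (Ne.symm hne)
    have h5 : algebraMap k E (1 - (ζ ^ a) ^ e) ≠ 0 := by
      rwa [map_ne_zero_iff _ (algebraMap k E).injective]
    rcases h1 with h1 | h1
    · exact (mul_ne_zero h5 hsE) h1
    · rw [q.ord_mul h5 hsE, q.ord_const h4, hs1] at h1
      push_cast at h1
      omega
  rw [← pow_mul] at h2
  exact Nat.le_of_dvd (Nat.mul_pos ha he) (hζ.dvd_of_pow_eq_one _ h2)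

end

end Pool.Agent.W619.X
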