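import Pool.Agent.W619.X.Exist
import Pool.Agent.W619.TW.Rot

/-! Regularity of the exterior products of forms with poles along orbifold divisors. -/

set_option autoImplicit false
set_option linter.overlappingInstances false
set_option linter.unusedSectionVars false

open Polynomial FF IntermediateField

namespace Pool.Agent.W619.X

open Pool.Agent.W603.LV Pool.Agent.W619.PQ Pool.Agent.W619.PL Pool.Agent.W619.TW

section

variable {k L : Type*} [Field k] [CharZero k] [IsAlgClosed k] [Field L] [Algebra k L]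
  {G : Subgroup (L ≃ₐ[k] L)} [Finite G] {n : ℕ} {E0 E : Fin n → Type*}
  [∀ i, Field (E0 i)] [∀ i, Field (E i)] [∀ i, Algebra k (E0 i)] [∀ i, Algebra k (E i)]
  [∀ i, Algebra (E0 i) (E i)] [∀ i, Algebra (E i) L] [∀ i, Algebra (E0 i) (fixedField G)]
  [∀ i, Algebra (E0 i) L]
  [∀ i, IsScalarTower k (E0 i) (E i)] [∀ i, IsScalarTower k (E i) L]
  [∀ i, IsScalarTower k (E0 i) L]
  [∀ i, IsScalarTower k (E0 i) (fixedField G)]
  [∀ i, IsScalarTower (E0 i) (E i) L] [∀ i, IsScalarTower (E0 i) (fixedField G) L]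
  [∀ i, IsFF k (E0 i)] [∀ i, IsFF k (E i)] [∀ i, FiniteDimensional (E0 i) (E i)]

open scoped Classical in
/-- The exterior product of good forms is regular off the boundary. -/
theorem regular_of_goodX (ρ : ∀ i, G →* (E i ≃ₐ[k] E i))
    (hcomp : ∀ i (g : G) z, algebraMap (E i) L (ρ i g z) = (g : L ≃ₐ[k] L) (algebraMap (E i) L z))
    (B0 : ∀ i, Place k (E0 i) → Prop) (X : ∀ i, Place k (E0 i) → ℚ)
    (hX0 : ∀ i q, 0 ≤ X i q)
    (hXe : ∀ i q, ¬ B0 i q → ∀ (w : Place k (E i)) (e : ℕ), Over w q e → 1 ≤ e * X i q)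
    (hrot : ∀ g : G, g ≠ 1 → ∀ ζ : k, IsPrimitiveRoot ζ (orderOf (g : L ≃ₐ[k] L)) →
      ∀ y : Fin n → ℚ, (∀ i, (y i = 0 ∧ ρ i g = 1) ∨
        ∃ (q : Place k (E i)) (p : Place k (E0 i)) (a r : ℕ), 0 < a ∧
          a < orderOf (g : L ≃ₐ[k] L) ∧ (∀ z : E i, q.ord z = 1 →
            Ge q 2 (ρ i g z - algebraMap k (E i) (ζ ^ a) * z)) ∧ Over q p r ∧ ¬ B0 i p ∧
          y i = (a / orderOf (g : L ≃ₐ[k] L)) * r * X i p) → (1 : ℚ) ≤ ∑ i, y i)
    {M : ℕ} {D0 : ∀ i, Derivation k (E0 i) (E0 i)} {c : ∀ i, E0 i} (hD0 : ∀ i, D0 i ≠ 0)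
    (hc : ∀ i, c i ≠ 0) (hgood : ∀ i, GoodX (B0 i) (X i) M (D0 i) (c i)) (x : ∀ i, E0 i)
    (hx : ∀ i, Transcendental k (x i)) (v : Place k (fixedField G))
    (hv : ¬ Bdry B0 v)
    (D : Fin n → Derivation k (fixedField G) (fixedField G)) (hD : ∀ j, Pres v (D j)) :
    v.Reg (extForm M D0 x c D) := by
  obtain ⟨w, e, I, hwv, hIe, hI⟩ := exists_inertia G v
  -- the local data at each factor
  have hex : ∀ i, ∃ s : ℚ, 0 ≤ s ∧
      (((∀ f : E0 i, v.ord (algebraMap (E0 i) (fixedField G) f) = 0) ∧ s = 0) ∨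
        ∃ (p : Place k (E0 i)) (α r b : ℕ) (q : Place k (E i)), Over v p α ∧ Over w q b ∧
          Over q p r ∧ e * α = b * r ∧ s = α * X i p ∧ ¬ B0 i p) := by
    intro i
    by_cases htriv : ∀ f : E0 i, v.ord (algebraMap (E0 i) (fixedField G) f) = 0
    · exact ⟨0, le_rfl, Or.inl ⟨htriv, rfl⟩⟩
    · push Not at htriv
      obtain ⟨α, p, hp⟩ := exists_over (K := E0 i) v htriv
      obtain ⟨q, b, r, h1, h2, h3⟩ := exists_factor_place (E := E i) hwv hp
      have hnB : ¬ B0 i p := fun h => hv ⟨i, p, α, hp, h⟩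
      exact ⟨α * X i p, mul_nonneg (by positivity) (hX0 i p),
        Or.inr ⟨p, α, r, b, q, hp, h1, h2, h3, rfl, hnB⟩⟩
  choose s hs0 hs using hex
  refine extForm_regular M D0 hD0 x c hx hc v s ?_ ?_ D hD
  · intro i
    rcases hs i with h | ⟨p, α, r, b, q, h1, h2, h3, h4, h5, h6⟩
    · exact Or.inl h
    · refine Or.inr ⟨p, α, h1, ?_⟩
      rw [h5]
      have h10 := ((hgood i) p).2 h6
      have h11 : (0 : ℚ) ≤ α := by positivity
      push_cast at h10
      calc (α : ℚ) * X i p * M = α * (M * X i p) := by ring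
        _ ≤ α * (p.ord (c i) + M * (1 - vo p (D0 i))) := mul_le_mul_of_nonneg_left h10 h11
  · by_cases hall : ∀ i, ∀ f : E0 i, v.ord (algebraMap (E0 i) (fixedField G) f) = 0
    · exact Or.inl hall
    right
    have hepos : 0 < e := hwv.1
    rcases Nat.lt_or_ge 1 e with he | he
    · -- ramified
      obtain ⟨g, hgI, hgord, ζ, hζ, hgen⟩ := exists_rot_generator w I hI
      rw [hIe] at hgord hζ
      have hg1 : g ≠ 1 := by
        rintro rfl
        rw [Subgroup.coe_one, orderOf_one] at hgord
        omega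
      have hfo : ∀ i, IsOfFinOrder (ρ i g) := fun i =>
        (ρ i).isOfFinOrder (isOfFinOrder_of_finite g)
      have key : ∀ i, ∃ y : ℚ, ((y = 0 ∧ ρ i g = 1) ∨
          ∃ (q : Place k (E i)) (p : Place k (E0 i)) (a r : ℕ), 0 < a ∧
          a < orderOf (g : L ≃ₐ[k] L) ∧ (∀ z : E i, q.ord z = 1 →
            Ge q 2 (ρ i g z - algebraMap k (E i) (ζ ^ a) * z)) ∧ Over q p r ∧ ¬ B0 i p ∧
          y = (a / orderOf (g : L ≃ₐ[k] L)) * r * X i p) ∧ y ≤ s i := by
        intro i
        by_cases hmoved : ρ i g = 1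
        · exact ⟨0, Or.inl ⟨rfl, hmoved⟩, hs0 i⟩
        obtain ⟨f, hf⟩ := nontrivial_of_moved (E0 := E0 i) hwv (g : L ≃ₐ[k] L) (ρ i g)
          (hcomp i g) (hI g hgI) hmoved
        rcases hs i with h | ⟨p, α, r, b, q, h1, h2, h3, h4, h5, h6⟩
        · exact absurd (h.1 f) hf
        have hb : (0 : ℤ) < b := by exact_mod_cast h2.1
        -- the action on the uniformizers
        have hact : ∀ z : E i, z ≠ 0 →
            Ge q (q.ord z + 1) (ρ i g z - algebraMap k (E i) (ζ ^ (b * q.ord z)) * z) := by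
          intro z hz
          have hzL : algebraMap (E i) L z ≠ 0 := by simpa using hz
          have h10 := hgen (algebraMap (E i) L z) hzL
          rw [← hcomp, h2.2, IsScalarTower.algebraMap_apply k (E i) L, ← map_mul, ← map_sub] at h10
          rcases h10 with h10 | h10
          · left; exact (map_eq_zero _).1 h10
          · right
            rw [h2.2] at h10
            by_contra hcon
            push Not at hcon
            have h11 : (b : ℤ) * q.ord (ρ i g z - algebraMap k (E i) (ζ ^ (b * q.ord z)) * z) ≤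
                b * q.ord z := mul_le_mul_of_nonneg_left (by omega) hb.le
            omega
        refine ⟨((b % e : ℕ) / orderOf (g : L ≃ₐ[k] L)) * r * X i p, ?_, ?_⟩
        · right
          refine ⟨q, p, b % e, r, ?_, ?_, ?_, h3, h6, rfl⟩
          · rw [Nat.pos_iff_ne_zero]
            intro h0
            apply hmoved
            refine eq_one_of_unipotent q (ρ i g) (hfo i) fun z hz => ?_
            have h10 := hact z hz
            have h11 : ζ ^ ((b : ℤ) * q.ord z) = 1 := by
              obtain ⟨b', hb'⟩ := Nat.dvd_of_mod_eq_zero h0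
              rw [hb']
              push_cast
              rw [mul_assoc, zpow_mul, zpow_natCast, hζ.pow_eq_one, one_zpow]
            rw [h11, map_one, one_mul] at h10
            exact h10
          · rw [hgord]; exact Nat.mod_lt _ hepos
          · intro z hz
            have hz0 : z ≠ 0 := by
              rintro rfl
              rw [q.ord_zero] at hz
              omega
            have h10 := hact z hz0
            rw [hz, mul_one, zpow_natCast] at h10
            have h11 : ζ ^ b = ζ ^ (b % e) := by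
              conv_lhs => rw [← Nat.div_add_mod b e, pow_add, pow_mul, hζ.pow_eq_one, one_pow,
                one_mul]
            rw [h11] at h10
            exact h10
        · rw [h5, hgord]
          have heq : (0 : ℚ) < e := by exact_mod_cast hepos
          refine mul_le_mul_of_nonneg_right ?_ (hX0 i p)
          rw [div_mul_eq_mul_div, div_le_iff₀ heq]
          have h10 : b % e * r ≤ α * e := by
            calc b % e * r ≤ b * r := Nat.mul_le_mul_right _ (Nat.mod_le _ _)
              _ = α * e := by rw [← h4]; ring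
          exact_mod_cast h10
      choose y hy1 hy2 using key
      exact (hrot g hg1 ζ (by rw [hgord]; exact hζ) y hy1).trans
        (Finset.sum_le_sum fun i _ => hy2 i)
    · -- unramified
      have he1 : e = 1 := by omega
      push Not at hall
      obtain ⟨i, f, hf⟩ := hall
      refine le_trans ?_ (Finset.single_le_sum (fun i _ => hs0 i) (Finset.mem_univ i))
      rcases hs i with h | ⟨p, α, r, b, q, h1, h2, h3, h4, h5, h6⟩
      · exact absurd (h.1 f) hf
      · rw [h5]
        refine (hXe i p h6 q r h3).trans (mul_le_mul_of_nonneg_right ?_ (hX0 i p))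
        have h10 : r ≤ α := by
          rw [he1, one_mul] at h4
          have := h2.1
          nlinarith
        exact_mod_cast h10

/-- The exterior product of good forms is logarithmic at every place. -/
theorem logregular_of_goodX (B0 : ∀ i, Place k (E0 i) → Prop) (X : ∀ i, Place k (E0 i) → ℚ)
    {M : ℕ} {D0 : ∀ i, Derivation k (E0 i) (E0 i)} {c : ∀ i, E0 i} (hD0 : ∀ i, D0 i ≠ 0)
    (hc : ∀ i, c i ≠ 0) (hgood : ∀ i, GoodX (B0 i) (X i) M (D0 i) (c i)) (x : ∀ i, E0 i)
    (hx : ∀ i, Transcendental k (x i)) (v : Place k (fixedField G))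
    (D : Fin n → Derivation k (fixedField G) (fixedField G)) (hD : ∀ j, LogPres v (D j)) :
    v.Reg (extForm M D0 x c D) := by
  refine extForm_logregular M D0 hD0 x c hx hc v (fun i => ?_) D hD
  by_cases htriv : ∀ f : E0 i, v.ord (algebraMap (E0 i) (fixedField G) f) = 0
  · exact Or.inl htriv
  · push Not at htriv
    obtain ⟨α, p, hp⟩ := exists_over (K := E0 i) v htriv
    exact Or.inr ⟨p, α, hp, (hgood i p).1⟩

end

end Pool.Agent.W619.X
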